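import Pool.Agent.Lib_helper53.SLPQ.Sim

/-!
# Bits of one real number
-/

namespace Pool.Agent.SLPQ

section

variable {R S : Type*} [CommRing R] [CommRing S]

/-- `m` approximate binary digits of `r` (least significant first), remainder. -/
def exb (σ : R → R) : ℕ → R → List R × R
  | 0, r => ([], r)
  | m + 1, r => ((exb σ m (r - 2 ^ m * σ (r + r - 2 ^ (m + 1) + 1))).1 ++
      [σ (r + r - 2 ^ (m + 1) + 1)], (exb σ m (r - 2 ^ m * σ (r + r - 2 ^ (m + 1) + 1))).2)

theorem exb_map (φ : R →+* S) {σ : R → R} {τ : S → S} (h : ∀ u, φ (σ u) = τ (φ u)) (m : ℕ)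
    (r : R) : exb τ m (φ r) = ((exb σ m r).1.map φ, φ (exb σ m r).2) := by
  induction m generalizing r with
  | zero => rfl
  | succ m ih =>
    have e1 : τ (φ r + φ r - 2 ^ (m + 1) + 1) = φ (σ (r + r - 2 ^ (m + 1) + 1)) := by
      rw [h, map_add, map_sub, map_add, map_pow, map_ofNat, map_one]
    have e2 : φ r - 2 ^ m * φ (σ (r + r - 2 ^ (m + 1) + 1)) =
      φ (r - 2 ^ m * σ (r + r - 2 ^ (m + 1) + 1)) := by
      rw [map_sub, map_mul, map_pow, map_ofNat]
    rw [exb, exb, e1, e2, ih]
    simp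

/-- `Σ b (1 - b)` -/
def penl : List R → R
  | [] => 0
  | b :: l => b * (1 - b) + penl l

theorem penl_map (φ : R →+* S) (l : List R) : penl (l.map φ) = φ (penl l) := by
  induction l with
  | nil => rw [List.map_nil, penl, penl, map_zero]
  | cons b l ih => rw [List.map_cons, penl, penl, ih]; simp

/-- `Σ 2^i l_i` -/
def numR : List R → R
  | [] => 0
  | b :: l => b + 2 * numR l

theorem numR_append (l : List R) (b : R) : numR (l ++ [b]) = numR l + 2 ^ l.length * b := by
  induction l with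
  | nil => simp [numR]
  | cons a l ih => rw [List.cons_append, numR, numR, ih, List.length_cons]; ring

end

theorem num_append (l : List Bool) (b : Bool) : num (l ++ [b]) = num l + 2 ^ l.length * b.toNat := by
  induction l with
  | nil => simp [num]
  | cons a l ih => rw [List.cons_append, num, num, ih, List.length_cons]; ring

theorem num_lt (l : List Bool) : num l < 2 ^ l.length := by
  induction l with
  | nil => simp [num]
  | cons a l ih =>
    rw [num, List.length_cons, pow_succ]
    have := Bool.toNat_le a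
    omega

theorem exb_length {R : Type*} [CommRing R] (σ : R → R) (m : ℕ) (r : R) :
    (exb σ m r).1.length = m := by
  induction m generalizing r with
  | zero => rfl
  | succ m ih => rw [exb]; simp [ih]

theorem exb_sum {R : Type*} [CommRing R] (σ : R → R) (m : ℕ) (r : R) :
    numR (exb σ m r).1 + (exb σ m r).2 = r := by
  induction m generalizing r with
  | zero => rw [exb]; simp [numR]
  | succ m ih =>
    have := ih (r - 2 ^ m * σ (r + r - 2 ^ (m + 1) + 1))
    rw [exb]
    simp only [numR_append, exb_length]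
    rw [add_right_comm, this]
    ring

theorem exb_mem (K m : ℕ) (r : ℝ) : ∀ a ∈ (exb (sb K) m r).1, 0 ≤ a ∧ a ≤ 1 := by
  induction m generalizing r with
  | zero => intro a ha; simp [exb] at ha
  | succ m ih =>
    intro a ha
    rw [exb] at ha
    rcases List.mem_append.1 ha with h | h
    · exact ih _ a h
    · rw [List.mem_singleton] at h
      rw [h]
      exact sb_mem K _

/-- Exact integers give the exact bits up to a doubly exponentially small error. -/
theorem exb_near (K : ℕ) (m : ℕ) (hK : (2:ℝ) ^ (m + 3) ≤ 2 ^ 3 ^ K) (r : ℝ) (y : List Bool)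
    (hy : y.length = m) {δ : ℝ} (hδ : δ + 2 ^ m * ((2:ℝ) ^ 3 ^ K)⁻¹ ≤ 1 / 4)
    (hr : |r - num y| ≤ δ) :
    Near ((2:ℝ) ^ 3 ^ K)⁻¹ (exb (sb K) m r).1 y ∧
      |(exb (sb K) m r).2| ≤ δ + 2 ^ m * ((2:ℝ) ^ 3 ^ K)⁻¹ := by
  induction m generalizing r y δ with
  | zero =>
    have : y = [] := List.length_eq_zero_iff.1 hy
    subst this
    refine ⟨.nil, ?_⟩
    rw [exb]
    simp only [num, Nat.cast_zero, sub_zero] at hr
    have : 0 ≤ ((2:ℝ) ^ 3 ^ K)⁻¹ := by positivity
    linarith
  | succ m ih =>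
    obtain ⟨y', b, rfl⟩ : ∃ y' b, y = y' ++ [b] := by
      rcases List.eq_nil_or_concat y with rfl | ⟨l, f, h⟩
      · simp at hy
      · exact ⟨l, f, by rw [h, List.concat_eq_append]⟩
    have hy' : y'.length = m := by simpa using hy
    set ε : ℝ := ((2:ℝ) ^ 3 ^ K)⁻¹ with hε
    have hε0 : 0 ≤ ε := by positivity
    have hlt : (num y' : ℝ) + 1 ≤ 2 ^ m := by
      have := num_lt y'
      rw [hy'] at this
      have h2 : num y' + 1 ≤ 2 ^ m := this
      exact_mod_cast h2
    have hnn : (0:ℝ) ≤ num y' := Nat.cast_nonneg _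
    have h2m : (0:ℝ) < 2 ^ m := by positivity
    have hδ' : δ + 2 ^ m * ε + 2 ^ m * ε ≤ 1 / 4 := by
      rw [pow_succ] at hδ
      linarith
    have hδ1 : δ ≤ 1 / 4 := by nlinarith [mul_nonneg h2m.le hε0]
    have hK1 : (2:ℝ) ^ m * 16 ≤ 2 ^ 3 ^ K := by
      refine le_trans (le_of_eq ?_) hK
      ring
    have hone : (1:ℝ) ≤ 2 ^ m := one_le_pow₀ (by norm_num)
    rw [num_append, hy'] at hr
    rw [abs_le] at hr
    push_cast at hr
    have hbit : |sb K (r + r - 2 ^ (m + 1) + 1) - bit b| ≤ ε := by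
      rw [pow_succ]
      cases b with
      | true =>
        simp only [Bool.toNat_true, Nat.cast_one, mul_one] at hr
        exact sb_pos K (by linarith [hr.1]) (by linarith [hr.2])
      | false =>
        simp only [Bool.toNat_false, Nat.cast_zero, mul_zero, add_zero] at hr
        have : (bit false : ℝ) = 0 := rfl
        rw [this, sub_zero]
        exact sb_npos K (by linarith [hr.2]) (by linarith [hr.1])
    set β := sb K (r + r - 2 ^ (m + 1) + 1) with hβ
    have hbt : (bit b : ℝ) = (b.toNat : ℝ) := by cases b <;> simp [bit]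
    have hr' : |(r - 2 ^ m * β) - num y'| ≤ δ + 2 ^ m * ε := by
      rw [hbt] at hbit
      rw [abs_le] at hbit ⊢
      have e1 := mul_le_mul_of_nonneg_left hbit.1 h2m.le
      have e2 := mul_le_mul_of_nonneg_left hbit.2 h2m.le
      constructor
      · nlinarith [hr.1]
      · nlinarith [hr.2]
    obtain ⟨h1, h2⟩ := ih (le_trans (pow_le_pow_right₀ (by norm_num) (by omega)) hK)
      (r - 2 ^ m * β) y' hy' hδ' hr'
    rw [exb]
    refine ⟨near_append h1 (List.Forall₂.cons hbit .nil), h2.trans ?_⟩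
    rw [pow_succ]
    linarith

theorem numR_near' {ε : ℝ} {l : List ℝ} {y : List Bool} (h : Near ε l y) :
    |numR l - num y| ≤ (2 ^ l.length - 1) * ε := by
  induction h with
  | nil => simp [numR, num]
  | @cons a c w b hac _ ih =>
    rw [numR, num, List.length_cons, pow_succ]
    push_cast
    have hbt : (bit c : ℝ) = (c.toNat : ℝ) := by cases c <;> simp [bit]
    have hac' : |a - (c.toNat : ℝ)| ≤ ε := by rw [← hbt]; exact hac
    have : a + 2 * numR w - ((c.toNat : ℝ) + 2 * (num b : ℝ)) =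
      (a - c.toNat) + 2 * (numR w - num b) := by ring
    rw [this]
    refine (abs_add_le _ _).trans ?_
    rw [abs_mul, abs_two]
    linarith

theorem numR_near {ε : ℝ} (hε : 0 ≤ ε) {l : List ℝ} {y : List Bool} (h : Near ε l y) :
    |numR l - num y| ≤ 2 ^ l.length * ε := by
  have := numR_near' h
  linarith

theorem penl_nonneg (l : List ℝ) (hl : ∀ a ∈ l, 0 ≤ a ∧ a ≤ 1) : 0 ≤ penl l := by
  induction l with
  | nil => exact le_rfl
  | cons b l ih =>
    rw [penl]
    have h1 := hl b (by simp)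
    have h2 := ih fun a ha => hl a (by simp [ha])
    have := mul_nonneg h1.1 (sub_nonneg.2 h1.2)
    linarith

/-- A small penalty forces all approximate bits to be close to bits. -/
theorem penl_near {κ : ℝ} (l : List ℝ) (hl : ∀ a ∈ l, 0 ≤ a ∧ a ≤ 1) (h : penl l ≤ κ) :
    ∃ y : List Bool, y.length = l.length ∧ Near (2 * κ) l y := by
  induction l with
  | nil => exact ⟨[], rfl, .nil⟩
  | cons b l ih =>
    rw [penl] at h
    have h1 := hl b (by simp)
    have h2 := penl_nonneg l fun a ha => hl a (by simp [ha])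
    have h3 := mul_nonneg h1.1 (sub_nonneg.2 h1.2)
    obtain ⟨y, hy, hn⟩ := ih (fun a ha => hl a (by simp [ha])) (by linarith)
    by_cases hb : 1 / 2 ≤ b
    · refine ⟨true :: y, by simp [hy], List.Forall₂.cons ?_ hn⟩
      have : (bit true : ℝ) = 1 := rfl
      rw [this, abs_le]
      constructor
      · nlinarith
      · nlinarith
    · refine ⟨false :: y, by simp [hy], List.Forall₂.cons ?_ hn⟩
      have : (bit false : ℝ) = 0 := rfl
      push Not at hb
      rw [this, sub_zero, abs_le]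
      constructor
      · nlinarith
      · nlinarith

/-- Good approximate bits have a small penalty. -/
theorem penl_le {ε : ℝ} {l : List ℝ} {y : List Bool} (h : Near ε l y)
    (hl : ∀ a ∈ l, 0 ≤ a ∧ a ≤ 1) : penl l ≤ l.length * ε := by
  induction h with
  | nil => simp [penl]
  | @cons a c w b hac _ ih =>
    rw [penl, List.length_cons]
    push_cast
    have h1 := hl a (by simp)
    have h2 := ih fun a ha => hl a (by simp [ha])
    have h3 : |a - (bit c : ℝ)| ≤ ε := hac
    rw [abs_le] at h3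
    have h4 : a * (1 - a) ≤ ε := by
      rcases bit_mem c with hc | hc
      · rw [hc] at h3; nlinarith [h3.2]
      · rw [hc] at h3; nlinarith [h3.1]
    linarith

/-! ### cost -/

/-- The constants `2^j`, `j ≤ m`. -/
def tws (X : Type*) (m : ℕ) : Set (X → ℝ) := {f | ∃ j ≤ m, f = 2 ^ j}

theorem tws_cost {X : Type*} {d : Prop} {B : Set (X → ℝ)} (h1 : (1 : X → ℝ) ∈ B) (m : ℕ) :
    CS d B m (tws X m) := by
  induction m with
  | zero =>
    refine CS.zero ?_
    rintro f ⟨j, hj, rfl⟩
    have : j = 0 := by omega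
    subst this
    simpa using h1
  | succ m ih =>
    have hp : (2 ^ m : X → ℝ) ∈ B ∪ tws X m := Or.inr ⟨m, le_rfl, rfl⟩
    refine ((ih.trans (CS.add (CS.mem (d := d) hp) (CS.mem hp))).le (by omega)).sub ?_
    rintro f ⟨j, hj, rfl⟩
    rcases Nat.lt_or_ge m j with h | h
    · right
      have : j = m + 1 := by omega
      subst this
      rw [Set.mem_singleton_iff, pow_succ, mul_two]
    · exact Or.inl ⟨j, h, rfl⟩

theorem exb_cost {X : Type*} {B : Set (X → ℝ)} (h1 : (1 : X → ℝ) ∈ B) (K m : ℕ)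
    (hB : tws X m ⊆ B) (r : X → ℝ) (hr : r ∈ B) :
    CS True B (m * (102 * K + 13)) ({f | f ∈ (exb (sbF K) m r).1} ∪ {(exb (sbF K) m r).2}) := by
  induction m generalizing B r with
  | zero =>
    refine (CS.zero ?_).le (Nat.zero_le _)
    rintro f (hf | hf)
    · simp [exb] at hf
    · rw [Set.mem_singleton_iff] at hf
      rw [hf]; exact hr
  | succ m ih =>
    have hp : (2 ^ (m + 1) : X → ℝ) ∈ B := hB ⟨m + 1, le_rfl, rfl⟩
    have hp' : (2 ^ m : X → ℝ) ∈ B := hB ⟨m, by omega, rfl⟩
    have c1 : CS True B 3 {r + r - 2 ^ (m + 1) + 1} :=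
      CS.add (CS.sb (CS.add (CS.mem hr) (CS.mem hr)) (CS.mem hp)) (CS.mem h1)
    have c2 := c1.trans (sb_cost (B := B ∪ {r + r - 2 ^ (m + 1) + 1}) (Or.inl h1) K
      (u := r + r - 2 ^ (m + 1) + 1) (Or.inr rfl))
    set β : X → ℝ := sbF K (r + r - 2 ^ (m + 1) + 1) with hβ
    have c3 : CS True B (3 + (102 * K + 8)) {β} := c2.sub Set.subset_union_right
    have c4 := c3.trans (CS.sb (CS.mem (d := True) (B := B ∪ {β}) (g := r) (Or.inl hr))
      (CS.mul (CS.mem (g := (2 ^ m : X → ℝ)) (Or.inl hp')) (CS.mem (g := β) (Or.inr rfl))))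
    have c5 := c4.trans (ih (B := B ∪ ({β} ∪ {r - 2 ^ m * β})) (Or.inl h1) (fun f hf => Or.inl
      (hB (by obtain ⟨j, hj, rfl⟩ := hf; exact ⟨j, by omega, rfl⟩))) (r - 2 ^ m * β)
      (Or.inr (Or.inr rfl)))
    refine (c5.le ?_).sub ?_
    · rw [add_mul m 1, one_mul]; omega
    · rintro f (hf | hf)
      · have hf' : f ∈ (exb (sbF K) (m + 1) r).1 := hf
        rw [exb] at hf'
        rcases List.mem_append.1 hf' with h | h
        · exact Or.inr (Or.inl h)
        · rw [List.mem_singleton] at h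
          exact Or.inl (Or.inl h)
      · exact Or.inr (Or.inr hf)

theorem penl_cost {X : Type*} {d : Prop} {B : Set (X → ℝ)} (h1 : (1 : X → ℝ) ∈ B)
    (h0 : (0 : X → ℝ) ∈ B) (l : List (X → ℝ)) (hl : ∀ f ∈ l, f ∈ B) :
    CS d B (3 * l.length) {penl l} := by
  induction l with
  | nil => exact CS.mem h0
  | cons b l ih =>
    rw [penl]
    have hb := hl b (by simp)
    exact (CS.add (CS.mul (CS.mem hb) (CS.sb (CS.mem h1) (CS.mem hb)))
      (ih fun f hf => hl f (by simp [hf]))).le (by rw [List.length_cons]; omega)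

theorem dexp_cost {X : Type*} {d : Prop} {B : Set (X → ℝ)} (h1 : (1 : X → ℝ) ∈ B) (J : ℕ) :
    CS d B (J + 1) {(2 ^ 2 ^ J : X → ℝ)} := by
  induction J with
  | zero =>
    refine (CS.add (CS.mem (d := d) h1) (CS.mem h1)).sub ?_
    intro f hf
    rw [Set.mem_singleton_iff] at hf ⊢
    rw [hf]
    norm_num
  | succ J ih =>
    have := ih.trans (CS.mul (CS.mem (d := d) (B := B ∪ {(2 ^ 2 ^ J : X → ℝ)})
      (g := (2 ^ 2 ^ J : X → ℝ)) (Or.inr rfl)) (CS.mem (g := (2 ^ 2 ^ J : X → ℝ)) (Or.inr rfl)))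
    refine (this.le (by omega)).sub ?_
    intro f hf
    right
    rw [Set.mem_singleton_iff] at hf ⊢
    rw [hf, ← pow_two, ← pow_mul, pow_succ]

end Pool.Agent.SLPQ
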