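import Pool.Agent.Lib_helper53.SLPQ.Cmp
import Pool.Agent.Lib_helper53.SLPQ.One

/-!
# Triangular systems of quadratic equations
-/

namespace Pool.Agent.SLPQ

/-! ### the exact solution is constructible -/

theorem val_mem1 {l : List ℝ} (h0 : (0:ℝ) ∈ l) (p : SLP) (u : List ℝ)
    (h : ∀ a ∈ SLP.run p u, a = 1 ∨ a ∈ l) : p.val u = 1 ∨ p.val u ∈ l := by
  rw [SLP.val]
  rcases List.eq_nil_or_concat (p.run u) with h' | ⟨w, f, h'⟩
  · rw [h']; exact Or.inr h0
  · rw [h', List.concat_eq_append] at h ⊢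
    have : (w ++ [f]).getLastD 0 = f := by simp
    rw [this]
    exact h f (by simp)

/-- The initial entries `1`, `x`, `z_0, …, z_(i-1)`. -/
noncomputable def ini (x : List Bool) (z : ℕ → ℝ) (i : ℕ) : List ℝ :=
  (1 : ℝ) :: (x.map bit ++ (List.range i).map z)

theorem ini_mem1 {l : List ℝ} (h0 : (0:ℝ) ∈ l) (x : List Bool) (z : ℕ → ℝ) (i : ℕ)
    (h : ∀ j < i, z j = 1 ∨ z j ∈ l) : ∀ a ∈ ini x z i, a = 1 ∨ a ∈ l := by
  intro a ha
  rcases List.mem_cons.1 ha with h' | h'
  · exact Or.inl h'
  · rcases List.mem_append.1 h' with h' | h'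
    · obtain ⟨c, -, rfl⟩ := List.mem_map.1 h'
      rcases bit_mem c with h | h
      · exact Or.inr (by rw [h]; exact h0)
      · exact Or.inl h
    · obtain ⟨j, hj, rfl⟩ := List.mem_map.1 h'
      exact h j (List.mem_range.1 hj)

theorem ini_getmem (x : List Bool) (z : ℕ → ℝ) {i j : ℕ} (h : j < i) : z j ∈ ini x z i := by
  rw [ini]
  exact List.mem_cons_of_mem _ (List.mem_append_right _ (List.mem_map.2
    ⟨j, List.mem_range.2 h, rfl⟩))

theorem mem_run {p : SLP} {u : List ℝ} {a : ℝ} (h : a ∈ u) : a ∈ SLP.run p u := by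
  induction p generalizing u with
  | nil => exact h
  | cons c p ih =>
    obtain ⟨o, i, j⟩ := c
    rw [SLP.run]
    exact ih (List.mem_append_left _ h)

theorem tri_chain (x : List Bool) (q : ℕ → SLP) {s : ℕ} (z : ℕ → ℝ) (k : ℕ)
    (hq : ∀ i < k, (q i).length ≤ s) (hz : ∀ i < k, z i ^ 2 = (q i).val (ini x z i)) :
    ∃ l, Rt True l ∧ (0:ℝ) ∈ l ∧ l.length ≤ 1 + k * (s + 2) ∧ ∀ i < k, z i = 1 ∨ z i ∈ l := by
  induction k with
  | zero =>
    refine ⟨[Op.sub.app 1 1], .op .sub .nil (Or.inl rfl) (Or.inl rfl), by simp [Op.app],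
      by simp, by simp⟩
  | succ k ih =>
    obtain ⟨l, h1, h2, h3, h4⟩ := ih (fun i hi => hq i (by omega)) (fun i hi => hz i (by omega))
    obtain ⟨l1, g1, g2, g3, g4⟩ := h1.run (q k) h2 (ini x z k) (ini_mem1 h2 x z k h4)
    have hv := val_mem1 g3 (q k) _ g4
    rw [← hz k (by omega)] at hv
    have hnn : 0 ≤ z k ^ 2 := sq_nonneg _
    have r1 : Rt True (√(z k ^ 2) :: l1) := .sqrt trivial g1 hv hnn
    rw [Real.sqrt_sq_eq_abs] at r1
    have r2 : Rt True (Op.sub.app 0 |z k| :: |z k| :: l1) :=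
      .op .sub r1 (Or.inr (by simp [g3])) (Or.inr (by simp))
    have hqk := hq k (by omega)
    refine ⟨_, r2, by simp [g3], ?_, ?_⟩
    · simp only [List.length_cons]
      rw [add_mul k 1, one_mul]
      omega
    · intro i hi
      rcases Nat.lt_succ_iff_lt_or_eq.1 hi with h | h
      · have := g4 (z i) (mem_run (ini_getmem x z h))
        exact mem1_of this (by intro a h; simp [h])
      · subst h
        right
        rcases abs_choice (z i) with h | h
        · rw [h]; simp
        · rw [h]; simp [Op.app]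

/-! ### approximate solutions are close to exact ones -/

/-- The accuracy with `t` equations to go. -/
noncomputable def er (M t : ℕ) : ℝ := ((2:ℝ) ^ 2 ^ (M + 2 + 2 * t))⁻¹

theorem er_pos (M t : ℕ) : 0 < er M t := by rw [er]; positivity

theorem er_le_one (M t : ℕ) : er M t ≤ 1 := inv_le_one_of_one_le₀ (one_le_pow₀ (by norm_num))

theorem er_mono (M : ℕ) {t t' : ℕ} (h : t ≤ t') : er M t' ≤ er M t :=
  inv_anti₀ (by positivity) (pow_le_pow_right₀ (by norm_num)
    (Nat.pow_le_pow_right (by norm_num) (by omega)))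

theorem er_step (M t : ℕ) : er M (t + 1) + er M (t + 1) * 2 ^ 2 ^ M ≤ er M t ^ 2 := by
  have h1 : (2:ℝ) ^ 2 ^ M * 2 ^ 2 ^ (M + 3) ≤ 2 ^ 2 ^ (M + 4) := by
    rw [← pow_add]
    refine pow_le_pow_right₀ (by norm_num) ?_
    have e1 : 2 ^ (M + 3) = 8 * 2 ^ M := by rw [pow_add]; ring
    have e2 : 2 ^ (M + 4) = 16 * 2 ^ M := by rw [pow_add]; ring
    omega
  set P : ℝ := 2 ^ 2 ^ (M + 2 + 2 * t) with hP
  have hP4 : (2:ℝ) ^ 2 ^ (M + 2 + 2 * (t + 1)) = ((P ^ 2) ^ 2) := by
    rw [show M + 2 + 2 * (t + 1) = (M + 2 + 2 * t) + 1 + 1 by ring, dexp_succ, dexp_succ]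
  have hPM : 1 + (2:ℝ) ^ 2 ^ M ≤ P ^ 2 := by
    have e1 : (2:ℝ) ^ 2 ^ M ≤ P := by
      rw [hP]
      exact pow_le_pow_right₀ (by norm_num) (Nat.pow_le_pow_right (by norm_num) (by omega))
    have e2 := two_le_dexp (M + 2 + 2 * t)
    rw [← hP] at e2
    nlinarith
  have hP0 : 0 < P := by positivity
  rw [er, er, hP4, ← hP]
  have : ((P ^ 2) ^ 2)⁻¹ + ((P ^ 2) ^ 2)⁻¹ * 2 ^ 2 ^ M = ((P ^ 2) ^ 2)⁻¹ * (1 + 2 ^ 2 ^ M) := by ring
  rw [this]
  calc ((P ^ 2) ^ 2)⁻¹ * (1 + 2 ^ 2 ^ M) ≤ ((P ^ 2) ^ 2)⁻¹ * P ^ 2 := by gcongr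
    _ = P⁻¹ ^ 2 := by field_simp

theorem er_zero_sq (M t : ℕ) : er M t ^ 2 ≤ ((2:ℝ) ^ 2 ^ (M + 3))⁻¹ := by
  rw [er, inv_pow, ← dexp_succ]
  exact inv_anti₀ (by positivity) (pow_le_pow_right₀ (by norm_num)
    (Nat.pow_le_pow_right (by norm_num) (by omega)))

theorem ini_congr (x : List Bool) {z z' : ℕ → ℝ} {i : ℕ} (h : ∀ j < i, z j = z' j) :
    ini x z i = ini x z' i := by
  rw [ini, ini]
  congr 2
  exact List.map_congr_left fun j hj => h j (List.mem_range.1 hj)

theorem ini_rel {ε : ℝ} (hε : 0 ≤ ε) {r : ℕ} (x : List Bool) {z z' : ℕ → ℝ} {i : ℕ}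
    (h : ∀ j < i, RR ε r (z j) (z' j)) : List.Forall₂ (RR ε r) (ini x z i) (ini x z' i) := by
  have h1' : ∀ a : ℝ, |a| ≤ 1 → RR ε r a a := by
    intro a ha
    have := two_le_dexp r
    refine ⟨by linarith, by linarith, ?_⟩
    simp only [sub_self, abs_zero]
    positivity
  refine .cons (h1' 1 (by simp)) (List.rel_append ?_ ?_)
  · rw [List.forall₂_map_left_iff, List.forall₂_map_right_iff, List.forall₂_same]
    intro c _
    refine h1' _ ?_
    rcases bit_mem c with h | h <;> rw [h] <;> norm_num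
  · rw [List.forall₂_map_left_iff, List.forall₂_map_right_iff, List.forall₂_same]
    intro j hj
    exact h j (List.mem_range.1 hj)

theorem val_lip {ε : ℝ} (hε : 0 ≤ ε) (p : SLP) {r : ℕ} {u v : List ℝ}
    (h : List.Forall₂ (RR ε r) u v) : |p.val u - p.val v| ≤ ε * 2 ^ 2 ^ (r + p.length + 1) := by
  have := (rel_last hε (run_lip hε p h)).2.2
  rwa [← SLP.val, ← SLP.val] at this

theorem tri_sound (x : List Bool) (q : ℕ → SLP) {s k M : ℕ} (w : ℕ → ℝ)
    (hq : ∀ i < k, (q i).length ≤ s) (hM : M = 20 * (1 + k * (s + 2) + s) + s + 10)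
    (hw : ∀ i < k, |w i ^ 2 - (q i).val (ini x w i)| ≤ er M (k + 1)) :
    ∃ z : ℕ → ℝ, (∀ i < k, z i ^ 2 = (q i).val (ini x z i)) ∧ ∀ i < k, |z i - w i| ≤ er M 0 := by
  have key : ∀ j ≤ k, ∃ z : ℕ → ℝ, (∀ i < j, z i ^ 2 = (q i).val (ini x z i)) ∧
      ∀ i < j, |z i - w i| ≤ er M (k - j) := by
    intro j
    induction j with
    | zero => intro _; exact ⟨fun _ => 0, by simp, by simp⟩
    | succ j ih =>
      intro hj
      obtain ⟨z, h1, h2⟩ := ih (by omega)
      obtain ⟨l, g1, g2, g3, g4⟩ := tri_chain x q z j (fun i hi => hq i (by omega)) h1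
      have hlen : l.length ≤ 1 + k * (s + 2) := by
        have : j * (s + 2) ≤ k * (s + 2) := Nat.mul_le_mul_right _ (by omega)
        omega
      obtain ⟨l1, f1, f2, f3, f4⟩ := g1.run (q j) g2 (ini x z j) (ini_mem1 g2 x z j g4)
      have hv := val_mem1 f3 (q j) _ f4
      have hqj := hq j (by omega)
      set S1 := 1 + k * (s + 2) + s with hS1
      have hbds := f1.bds hv
      have hBD1 := BD_mono (s := l1.length) (t := S1) (by omega)
      have hBpos : 0 < BD l1.length := by linarith [BD_ge l1.length]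
      set a := (q j).val (ini x z j) with ha
      -- closeness of the values
      have hrel : List.Forall₂ (RR (er M (k - j)) (20 * S1 + 5)) (ini x z j) (ini x w j) := by
        refine ini_rel (er_pos _ _).le x fun i hi => ?_
        have hzi := (g1.bds (g4 i hi)).1.trans (BD_mono (s := l.length) (t := S1) (by omega))
        have hd := h2 i hi
        have hBk : BD S1 + 1 ≤ 2 ^ 2 ^ (20 * S1 + 5) := by
          rw [show 20 * S1 + 5 = (20 * S1 + 4) + 1 by ring, dexp_succ]
          change BD S1 + 1 ≤ BD S1 ^ 2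
          nlinarith [BD_ge S1]
        refine ⟨by linarith, ?_, ?_⟩
        · have h6 : |w i| ≤ |z i| + |z i - w i| := by
            have := abs_sub_abs_le_abs_sub (w i) (z i)
            rw [abs_sub_comm (w i) (z i)] at this
            linarith
          have := er_le_one M (k - j)
          linarith
        · refine hd.trans ?_
          have h1 : (1:ℝ) ≤ 2 ^ 2 ^ (20 * S1 + 5 + 1) := one_le_pow₀ (by norm_num)
          have := er_pos M (k - j)
          nlinarith
      have hlip := val_lip (er_pos M (k - j)).le (q j) hrel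
      rw [← ha] at hlip
      have hexp : (2:ℝ) ^ 2 ^ (20 * S1 + 5 + (q j).length + 1) ≤ 2 ^ 2 ^ M :=
        pow_le_pow_right₀ (by norm_num) (Nat.pow_le_pow_right (by norm_num) (by omega))
      have hg : |a - w j ^ 2| ≤ er M (k - (j + 1)) ^ 2 := by
        have e1 : |a - w j ^ 2| ≤ |a - (q j).val (ini x w j)| + |(q j).val (ini x w j) - w j ^ 2| :=
          abs_sub_le _ _ _
        have e2 := hw j (by omega)
        rw [abs_sub_comm] at e2
        have e3 : er M (k + 1) ≤ er M (k - (j + 1) + 1) := er_mono M (by omega)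
        have e4 := er_step M (k - (j + 1))
        have e5 : k - j = k - (j + 1) + 1 := by omega
        rw [e5] at hlip
        have e6 : er M (k - (j + 1) + 1) * 2 ^ 2 ^ (20 * S1 + 5 + (q j).length + 1) ≤
            er M (k - (j + 1) + 1) * 2 ^ 2 ^ M :=
          mul_le_mul_of_nonneg_left hexp (er_pos _ _).le
        linarith
      have ha0 : 0 ≤ a := by
        by_contra hneg
        push Not at hneg
        have e1 := hbds.2 hneg.ne
        rw [abs_of_neg hneg] at e1
        have e2 := inv_anti₀ hBpos hBD1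
        have e3 := er_zero_sq M (k - (j + 1))
        have e4 : ((2:ℝ) ^ 2 ^ (M + 3))⁻¹ < (BD S1)⁻¹ := by
          refine inv_strictAnti₀ (by linarith [BD_ge S1]) ?_
          rw [BD]
          exact pow_lt_pow_right₀ (by norm_num) (Nat.pow_lt_pow_right (by norm_num) (by omega))
        rw [abs_le] at hg
        have := sq_nonneg (w j)
        linarith [hg.2, hg.1]
      -- the new coordinate
      obtain ⟨y, hy1, hy2⟩ : ∃ y : ℝ, y ^ 2 = a ∧ |y - w j| ≤ er M (k - (j + 1)) := by
        have hsq : √a ^ 2 = a := Real.sq_sqrt ha0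
        have hs0 := Real.sqrt_nonneg a
        have hab : |(√a) - (|w j|)| ≤ er M (k - (j + 1)) := by
          have e1 : |(√a) - (|w j|)| ^ 2 ≤ |a - w j ^ 2| := by
            have e0 : 0 ≤ √a + |w j| := by positivity
            have e2 : |a - w j ^ 2| = |(√a) - (|w j|)| * (√a + |w j|) := by
              rw [← abs_of_nonneg e0, ← abs_mul]
              congr 1
              have := sq_abs (w j)
              nlinarith
            rw [e2, sq]
            refine mul_le_mul_of_nonneg_left ?_ (abs_nonneg _)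
            rw [abs_le]
            have := abs_nonneg (w j)
            constructor <;> linarith
          exact (pow_le_pow_iff_left₀ (abs_nonneg _) (er_pos _ _).le two_ne_zero).1 (e1.trans hg)
        rcases le_total 0 (w j) with h | h
        · exact ⟨√a, hsq, by rwa [abs_of_nonneg h] at hab⟩
        · refine ⟨-√a, by rw [neg_sq, hsq], ?_⟩
          rw [abs_of_nonpos h] at hab
          rw [← abs_neg]
          convert hab using 2
          ring
      refine ⟨Function.update z j y, ?_, ?_⟩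
      · intro i hi
        rcases Nat.lt_succ_iff_lt_or_eq.1 hi with h | h
        · rw [Function.update_of_ne (by omega), h1 i h]
          congr 1
          exact ini_congr x fun t ht => by rw [Function.update_of_ne (by omega)]
        · subst h
          rw [Function.update_self, hy1, ha]
          congr 1
          exact ini_congr x fun t ht => by rw [Function.update_of_ne (by omega)]
      · intro i hi
        rcases Nat.lt_succ_iff_lt_or_eq.1 hi with h | h
        · rw [Function.update_of_ne (by omega)]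
          exact (h2 i h).trans (er_mono M (by omega))
        · subst h
          rw [Function.update_self]
          exact hy2
  obtain ⟨z, h1, h2⟩ := key k le_rfl
  exact ⟨z, h1, by simpa using h2⟩

end Pool.Agent.SLPQ
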