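import Pool.Agent.Lib_helper53.SLPQ.Fin

/-!
# Forward direction: one real variable
-/

namespace Pool.Agent.SLPQ

/-- The value of the one-variable program (up to a factor `≥ 1`). -/
noncomputable def gval (K J m : ℕ) (C : Circ) (x : List ℝ) (t : ℝ) : ℝ :=
  4 * (2 * (runG (sb K) C (x ++ (exb (sb K) m t).1)).getLastD 0 - 1) -
    (2 ^ 2 ^ J * penl (exb (sb K) m t).1 + (8 * (exb (sb K) m t).2) ^ 2)

theorem gval_pos {L m K J : ℕ} (hJ : J = L + m + 4) (hK : K = L + m + 6) (C : Circ)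
    (hC : ∀ g ∈ C, gcost g.size ≤ L) (x y : List Bool) (hy : y.length = m)
    (hacc : C.out (x ++ y) = true) (t : ℝ) (ht : |t - num y| ≤ 1 / 8) :
    1 ≤ gval K J m C (x.map bit) t := by
  have n2 := num2 L m
  rw [← hJ, ← hK] at n2
  set ε : ℝ := ((2:ℝ) ^ 3 ^ K)⁻¹ with hε
  have hE0 : (0:ℝ) < 2 ^ 3 ^ K := by positivity
  have hE : (2:ℝ) ^ 3 ^ K * ε = 1 := mul_inv_cancel₀ hE0.ne'
  have hε0 : 0 ≤ ε := by positivity
  have hJ2 := two_le_dexp J
  have hm6 : (2:ℝ) ^ (m + 6) = 2 ^ m * 64 := by rw [pow_add]; norm_num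
  have h2m : (1:ℝ) ≤ 2 ^ m := one_le_pow₀ (by norm_num)
  -- 2^m ε small
  have s1 : 2 ^ 2 ^ J * (2 ^ m * 64) * ε ≤ 1 := by
    rw [← hE, ← hm6]; exact mul_le_mul_of_nonneg_right n2 hε0
  have s2 : 2 ^ m * ε ≤ 1 / 64 := by
    have : 0 ≤ (2:ℝ) ^ m * ε := by positivity
    nlinarith
  have s3 : ε ≤ 1 / 64 := by nlinarith
  obtain ⟨h1, h2⟩ := exb_near K m (le_trans (by
    rw [hm6, pow_add]; nlinarith) n2) t y hy (δ := 1 / 8) (by linarith) ht
  have hmem := exb_mem K m t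
  have hlen := exb_length (sb K) m t
  have hpen := penl_le h1 hmem
  rw [hlen] at hpen
  have hmle : (m:ℝ) ≤ 2 ^ m := by exact_mod_cast (Nat.lt_two_pow_self (n := m)).le
  have s4 : 2 ^ 2 ^ J * penl (exb (sb K) m t).1 ≤ 1 / 64 := by
    have e1 : 2 ^ 2 ^ J * penl (exb (sb K) m t).1 ≤ 2 ^ 2 ^ J * (2 ^ m * ε) := by
      refine mul_le_mul_of_nonneg_left (hpen.trans ?_) (by positivity)
      exact mul_le_mul_of_nonneg_right hmle hε0
    linarith
  have hnear := circ_near (ε := ε) (L := L) (K := K) hε0 ?_ ?_ le_rfl C hC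
    (near_append (near_self hε0 x) h1)
  · have hlast := near_last hε0 hnear
    rw [← out_last, hacc, abs_le] at hlast
    have : (bit true : ℝ) = 1 := rfl
    rw [this] at hlast
    rw [gval]
    rw [abs_le] at h2
    have s5 : (8 * (exb (sb K) m t).2) ^ 2 ≤ (9 / 8) ^ 2 := by
      apply sq_le_sq'
      · linarith [h2.1]
      · linarith [h2.2]
    linarith [hlast.1]
  · refine inv_anti₀ (by positivity) (pow_le_pow_right₀ (by norm_num) ?_)
    rw [hK]; exact num1 L m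
  · rw [hK]; exact num1 L m

theorem gval_neg {L m K J : ℕ} (hJ : J = L + m + 4) (hK : K = L + m + 6) (C : Circ)
    (hC : ∀ g ∈ C, gcost g.size ≤ L) (x : List Bool) (t : ℝ)
    (ht : -1 < gval K J m C (x.map bit) t) :
    ∃ y : List Bool, y.length = m ∧ C.out (x ++ y) = true ∧ |t - num y| < 1 / 2 := by
  have n2 := num2 L m
  have n3 := num3 L m
  have n5 := num5 L m
  rw [← hJ] at n3 n5
  rw [← hJ, ← hK] at n2
  have hJ2 := two_le_dexp J
  set κ : ℝ := 5 * ((2:ℝ) ^ 2 ^ J)⁻¹ with hκ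
  have hP0 : (0:ℝ) < 2 ^ 2 ^ J := by positivity
  have hP : (2:ℝ) ^ 2 ^ J * ((2:ℝ) ^ 2 ^ J)⁻¹ = 1 := mul_inv_cancel₀ hP0.ne'
  have hκ0 : 0 ≤ κ := by positivity
  have hPκ : (2:ℝ) ^ 2 ^ J * κ = 5 := by rw [hκ]; linear_combination 5 * hP
  have hmem := exb_mem K m t
  have hlen := exb_length (sb K) m t
  have hpen0 := penl_nonneg _ hmem
  have hx01 : ∀ a ∈ (x.map bit : List ℝ) ++ (exb (sb K) m t).1, 0 ≤ a ∧ a ≤ 1 := by
    intro a ha
    rcases List.mem_append.1 ha with h | h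
    · obtain ⟨c, -, rfl⟩ := List.mem_map.1 h
      rcases bit_mem c with h | h <;> rw [h] <;> norm_num
    · exact hmem a h
  have hout := last_mem01 _ (runG_mem K C _ hx01)
  rw [gval] at ht
  have hsum : 2 ^ 2 ^ J * penl (exb (sb K) m t).1 + (8 * (exb (sb K) m t).2) ^ 2 < 5 := by
    linarith [hout.2]
  have hsq := sq_nonneg (8 * (exb (sb K) m t).2)
  have hpen : penl (exb (sb K) m t).1 ≤ κ := by
    by_contra hcon
    push Not at hcon
    have := mul_lt_mul_of_pos_left hcon hP0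
    linarith
  obtain ⟨y, hy, hn⟩ := penl_near _ hmem hpen
  rw [hlen] at hy
  have hr : |(exb (sb K) m t).2| < 3 / 10 := by
    have : (exb (sb K) m t).2 ^ 2 < (3 / 10) ^ 2 := by
      have := mul_nonneg hP0.le hpen0
      nlinarith
    exact abs_lt_of_sq_lt_sq this (by norm_num)
  have h2κ : 0 ≤ 2 * κ := by linarith
  have hinv : 2 * κ * (2 ^ 2 ^ J) = 10 := by linarith
  have hsum2 := exb_sum (sb K) m t
  have hnum := numR_near h2κ hn
  rw [hlen] at hnum
  have s1 : 2 ^ m * (2 * κ) ≤ 10 / 128 := by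
    have e1 : (2:ℝ) ^ (m + 7) = 2 ^ m * 128 := by rw [pow_add]; norm_num
    rw [e1] at n5
    have := mul_le_mul_of_nonneg_right n5 h2κ
    linarith
  have h2m : (1:ℝ) ≤ 2 ^ m := one_le_pow₀ (by norm_num)
  have s2 : 2 * κ ≤ 10 / 128 := by nlinarith
  refine ⟨y, hy, ?_, ?_⟩
  · by_contra hrej
    rw [Bool.not_eq_true] at hrej
    have hnear := circ_near (ε := 2 * κ) (L := L) (K := K) h2κ ?_ ?_ ?_ C hC
      (near_append (near_self h2κ x) hn)
    · have hlast := near_last h2κ hnear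
      rw [← out_last, hrej, abs_le] at hlast
      have : (bit false : ℝ) = 0 := rfl
      rw [this] at hlast
      have := mul_nonneg hP0.le hpen0
      linarith [hlast.2]
    · rw [le_inv_comm₀ (by linarith [inv_pos.2 hP0]) (by positivity)]
      have e1 : (2 * κ)⁻¹ = 2 ^ 2 ^ J / 10 := by
        rw [hκ]; field_simp; norm_num
      rw [e1]
      linarith
    · rw [hK]; exact num1 L m
    · have e0 : (2:ℝ) ^ 2 ^ J ≤ 2 ^ 3 ^ K := by
        have : (1:ℝ) ≤ 2 ^ (m + 6) := one_le_pow₀ (by norm_num)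
        nlinarith
      have e1 := inv_anti₀ hP0 e0
      have : 0 < ((2:ℝ) ^ 2 ^ J)⁻¹ := inv_pos.2 hP0
      linarith
  · have e1 : t - num y = (numR (exb (sb K) m t).1 - num y) + (exb (sb K) m t).2 := by
      linarith
    rw [e1]
    refine (abs_add_le _ _).trans_lt ?_
    linarith

/-- **One real variable.** -/
theorem one_variable (n m : ℕ) (C : Circ) : ∃ G : SLP, G.Valid (1 + (n + 1)) ∧
    G.length ≤ 100000 * (n + m + C.size + 1) ^ 4 ∧ ∀ x : List Bool, x.length = n →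
      (∀ y : List Bool, y.length = m → C.out (x ++ y) = true → ∀ t : ℝ, |t - num y| ≤ 1 / 8 →
        1 ≤ G.val ((1 : ℝ) :: (x.map bit ++ [t]))) ∧
      ∀ t : ℝ, -1 < G.val ((1 : ℝ) :: (x.map bit ++ [t])) →
        ∃ y : List Bool, y.length = m ∧ C.out (x ++ y) = true ∧ |t - num y| < 1 / 2 := by
  obtain ⟨hC1, hC2⟩ := circ_length_le C
  obtain ⟨S, hS⟩ : ∃ S, S = C.size := ⟨_, rfl⟩
  obtain ⟨L, hL⟩ : ∃ L, L = gcost S := ⟨_, rfl⟩
  obtain ⟨K, hK⟩ : ∃ K, K = L + m + 6 := ⟨_, rfl⟩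
  obtain ⟨J, hJ⟩ : ∃ J, J = L + m + 4 := ⟨_, rfl⟩
  have hgL : ∀ g ∈ C, gcost g.size ≤ L := by
    intro g hg
    rw [hL, hS, gcost, gcost]
    have := hC2 g hg
    gcongr
  set b : List (List ℝ → ℝ) := 1 :: crd (n + 1) with hb
  set B : Set (List ℝ → ℝ) := {f | f ∈ b} ∪ {0} with hB
  have h1 : (1 : List ℝ → ℝ) ∈ B := Or.inl (by simp [hb])
  have h0 : (0 : List ℝ → ℝ) ∈ B := Or.inr rfl
  have hcr : ∀ f ∈ crd (n + 1), f ∈ B := fun f hf => Or.inl (by
    rw [hb]; exact List.mem_cons_of_mem _ hf)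
  set tt : List ℝ → ℝ := fun w => w.getD n 0 with htt
  have htB : tt ∈ B := hcr tt (by
    rw [crd, List.mem_map]; exact ⟨n, by simp, rfl⟩)
  have hxB : ∀ f ∈ crd n, f ∈ B := by
    intro f hf
    refine hcr f ?_
    rw [crd, List.mem_map] at hf ⊢
    obtain ⟨i, hi, rfl⟩ := hf
    exact ⟨i, by rw [List.mem_range] at hi ⊢; omega, rfl⟩
  -- constants
  have k1 := (tws_cost (X := List ℝ) (d := True) h1 m).trans
    ((dexp_cost (X := List ℝ) (d := True) h1 J).mono Set.subset_union_left)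
  set P : List ℝ → ℝ := 2 ^ 2 ^ J with hPdef
  set B1 : Set (List ℝ → ℝ) := B ∪ (tws (List ℝ) m ∪ {P}) with hB1
  -- digits
  have k2 := k1.trans (exb_cost (B := B1) (Or.inl h1) K m
    (fun f hf => Or.inr (Or.inl hf)) tt (Or.inl htB))
  set l := (exb (sbF K) m tt).1 with hl
  set r := (exb (sbF K) m tt).2 with hr
  set B2 : Set (List ℝ → ℝ) := B ∪ (tws (List ℝ) m ∪ {P} ∪ ({f | f ∈ l} ∪ {r})) with hB2
  -- circuit
  have k3 := k2.trans (runG_cost (B := B2) (Or.inl h1) (Or.inl h0) K S C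
    (by rw [hS]; exact hC2) (crd n ++ l) (by
      intro f hf
      rcases List.mem_append.1 hf with h | h
      · exact Or.inl (hxB f h)
      · exact Or.inr (Or.inr (Or.inl h))))
  set R := runG (sbF K) C (crd n ++ l) with hR
  set B3 : Set (List ℝ → ℝ) := B ∪ (tws (List ℝ) m ∪ {P} ∪ ({f | f ∈ l} ∪ {r}) ∪
    {f | f ∈ R}) with hB3
  -- penalty
  have k4 := k3.trans (penl_cost (B := B3) (Or.inl h1) (Or.inl h0) l
    (fun f hf => Or.inr (Or.inl (Or.inr (Or.inl hf)))))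
  set B4 : Set (List ℝ → ℝ) := B ∪ (tws (List ℝ) m ∪ {P} ∪ ({f | f ∈ l} ∪ {r}) ∪
    {f | f ∈ R} ∪ {penl l}) with hB4
  have m1 : CS True B4 0 {(1 : List ℝ → ℝ)} := CS.mem (Or.inl h1)
  have m2 : CS True B4 1 {(1 + 1 : List ℝ → ℝ)} := CS.add m1 m1
  have m4 : CS True B4 3 {((1 + 1) * (1 + 1) : List ℝ → ℝ)} := CS.mul m2 m2
  have m8 : CS True B4 5 {((1 + 1) * ((1 + 1) * (1 + 1)) : List ℝ → ℝ)} := CS.mul m2 m4
  have mR : CS True B4 0 {R.getLastD 0} := by
    refine CS.mem ?_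
    by_cases hne : R = []
    · rw [hne]; exact Or.inl h0
    · obtain ⟨l', f, h⟩ := (List.eq_nil_or_concat R).resolve_left hne
      refine Or.inr (Or.inl (Or.inr ?_))
      show R.getLastD 0 ∈ R
      rw [h]; simp
  have mP : CS True B4 0 {P} := CS.mem (Or.inr (Or.inl (Or.inl (Or.inl (Or.inr rfl)))))
  have mr : CS True B4 0 {r} := CS.mem (Or.inr (Or.inl (Or.inl (Or.inr (Or.inr rfl)))))
  have mp : CS True B4 0 {penl l} := CS.mem (Or.inr (Or.inr rfl))
  have m9 := CS.sb (CS.mul m4 (CS.sb (CS.mul m2 mR) m1))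
    (CS.add (CS.mul mP mp) (CS.mul (CS.mul m8 mr) (CS.mul m8 mr)))
  have k5 := k4.trans m9
  obtain ⟨p, hpv, hplen, hp⟩ := to_prog b (by simp [hb]) (k5.sub Set.subset_union_right)
  have hblen : b.length = 1 + (n + 1) := by rw [hb]; simp [crd]; omega
  have hval : ∀ x : List Bool, x.length = n → ∀ t : ℝ, ∃ D : ℝ, 1 ≤ D ∧
      p.val ((1 : ℝ) :: (x.map bit ++ [t])) = gval K J m C (x.map bit) t * D := by
    intro x hx t
    obtain ⟨D, hD, hv⟩ := hp (x.map bit ++ [t])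
    refine ⟨D, hD, ?_⟩
    have hlen : ((x.map bit : List ℝ) ++ [t]).length = n + 1 := by simp [hx]
    have hbw : (b.map fun g => g (x.map bit ++ [t])) = (1 : ℝ) :: (x.map bit ++ [t]) := by
      rw [hb, List.map_cons, crd_eval _ _ hlen.ge, List.take_of_length_le hlen.le]
      rfl
    rw [hbw] at hv
    rw [hv]
    have e0 : tt (x.map bit ++ [t]) = t := by
      rw [htt]
      simp only [List.getD_eq_getElem?_getD]
      rw [List.getElem?_append_right (by simp [hx])]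
      simp [hx]
    have e1 : (exb (sb K) m t) = (l.map (ev (x.map bit ++ [t])), r (x.map bit ++ [t])) := by
      have := exb_map (ev (x.map bit ++ [t])) (σ := sbF K) (τ := sb K) (fun _ => rfl) m tt
      rw [ev_apply, e0] at this
      rw [this]; rfl
    have e2 : (crd n).map (ev (x.map bit ++ [t])) = x.map bit := by
      have := crd_eval (x.map bit ++ [t]) n (by simp [hx])
      rw [show (crd n).map (ev (x.map bit ++ [t])) = (crd n).map (fun f => f (x.map bit ++ [t]))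
        from rfl, this, List.take_append_of_le_length (by simp [hx]),
        List.take_of_length_le (by simp [hx])]
    have e3 : R.getLastD 0 (x.map bit ++ [t]) =
        (runG (sb K) C (x.map bit ++ l.map (ev (x.map bit ++ [t])))).getLastD 0 := by
      have h := runG_ev K C (crd n ++ l) (x.map bit ++ [t])
      rw [List.map_append, e2] at h
      rw [h, getLastD_map']
      rfl
    have e4 : penl l (x.map bit ++ [t]) = penl (l.map (ev (x.map bit ++ [t]))) := by
      rw [penl_map]; rfl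
    rw [gval, e1]
    simp only
    rw [← e3, ← e4]
    simp only [Pi.add_apply, Pi.one_apply, Pi.sub_apply, Pi.mul_apply, hPdef, Pi.pow_apply]
    have e5 : (2 : List ℝ → ℝ) (x.map bit ++ [t]) = 2 := rfl
    rw [e5]
    ring
  refine ⟨p, hblen ▸ hpv, ?_, ?_⟩
  · refine hplen.trans ?_
    rw [hK, hJ, hL, gcost]
    rw [← hS] at hC1 ⊢
    have hT : C.length * (30 * (S + 1) ^ 3 + 102 * (30 * (S + 1) ^ 3 + m + 6) + 10) ≤
        (n + m + S + 1) * (30 * (n + m + S + 1) ^ 3 + 102 * (30 * (n + m + S + 1) ^ 3 +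
          (n + m + S + 1) + 6) + 10) := by
      gcongr <;> omega
    have hT2 : m * (102 * (30 * (S + 1) ^ 3 + m + 6) + 13) ≤
        (n + m + S + 1) * (102 * (30 * (n + m + S + 1) ^ 3 +
          (n + m + S + 1) + 6) + 13) := by
      gcongr <;> omega
    have hT3 : (S + 1) ^ 3 ≤ (n + m + S + 1) ^ 3 := by gcongr; omega
    have hll : l.length = m := by rw [hl]; exact exb_length _ _ _
    rw [hll]
    obtain ⟨T, hTT⟩ : ∃ T, T = n + m + S + 1 := ⟨_, rfl⟩
    rw [← hTT] at hT hT2 hT3 ⊢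
    have hT1 : 1 ≤ T := by omega
    have hmT : m ≤ T := by omega
    have e4 : T ^ 4 = T * T ^ 3 := by ring
    have e5 : T ≤ T * T ^ 3 := Nat.le_mul_of_pos_right _ (by positivity)
    have e5' : T ^ 3 ≤ T * T ^ 3 := Nat.le_mul_of_pos_left _ (by omega)
    have e8 : T * T ≤ T * T ^ 3 := by
      refine Nat.mul_le_mul_left _ ?_
      calc T = T ^ 1 := (pow_one T).symm
        _ ≤ T ^ 3 := Nat.pow_le_pow_right hT1 (by norm_num)
    have e6 : T * (30 * T ^ 3 + 102 * (30 * T ^ 3 + T + 6) + 10) =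
      3090 * (T * T ^ 3) + 102 * (T * T) + 622 * T := by ring
    have e7 : T * (102 * (30 * T ^ 3 + T + 6) + 13) =
      3060 * (T * T ^ 3) + 102 * (T * T) + 625 * T := by ring
    rw [e6] at hT
    rw [e7] at hT2
    rw [e4]
    have e9 : 1 ≤ T * T ^ 3 := hT1.trans e5
    omega
  · intro x hx
    refine ⟨?_, ?_⟩
    · intro y hy hacc t ht
      obtain ⟨D, hD, hv⟩ := hval x hx t
      have := gval_pos hJ hK C hgL x y hy hacc t ht
      rw [hv]
      nlinarith
    · intro t ht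
      obtain ⟨D, hD, hv⟩ := hval x hx t
      rw [hv] at ht
      refine gval_neg hJ hK C hgL x t ?_
      by_contra hcon
      push Not at hcon
      nlinarith

end Pool.Agent.SLPQ
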