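import Pool.Agent.Lib_helper53.SLPQ.Tri
import Pool.Agent.Lib_helper53.SLPQ.Gone

/-!
# Triangular systems of quadratic equations: one inequality with constructible solutions
-/

namespace Pool.Agent.SLPQ

theorem getD_mem0 {X : Type*} {B : Set (X → ℝ)} (h0 : (0 : X → ℝ) ∈ B) {u : List (X → ℝ)}
    (hu : ∀ f ∈ u, f ∈ B) (i : ℕ) : u.getD i 0 ∈ B := by
  rw [List.getD_eq_getElem?_getD]
  rcases h : u[i]? with _ | a
  · simpa [h] using h0
  · simpa [h] using hu a (List.mem_of_getElem? h)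

theorem prog_cost {X : Type*} {d : Prop} (p : SLP) : ∀ {B : Set (X → ℝ)} (_ : (0 : X → ℝ) ∈ B)
    (u : List (X → ℝ)) (_ : ∀ f ∈ u, f ∈ B), CS d B p.length {f | f ∈ SLP.run p u} := by
  induction p with
  | nil => intro B h0 u hu; exact CS.zero hu
  | cons c p ih =>
    intro B h0 u hu
    obtain ⟨o, i, j⟩ := c
    have c1 : CS d B 1 {fun x => o.app ((u.getD i 0) x) ((u.getD j 0) x)} :=
      CS.op1 o (getD_mem0 h0 hu i) (getD_mem0 h0 hu j)
    have he : (fun x => o.app ((u.getD i 0) x) ((u.getD j 0) x)) =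
        o.app (u.getD i 0) (u.getD j 0) := by cases o <;> rfl
    rw [he] at c1
    have c2 := c1.trans (ih (B := B ∪ {o.app (u.getD i 0) (u.getD j 0)}) (Or.inl h0)
      (u ++ [o.app (u.getD i 0) (u.getD j 0)]) (by
        intro f hf
        rcases List.mem_append.1 hf with h | h
        · exact Or.inl (hu f h)
        · exact Or.inr (by simpa using h)))
    rw [SLP.run]
    exact (c2.sub Set.subset_union_right).le (by rw [List.length_cons]; omega)

theorem val_cost {X : Type*} {d : Prop} (p : SLP) {B : Set (X → ℝ)} (h0 : (0 : X → ℝ) ∈ B)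
    (u : List (X → ℝ)) (hu : ∀ f ∈ u, f ∈ B) : CS d B p.length {SLP.val p u} := by
  rw [SLP.val]
  by_cases hne : SLP.run p u = []
  · rw [hne]; exact (CS.mem h0).le (Nat.zero_le _)
  · refine (prog_cost p h0 u hu).sub ?_
    intro f hf
    rw [Set.mem_singleton_iff] at hf
    subst hf
    obtain ⟨l', f, h⟩ := (List.eq_nil_or_concat (SLP.run p u)).resolve_left hne
    show (SLP.run p u).getLastD 0 ∈ SLP.run p u
    rw [h]; simp

/-- The sum of the squares of the errors. -/
noncomputable def tpen (n : ℕ) (q : ℕ → SLP) : ℕ → List ℝ → ℝ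
  | 0 => 0
  | k + 1 => tpen n q k + ((fun w => w.getD (n + k) 0) * (fun w => w.getD (n + k) 0) -
      SLP.val (q k) (1 :: crd (n + k))) * ((fun w => w.getD (n + k) 0) *
        (fun w => w.getD (n + k) 0) - SLP.val (q k) (1 :: crd (n + k)))

theorem tpen_cost {n : ℕ} {q : ℕ → SLP} {s : ℕ} (k : ℕ) (hq : ∀ i < k, (q i).length ≤ s) :
    ∀ {B : Set (List ℝ → ℝ)} (_ : (0 : List ℝ → ℝ) ∈ B) (_ : (1 : List ℝ → ℝ) ∈ B)
      (_ : ∀ f ∈ crd (n + k), f ∈ B), CS True B (k * (s + 5)) {tpen n q k} := by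
  induction k with
  | zero => intro B h0 h1 hc; exact (CS.mem h0).le (Nat.zero_le _)
  | succ k ih =>
    intro B h0 h1 hc
    have hc' : ∀ f ∈ crd (n + k), f ∈ B := by
      intro f hf
      refine hc f ?_
      rw [crd, List.mem_map] at hf ⊢
      obtain ⟨i, hi, rfl⟩ := hf
      exact ⟨i, by rw [List.mem_range] at hi ⊢; omega, rfl⟩
    have hz : (fun w : List ℝ => w.getD (n + k) 0) ∈ B := by
      refine hc _ ?_
      rw [crd, List.mem_map]
      exact ⟨n + k, by simp, rfl⟩
    have c1 := ih (fun i hi => hq i (by omega)) h0 h1 hc'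
    have c2 : CS True (B ∪ {tpen n q k}) (q k).length {SLP.val (q k) (1 :: crd (n + k))} :=
      val_cost (q k) (Or.inl h0) (1 :: crd (n + k)) (by
        intro f hf
        rcases List.mem_cons.1 hf with rfl | h
        · exact Or.inl h1
        · exact Or.inl (hc' f h))
    have c3 := c1.trans c2
    set Q := SLP.val (q k) (1 :: crd (n + k)) with hQ
    have mz : CS True (B ∪ ({tpen n q k} ∪ {Q})) 0 {fun w : List ℝ => w.getD (n + k) 0} :=
      CS.mem (Or.inl hz)
    have c4 : CS True (B ∪ ({tpen n q k} ∪ {Q})) 2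
        {(fun w : List ℝ => w.getD (n + k) 0) * (fun w => w.getD (n + k) 0) - Q} :=
      CS.sb (CS.mul mz mz) (CS.mem (Or.inr (Or.inr rfl)))
    set E := (fun w : List ℝ => w.getD (n + k) 0) * (fun w => w.getD (n + k) 0) - Q with hE
    have c5 : CS True ((B ∪ ({tpen n q k} ∪ {Q})) ∪ {E}) 2 {tpen n q k + E * E} :=
      CS.add (CS.mem (Or.inl (Or.inr (Or.inl rfl))))
        (CS.mul (CS.mem (Or.inr rfl)) (CS.mem (Or.inr rfl)))
    have c6 := c3.trans (c4.trans c5)
    refine (c6.sub ?_).le ?_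
    · intro f hf
      exact Or.inr (Or.inr hf)
    · have := hq k (by omega)
      rw [add_mul k 1, one_mul]
      omega

theorem crd_ini (x : List Bool) (z : ℕ → ℝ) {i k : ℕ} (h : i ≤ k) :
    ((1 : List ℝ → ℝ) :: crd (x.length + i)).map (ev (x.map bit ++ (List.range k).map z)) =
      ini x z i := by
  rw [List.map_cons, map_one, ini]
  congr 1
  have := crd_eval (x.map bit ++ (List.range k).map z) (x.length + i) (by simp [h])
  rw [show (crd (x.length + i)).map (ev (x.map bit ++ (List.range k).map z)) =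
    (crd (x.length + i)).map (fun f => f (x.map bit ++ (List.range k).map z)) from rfl, this]
  rw [List.take_append, List.take_of_length_le (by simp)]
  congr 1
  rw [← List.map_take, List.take_range]
  simp [h]

theorem tpen_ev (x : List Bool) (z : ℕ → ℝ) (q : ℕ → SLP) {i k : ℕ} (h : i ≤ k) :
    tpen x.length q i (x.map bit ++ (List.range k).map z) =
      ∑ j ∈ Finset.range i, (z j ^ 2 - (q j).val (ini x z j)) ^ 2 := by
  induction i with
  | zero => rfl
  | succ i ih =>
    rw [Finset.sum_range_succ, ← ih (by omega), tpen]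
    have e1 : (x.map bit ++ (List.range k).map z).getD (x.length + i) 0 = z i := by
      simp only [List.getD_eq_getElem?_getD]
      rw [List.getElem?_append_right (by simp)]
      simp [show i < k by omega]
    have e2 : SLP.val (q i) (1 :: crd (x.length + i)) (x.map bit ++ (List.range k).map z) =
        (q i).val (ini x z i) := by
      have := val_map (ev (x.map bit ++ (List.range k).map z)) (q i) (1 :: crd (x.length + i))
      rw [crd_ini x z (show i ≤ k by omega)] at this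
      rw [this]; rfl
    simp only [Pi.add_apply, Pi.mul_apply, Pi.sub_apply]
    rw [e1, e2]
    ring

/-- The value of the test. -/
noncomputable def tval (M k : ℕ) (v P : ℝ) : ℝ :=
  2 ^ 2 ^ M * ((v + v) / (1 + v * v)) - 1 - 2 ^ 2 ^ M * 2 ^ 2 ^ (M + 5 + 2 * k) * P

theorem tval_pos {M k : ℕ} {v B : ℝ} (hB : 1 ≤ B) (hBM : B ^ 2 ≤ 2 ^ 2 ^ M) (h2 : 2 ≤ B)
    (hv1 : B⁻¹ ≤ v) (hv2 : v ≤ B) : 0 < tval M k v 0 := by
  have hB0 : 0 < B := by linarith
  have hv0 : 0 < v := lt_of_lt_of_le (inv_pos.2 hB0) hv1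
  have e1 : B⁻¹ ≤ (v + v) / (1 + v * v) := by
    rw [le_div_iff₀ (by positivity)]
    have h3 : B⁻¹ * v ≤ 1 := by
      rw [inv_mul_le_iff₀ hB0, mul_one]; exact hv2
    nlinarith
  have e2 : B ≤ 2 ^ 2 ^ M * ((v + v) / (1 + v * v)) := by
    calc B = B ^ 2 * B⁻¹ := by field_simp
      _ ≤ 2 ^ 2 ^ M * ((v + v) / (1 + v * v)) := by gcongr
  rw [tval, mul_zero, sub_zero]
  linarith

theorem tval_neg {M k : ℕ} {v P : ℝ} (hP : 0 ≤ P) (h : 0 < tval M k v P) :
    1 / (2 * 2 ^ 2 ^ M) < v ∧ P ≤ er M (k + 1) ^ 2 := by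
  set Θ : ℝ := 2 ^ 2 ^ M with hΘ
  have hΘ2 := two_le_dexp M
  rw [← hΘ] at hΘ2
  have hE0 : (0:ℝ) < 2 ^ 2 ^ (M + 5 + 2 * k) := by positivity
  rw [tval, ← hΘ] at h
  have hd : 0 < 1 + v * v := by nlinarith [mul_self_nonneg v]
  have e1 : (v + v) / (1 + v * v) ≤ 1 := by
    rw [div_le_one hd]; nlinarith [sq_nonneg (v - 1)]
  have e3 : 0 ≤ Θ * 2 ^ 2 ^ (M + 5 + 2 * k) * P := by positivity
  have e4 : 1 < Θ * ((v + v) / (1 + v * v)) := by linarith
  have hv : 0 < v := by
    by_contra hcon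
    push Not at hcon
    have : (v + v) / (1 + v * v) ≤ 0 := div_nonpos_of_nonpos_of_nonneg (by linarith) hd.le
    nlinarith
  constructor
  · have e5 : (v + v) / (1 + v * v) ≤ v + v := div_le_self (by linarith) (by nlinarith)
    rw [div_lt_iff₀ (by positivity)]
    have : Θ * ((v + v) / (1 + v * v)) ≤ Θ * (v + v) := by gcongr
    linarith
  · have e5 : Θ * ((v + v) / (1 + v * v)) ≤ Θ * 1 := by gcongr
    have e6 : Θ * (2 ^ 2 ^ (M + 5 + 2 * k) * P) ≤ Θ * 1 := by linarith
    have e7 : 2 ^ 2 ^ (M + 5 + 2 * k) * P ≤ 1 := le_of_mul_le_mul_left e6 (by linarith)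
    rw [er, inv_pow, ← dexp_succ, show M + 2 + 2 * (k + 1) + 1 = M + 5 + 2 * k by ring,
      ← one_div, le_div_iff₀ hE0]
    linarith

end Pool.Agent.SLPQ
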