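import Pool.Agent.Lib_helper53.SLPQ.One

/-!
# Forward direction: one query, one real variable
-/

namespace Pool.Agent.SLPQ

theorem run_map {R S : Type*} [Ring R] [Ring S] (φ : R →+* S) (p : SLP) (a : List R) :
    SLP.run p (a.map φ) = (SLP.run p a).map φ := by
  induction p generalizing a with
  | nil => rfl
  | cons c p ih =>
    obtain ⟨o, i, j⟩ := c
    have hg : ∀ k, (a.map φ).getD k 0 = φ (a.getD k 0) := by
      intro k
      conv_lhs => rw [← map_zero φ]
      rw [List.getD_map]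
    have ho : o.app ((a.map φ).getD i 0) ((a.map φ).getD j 0) =
        φ (o.app (a.getD i 0) (a.getD j 0)) := by
      rw [hg, hg]
      cases o
      · rw [Op.app, Op.app, map_add]
      · rw [Op.app, Op.app, map_sub]
      · rw [Op.app, Op.app, map_mul]
    rw [SLP.run, SLP.run, ho, ← ih]
    simp

theorem val_map {R S : Type*} [Ring R] [Ring S] (φ : R →+* S) (p : SLP) (a : List R) :
    SLP.val p (a.map φ) = φ (SLP.val p a) := by
  rw [SLP.val, SLP.val, run_map]
  conv_lhs => rw [← map_zero φ]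
  rw [List.getLastD_map]

theorem val_int (p : SLP) (w : List Bool) :
    SLP.val p ((1 : ℝ) :: w.map bit) = ((SLP.val p ((1 : ℤ) :: w.map bit) : ℤ) : ℝ) := by
  have h : ((1 : ℝ) :: w.map bit) = (((1 : ℤ) :: w.map bit)).map (Int.castRingHom ℝ) := by
    rw [List.map_cons, List.map_map, map_one]
    congr 1
    refine List.map_congr_left fun c _ => ?_
    cases c <;> simp [bit]
  rw [h, val_map]
  rfl

/-- Conversion of a computed function to a program for a positive multiple. -/
theorem to_prog {X : Type*} (b : List (X → ℝ)) (h1 : (1 : X → ℝ) ∈ b) {n : ℕ} {f : X → ℝ}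
    (h : CS True ({f | f ∈ b} ∪ {0}) n {f}) :
    ∃ p : SLP, p.Valid b.length ∧ p.length ≤ 4 * (n + 1) + 1 ∧
      ∀ x, ∃ D : ℝ, 1 ≤ D ∧ p.val (b.map fun g => g x) = f x * D := by
  have h1' : (1 : X → ℝ) ∈ {f | f ∈ b} := h1
  have c0 : CS True {f | f ∈ b} 1 {(0 : X → ℝ)} := by
    refine (CS.sb (CS.mem (d := True) h1') (CS.mem h1')).sub ?_
    intro g hg
    rw [Set.mem_singleton_iff] at hg ⊢
    rw [hg, sub_self]
  have c1 := c0.trans h
  obtain ⟨l, hl, hlen, hmem⟩ := c1
  have hf := hmem f (Or.inr rfl)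
  obtain ⟨l', hl', hlen', hND⟩ := hl.elim h1'
  obtain ⟨N, D, hN, hD, hp, he⟩ := hND f hf
  have hl2 : Cp False {f | f ∈ b} ((fun x => Op.mul.app (N x) ((1 : X → ℝ) x)) :: l') :=
    .op .mul hl' hN (Or.inl h1')
  obtain ⟨p, hplen, hpv, hprun⟩ := hl2.prog
  refine ⟨p, hpv, ?_, fun x => ⟨D x, hp x, ?_⟩⟩
  · rw [hplen, List.length_cons]; omega
  · rw [SLP.val, hprun, he, div_mul_cancel₀ _ (lt_of_lt_of_le one_pos (hp x)).ne']
    simp [Op.app]

/-- The coordinate functions. -/
def crd (N : ℕ) : List (List ℝ → ℝ) := (List.range N).map fun i w => w.getD i 0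

theorem crd_eval (w : List ℝ) (N : ℕ) (hN : N ≤ w.length) :
    (crd N).map (fun f => f w) = w.take N := by
  rw [crd, List.map_map]
  refine List.ext_getElem (by simp [hN]) ?_
  intro i h1 h2
  simp only [List.getElem_map, List.getElem_range, Function.comp, List.getElem_take]
  rw [List.getD_eq_getElem?_getD, List.getElem?_eq_getElem (by simp at h1; omega)]
  rfl

theorem out_last (C : Circ) (w : List Bool) : C.out w = (C.run w).getLastD false := rfl

/-! ### numbers -/

theorem num1 (L m : ℕ) : 2 ^ (L + 2) ≤ 3 ^ (L + m + 6) :=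
  (Nat.pow_le_pow_right (by norm_num) (by omega)).trans (Nat.pow_le_pow_left (by norm_num) _)

theorem num2 (L m : ℕ) : (2:ℝ) ^ 2 ^ (L + m + 4) * 2 ^ (m + 6) ≤ 2 ^ 3 ^ (L + m + 6) := by
  rw [← pow_add]
  refine pow_le_pow_right₀ (by norm_num) ?_
  have h1 : m + 5 ≤ 2 ^ (L + m + 4) := by
    have := Nat.lt_two_pow_self (n := L + m + 4)
    omega
  have h2 : 2 ^ (L + m + 4) ≤ 3 ^ (L + m + 4) := Nat.pow_le_pow_left (by norm_num) _
  have h3 : 3 ^ (L + m + 6) = 9 * 3 ^ (L + m + 4) := by rw [pow_succ, pow_succ]; ring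
  omega

theorem num3 (L m : ℕ) : 16 * (2:ℝ) ^ 2 ^ (L + 2) ≤ 2 ^ 2 ^ (L + m + 4) := by
  have : (16:ℝ) = 2 ^ 4 := by norm_num
  rw [this, ← pow_add]
  refine pow_le_pow_right₀ (by norm_num) ?_
  have h1 : 2 ^ (L + 4) ≤ 2 ^ (L + m + 4) := Nat.pow_le_pow_right (by norm_num) (by omega)
  have h2 : 2 ^ (L + 4) = 4 * 2 ^ (L + 2) := by rw [pow_succ, pow_succ]; ring
  have h3 : 2 ≤ 2 ^ (L + 2) := by
    calc 2 = 2 ^ 1 := by norm_num
      _ ≤ 2 ^ (L + 2) := Nat.pow_le_pow_right (by norm_num) (by omega)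
  omega

theorem num5 (L m : ℕ) : (2:ℝ) ^ (m + 7) ≤ 2 ^ 2 ^ (L + m + 4) := by
  refine pow_le_pow_right₀ (by norm_num) ?_
  have h1 : 2 ^ (m + 4) ≤ 2 ^ (L + m + 4) := Nat.pow_le_pow_right (by norm_num) (by omega)
  have h2 : 2 ^ (m + 4) = 16 * 2 ^ m := by rw [pow_add]; ring
  have h3 := Nat.lt_two_pow_self (n := m)
  omega

/-! ### the deterministic statement -/

theorem near_self {ε : ℝ} (hε : 0 ≤ ε) (b : List Bool) : Near ε (b.map bit) b := by
  induction b with
  | nil => exact .nil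
  | cons c b ih => exact List.Forall₂.cons (by simpa using hε) ih

/-- **One query.** A circuit with PosSLP gates is one positivity test. -/
theorem one_query (N : ℕ) (C : Circ) : ∃ F : SLP, F.Valid (1 + N) ∧
    F.length ≤ 100000 * (N + C.size + 1) ^ 4 ∧ ∀ w : List Bool, w.length = N →
      (C.out w = true ↔ 0 < F.val ((1 : ℤ) :: w.map bit)) := by
  obtain ⟨hC1, hC2⟩ := circ_length_le C
  obtain ⟨S, hS⟩ : ∃ S, S = C.size := ⟨_, rfl⟩
  obtain ⟨L, hL⟩ : ∃ L, L = gcost S := ⟨_, rfl⟩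
  obtain ⟨K, hK⟩ : ∃ K, K = L + 0 + 6 := ⟨_, rfl⟩
  have hgL : ∀ g ∈ C, gcost g.size ≤ L := by
    intro g hg
    rw [hL, hS, gcost, gcost]
    have := hC2 g hg
    gcongr
  set b : List (List ℝ → ℝ) := 1 :: crd N with hb
  have h1 : (1 : List ℝ → ℝ) ∈ ({f | f ∈ b} ∪ {0} : Set (List ℝ → ℝ)) := Or.inl (by simp [hb])
  have h0 : (0 : List ℝ → ℝ) ∈ ({f | f ∈ b} ∪ {0} : Set (List ℝ → ℝ)) := Or.inr rfl
  have c1 := runG_cost h1 h0 K S C (by rw [hS]; exact hC2) (crd N)
    (fun f hf => Or.inl (by rw [hb]; exact List.mem_cons_of_mem _ hf))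
  set R := runG (sbF K) C (crd N) with hR
  have c2 : CS True ({f | f ∈ b} ∪ {0}) (C.length * (gcost S + 102 * K + 10)) {R.getLastD 0} := by
    by_cases hne : R = []
    · rw [hne]
      exact (CS.mem h0).le (Nat.zero_le _)
    · refine c1.sub ?_
      intro f hf
      rw [Set.mem_singleton_iff] at hf
      subst hf
      obtain ⟨l, f, h⟩ := (List.eq_nil_or_concat R).resolve_left hne
      show R.getLastD 0 ∈ R
      rw [h]
      simp
  have hone : CS True ({f | f ∈ b} ∪ {0}) 0 {(1 : List ℝ → ℝ)} := CS.mem h1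
  have c3 := c2.trans (CS.sb (CS.add (CS.mem (d := True) (B := ({f | f ∈ b} ∪ {0}) ∪
    {R.getLastD 0}) (g := R.getLastD 0) (Or.inr rfl)) (CS.mem (Or.inr rfl)))
    (CS.mem (g := (1 : List ℝ → ℝ)) (Or.inl h1)))
  obtain ⟨p, hpv, hplen, hp⟩ := to_prog b (by simp [hb]) (c3.sub Set.subset_union_right)
  have hblen : b.length = 1 + N := by rw [hb]; simp [crd]; omega
  refine ⟨p, hblen ▸ hpv, ?_, ?_⟩
  · refine hplen.trans ?_
    rw [hK, hL, gcost] at *
    rw [← hS] at hC1 ⊢
    have hT : C.length * (30 * (S + 1) ^ 3 + 102 * (30 * (S + 1) ^ 3 + 0 + 6) + 10) ≤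
        (N + S + 1) * (30 * (N + S + 1) ^ 3 + 102 * (30 * (N + S + 1) ^ 3 + 0 + 6) + 10) := by
      gcongr <;> omega
    obtain ⟨T, hTT⟩ : ∃ T, T = N + S + 1 := ⟨_, rfl⟩
    rw [← hTT] at hT ⊢
    have hT1 : 1 ≤ T := by omega
    have e4 : T ^ 4 = T * T ^ 3 := by ring
    have e5 : T ≤ T * T ^ 3 := Nat.le_mul_of_pos_right _ (by positivity)
    have e6 : T * (30 * T ^ 3 + 102 * (30 * T ^ 3 + 0 + 6) + 10) =
      3090 * (T * T ^ 3) + 622 * T := by ring
    rw [e6] at hT
    rw [e4]
    have e7 : 1 ≤ T * T ^ 3 := hT1.trans e5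
    omega
  · intro w hw
    obtain ⟨D, hD, hval⟩ := hp (w.map bit)
    have hbw : (b.map fun g => g (w.map bit)) = (1 : ℝ) :: w.map bit := by
      rw [hb, List.map_cons, crd_eval _ _ (by rw [List.length_map, hw])]
      rw [List.take_of_length_le (by rw [List.length_map, hw])]
      rfl
    rw [hbw, val_int] at hval
    have hRw : R.getLastD 0 (w.map bit) = (runG (sb K) C (w.map bit)).getLastD 0 := by
      have e1 : w.map bit = (crd N).map (ev (w.map bit)) := by
        have := crd_eval (w.map bit) N (by rw [List.length_map, hw])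
        rw [List.take_of_length_le (by rw [List.length_map, hw])] at this
        exact this.symm
      have e2 := runG_ev K C (crd N) (w.map bit)
      rw [← e1] at e2
      rw [e2, getLastD_map']
      rfl
    have hnear := circ_near (ε := ((2:ℝ) ^ 3 ^ K)⁻¹) (L := L) (K := K) (by positivity) ?_ ?_
      le_rfl C hgL (near_self (by positivity) w)
    · have hlast := near_last (by positivity) hnear
      rw [← out_last, ← hRw, abs_le] at hlast
      have hsmall : ((2:ℝ) ^ 3 ^ K)⁻¹ ≤ 1 / 4 := by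
        rw [inv_eq_one_div]
        refine one_div_le_one_div_of_le (by norm_num) ?_
        have h1 := num2 L 0
        have h2 := two_le_dexp (L + 0 + 4)
        rw [← hK] at h1
        norm_num at h1 h2
        linarith
      have hfv : ((fun x => Op.sub.app ((R.getLastD 0 + R.getLastD 0) x) ((1 : List ℝ → ℝ) x)) :
          List ℝ → ℝ) (w.map bit) = 2 * R.getLastD 0 (w.map bit) - 1 := by
        simp only [Op.app, Pi.add_apply, Pi.one_apply]; ring
      have hv2 : ((SLP.val p ((1 : ℤ) :: w.map bit) : ℤ) : ℝ) =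
          (2 * R.getLastD 0 (w.map bit) - 1) * D := by
        rw [hval]
        simp only [Pi.add_apply, Pi.one_apply, Pi.sub_apply]; ring
      have hiff : 0 < SLP.val p ((1 : ℤ) :: w.map bit) ↔ 0 < 2 * R.getLastD 0 (w.map bit) - 1 := by
        rw [← Int.cast_pos (R := ℝ), hv2]
        exact mul_pos_iff_of_pos_right (by linarith)
      rw [hiff]
      rcases hb2 : C.out w with _ | _
      · rw [hb2] at hlast
        have : (bit false : ℝ) = 0 := rfl
        rw [this] at hlast
        simp only [Bool.false_eq_true, false_iff, not_lt]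
        linarith [hlast.2]
      · rw [hb2] at hlast
        have : (bit true : ℝ) = 1 := rfl
        rw [this] at hlast
        simp only [true_iff]
        linarith [hlast.1]
    · refine inv_anti₀ (by positivity) (pow_le_pow_right₀ (by norm_num) ?_)
      rw [hK]; exact num1 L 0
    · rw [hK]; exact num1 L 0

end Pool.Agent.SLPQ
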