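import Pool.Agent.Lib_helper53.SLPQ.App
import Pool.Agent.Lib_helper53.SLPQ.Fin

/-!
# Witnesses computed with square roots can be replaced by rational ones
-/

namespace Pool.Agent.SLPQ

theorem Cmpd.mono {q q' : Prop} (hqq : q → q') {s t : ℕ} (hst : s ≤ t) {z : List ℝ}
    (h : Cmpd q s z) : Cmpd q' t z := by
  obtain ⟨l, hl, hs, hz⟩ := h
  refine ⟨l, ?_, hs.trans hst, hz⟩
  clear hz hs
  induction hl with
  | nil => exact .nil
  | op o _ ha hb ih => exact .op o ih ha hb
  | div _ ha hb h0 ih => exact .div ih ha hb h0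
  | sqrt hq _ ha h0 ih => exact .sqrt (hqq hq) ih ha h0

/-! ### a program applied to computed numbers -/

theorem getD_mem1 {l u : List ℝ} (h0 : (0:ℝ) ∈ l) (hu : ∀ a ∈ u, a = 1 ∨ a ∈ l) (i : ℕ) :
    u.getD i 0 = 1 ∨ u.getD i 0 ∈ l := by
  rw [List.getD_eq_getElem?_getD]
  rcases h : u[i]? with _ | f
  · exact Or.inr h0
  · exact hu f (List.mem_of_getElem? h)

theorem Rt.run {q : Prop} (p : SLP) {l : List ℝ} (hl : Rt q l) (h0 : (0:ℝ) ∈ l) (u : List ℝ)
    (hu : ∀ a ∈ u, a = 1 ∨ a ∈ l) : ∃ l', Rt q l' ∧ l'.length ≤ l.length + p.length ∧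
      (0:ℝ) ∈ l' ∧ ∀ a ∈ SLP.run p u, a = 1 ∨ a ∈ l' := by
  induction p generalizing l u with
  | nil => exact ⟨l, hl, by simp, h0, hu⟩
  | cons c p ih =>
    obtain ⟨o, i, j⟩ := c
    rw [SLP.run]
    have hu' : ∀ a ∈ u ++ [o.app (u.getD i 0) (u.getD j 0)],
        a = 1 ∨ a ∈ o.app (u.getD i 0) (u.getD j 0) :: l := by
      intro a ha
      rcases List.mem_append.1 ha with h | h
      · exact mem1_of (hu a h) (fun b hb => List.mem_cons_of_mem _ hb)
      · rw [List.mem_singleton] at h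
        exact Or.inr (by rw [h]; exact List.mem_cons_self)
    obtain ⟨l', h1, h2, h3, h4⟩ := ih (l := o.app (u.getD i 0) (u.getD j 0) :: l)
      (.op o hl (getD_mem1 h0 hu i) (getD_mem1 h0 hu j)) (List.mem_cons_of_mem _ h0)
      (u ++ [o.app (u.getD i 0) (u.getD j 0)]) hu'
    rw [List.length_cons] at h2
    exact ⟨l', h1, by rw [List.length_cons]; omega, h3, h4⟩

/-- Size and distance of two runs. -/
def RR (ε : ℝ) (k : ℕ) (a b : ℝ) : Prop :=
  |a| ≤ 2 ^ 2 ^ k ∧ |b| ≤ 2 ^ 2 ^ k ∧ |a - b| ≤ ε * 2 ^ 2 ^ (k + 1)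

theorem RR.succ {ε : ℝ} (hε : 0 ≤ ε) {k : ℕ} {a b : ℝ} (h : RR ε k a b) : RR ε (k + 1) a b := by
  have h1 : (2:ℝ) ^ 2 ^ k ≤ 2 ^ 2 ^ (k + 1) :=
    pow_le_pow_right₀ (by norm_num) (Nat.pow_le_pow_right (by norm_num) (by omega))
  have h2 : (2:ℝ) ^ 2 ^ (k + 1) ≤ 2 ^ 2 ^ (k + 1 + 1) :=
    pow_le_pow_right₀ (by norm_num) (Nat.pow_le_pow_right (by norm_num) (by omega))
  exact ⟨h.1.trans h1, h.2.1.trans h1, h.2.2.trans (mul_le_mul_of_nonneg_left h2 hε)⟩

theorem run_lip {ε : ℝ} (hε : 0 ≤ ε) (p : SLP) {k : ℕ} {u v : List ℝ}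
    (h : List.Forall₂ (RR ε k) u v) :
    List.Forall₂ (RR ε (k + p.length)) (SLP.run p u) (SLP.run p v) := by
  induction p generalizing k u v with
  | nil => exact h
  | cons c p ih =>
    obtain ⟨o, i, j⟩ := c
    rw [SLP.run, SLP.run, List.length_cons, show k + (p.length + 1) = (k + 1) + p.length by ring]
    refine ih ?_
    have hget : ∀ i, RR ε k (u.getD i 0) (v.getD i 0) := by
      intro i
      have hz : RR ε k 0 0 := by
        refine ⟨by simp, by simp, ?_⟩
        simp only [sub_self, abs_zero]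
        positivity
      clear ih
      induction h generalizing i with
      | nil => simpa using hz
      | cons hab _ ih =>
        cases i with
        | zero => simpa using hab
        | succ i => simpa using ih i
    refine List.rel_append (h.imp fun a b hab => hab.succ hε) (List.Forall₂.cons ?_ .nil)
    have h1 := hget i
    have h2 := hget j
    have hM := two_le_dexp k
    refine ⟨?_, ?_, ?_⟩
    · rw [dexp_succ]; exact op_bound o hM h1.1 h2.1
    · rw [dexp_succ]; exact op_bound o hM h1.2.1 h2.2.1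
    · refine (op_lip o hM h1.1 h2.2.1 h1.2.2 h2.2.2).trans ?_
      rw [dexp_succ (k + 1), dexp_succ k]
      have h3 : 2 * (2:ℝ) ^ 2 ^ k ≤ (2 ^ 2 ^ k) ^ 2 := by nlinarith
      have h4 : 0 ≤ ε * ((2:ℝ) ^ 2 ^ k) ^ 2 := by positivity
      calc 2 * (2:ℝ) ^ 2 ^ k * (ε * (2 ^ 2 ^ k) ^ 2)
          ≤ (2 ^ 2 ^ k) ^ 2 * (ε * (2 ^ 2 ^ k) ^ 2) := mul_le_mul_of_nonneg_right h3 h4
        _ = ε * ((2 ^ 2 ^ k) ^ 2) ^ 2 := by ring

theorem rel_last {ε : ℝ} (hε : 0 ≤ ε) {k : ℕ} {u v : List ℝ} (h : List.Forall₂ (RR ε k) u v) :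
    RR ε k (u.getLastD 0) (v.getLastD 0) := by
  have hz : RR ε k 0 0 := by
    refine ⟨by simp, by simp, ?_⟩
    simp only [sub_self, abs_zero]
    positivity
  generalize (0:ℝ) = y at hz ⊢
  -- two copies of the default value
  have : ∀ y y' : ℝ, RR ε k y y' → RR ε k (u.getLastD y) (v.getLastD y') := by
    induction h with
    | nil => intro y y' h; exact h
    | @cons a c w b hac _ ih =>
      intro y y' _
      rw [List.getLastD_cons, List.getLastD_cons]
      exact ih a c hac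
  exact this y y hz

theorem forall2_exists {P : ℝ → ℝ → Prop} (z : List ℝ) (h : ∀ a ∈ z, ∃ b, P a b) :
    ∃ z', List.Forall₂ P z z' := by
  induction z with
  | nil => exact ⟨[], .nil⟩
  | cons a z ih =>
    obtain ⟨b, hb⟩ := h a (by simp)
    obtain ⟨z', hz'⟩ := ih fun a ha => h a (by simp [ha])
    exact ⟨b :: z', .cons hb hz'⟩

/-- **Square roots are not needed.** -/
theorem sqrt_free (F : SLP) (x : List Bool) {z : List ℝ} {s : ℕ}
    (h : Cmpd True s z) (hpos : 0 < F.val ((1 : ℝ) :: (x.map bit ++ z))) :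
    ∃ z' : List ℝ, z'.length = z.length ∧
      Cmpd False ((s + F.length + 1) * (124 * (s + F.length + 1) + 47)) z' ∧
      0 < F.val ((1 : ℝ) :: (x.map bit ++ z')) := by
  obtain ⟨l, hl, hls, hz⟩ := h
  obtain ⟨S, hS⟩ : ∃ S, S = s + F.length + 1 := ⟨_, rfl⟩
  rw [← hS]
  -- the value is computed with square roots
  have hl0 : Rt True ((0:ℝ) :: l) := by
    have : Rt True (Op.sub.app 1 1 :: l) := .op .sub hl (Or.inl rfl) (Or.inl rfl)
    simpa [Op.app] using this
  obtain ⟨l1, g1, g2, g3, g4⟩ := hl0.run F (by simp) ((1 : ℝ) :: (x.map bit ++ z)) (by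
    intro a ha
    rcases List.mem_cons.1 ha with h | h
    · exact Or.inl h
    · rcases List.mem_append.1 h with h | h
      · obtain ⟨c, -, rfl⟩ := List.mem_map.1 h
        rcases bit_mem c with h | h
        · exact Or.inr (by rw [h]; simp)
        · exact Or.inl h
      · exact mem1_of (hz a h) (by intro a h; simp [h]))
  have hval : F.val ((1 : ℝ) :: (x.map bit ++ z)) = 1 ∨
      F.val ((1 : ℝ) :: (x.map bit ++ z)) ∈ l1 := by
    rw [SLP.val]
    rcases List.eq_nil_or_concat (F.run ((1 : ℝ) :: (x.map bit ++ z))) with h | ⟨w, f, h⟩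
    · rw [h]; exact Or.inr g3
    · rw [h, List.concat_eq_append] at g4 ⊢
      have : (w ++ [f]).getLastD 0 = f := by simp
      rw [this]
      exact g4 f (by simp)
  have hlow := (g1.bds hval).2 hpos.ne'
  rw [abs_of_pos hpos] at hlow
  have hlow2 : (BD S)⁻¹ ≤ F.val ((1 : ℝ) :: (x.map bit ++ z)) := by
    refine (inv_anti₀ (by linarith [BD_ge l1.length]) (BD_mono ?_)).trans hlow
    rw [List.length_cons] at g2
    omega
  -- approximation
  obtain ⟨l', h1, h2, h3⟩ := approx' hl (S := S) (by omega) 0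
  set ε : ℝ := ((2:ℝ) ^ 2 ^ (21 * S + 8 + 0))⁻¹ with hε
  have hε0 : 0 ≤ ε := by positivity
  obtain ⟨z', hz'⟩ := forall2_exists (P := fun a b => (b = 1 ∨ b ∈ l') ∧ |a - b| ≤ ε ∧
    (a = 1 ∨ a ∈ l)) z (fun a ha => by
      obtain ⟨b, hb, hd⟩ := h3 a (hz a ha)
      exact ⟨b, hb, hd, hz a ha⟩)
  refine ⟨z', hz'.length_eq.symm, ⟨l', h1, h2.trans (by rw [mul_zero, add_zero]), ?_⟩, ?_⟩
  · intro b hb
    obtain ⟨i, hi, rfl⟩ := List.getElem_of_mem hb
    have := List.forall₂_iff_get.1 hz'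
    have h5 := this.2 i (by rw [this.1]; exact hi) hi
    exact h5.1
  · have hB := BD_ge S
    have hBk : BD S + 1 ≤ 2 ^ 2 ^ (20 * S + 5) := by
      rw [show 20 * S + 5 = (20 * S + 4) + 1 by ring, dexp_succ]
      change BD S + 1 ≤ BD S ^ 2
      nlinarith
    have hε1 : ε ≤ 1 := inv_le_one_of_one_le₀ (one_le_pow₀ (by norm_num))
    have hrel : List.Forall₂ (RR ε (20 * S + 5)) ((1 : ℝ) :: (x.map bit ++ z))
        ((1 : ℝ) :: (x.map bit ++ z')) := by
      have h1' : ∀ a : ℝ, |a| ≤ 1 → RR ε (20 * S + 5) a a := by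
        intro a ha
        refine ⟨by linarith, by linarith, ?_⟩
        simp only [sub_self, abs_zero]
        positivity
      refine .cons (h1' 1 (by simp)) (List.rel_append ?_ ?_)
      · rw [List.forall₂_map_left_iff, List.forall₂_map_right_iff, List.forall₂_same]
        intro c _
        refine h1' _ ?_
        rcases bit_mem c with h | h <;> rw [h] <;> norm_num
      · refine hz'.imp ?_
        rintro a b ⟨-, hd, ha⟩
        have h5 := (hl.bds ha).1.trans (BD_mono (s := l.length) (t := S) (by omega))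
        refine ⟨by linarith, ?_, ?_⟩
        · have h6 : |b| ≤ |a| + |a - b| := by
            have := abs_sub_abs_le_abs_sub b a
            rw [abs_sub_comm b a] at this
            linarith
          linarith
        · refine hd.trans ?_
          have : (1:ℝ) ≤ 2 ^ 2 ^ (20 * S + 5 + 1) := one_le_pow₀ (by norm_num)
          nlinarith
    have hlast := rel_last hε0 (run_lip hε0 F hrel)
    have hd := hlast.2.2
    rw [← SLP.val, ← SLP.val] at hd
    have hfin : ε * 2 ^ 2 ^ (20 * S + 5 + F.length + 1) < (BD S)⁻¹ := by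
      have hBpos : 0 < BD S := by linarith
      have e1 : (2:ℝ) ^ 2 ^ (20 * S + 5 + F.length + 1) ≤ 2 ^ 2 ^ (21 * S + 6) :=
        pow_le_pow_right₀ (by norm_num) (Nat.pow_le_pow_right (by norm_num) (by omega))
      have e2 : (2:ℝ) ^ 2 ^ (21 * S + 6) * BD S < 2 ^ 2 ^ (21 * S + 8 + 0) := by
        rw [BD, ← pow_add]
        refine pow_lt_pow_right₀ (by norm_num) ?_
        have f1 : 2 ^ (20 * S + 4) ≤ 2 ^ (21 * S + 6) :=
          Nat.pow_le_pow_right (by norm_num) (by omega)
        have f2 : 2 ^ (21 * S + 8 + 0) = 4 * 2 ^ (21 * S + 6) := by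
          rw [add_zero, show 21 * S + 8 = (21 * S + 6) + 2 by ring, pow_add 2 (21 * S + 6)]
          ring
        have f3 : 0 < 2 ^ (21 * S + 6) := by positivity
        omega
      rw [lt_inv_comm₀ (by positivity) hBpos]
      have e3 : (ε * 2 ^ 2 ^ (20 * S + 5 + F.length + 1))⁻¹ =
          2 ^ 2 ^ (21 * S + 8 + 0) / 2 ^ 2 ^ (20 * S + 5 + F.length + 1) := by
        rw [hε, mul_inv, inv_inv, div_eq_mul_inv]
      rw [e3, lt_div_iff₀ (by positivity)]
      calc BD S * 2 ^ 2 ^ (20 * S + 5 + F.length + 1) ≤ BD S * 2 ^ 2 ^ (21 * S + 6) := by gcongr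
        _ = 2 ^ 2 ^ (21 * S + 6) * BD S := mul_comm _ _
        _ < _ := e2
    rw [abs_le] at hd
    linarith [hd.2]

/-! ### conversion of rational computations to programs -/

theorem run_getD_lt {R : Type*} [Ring R] (p : SLP) (a : List R) {u : ℕ} (hu : u < a.length) :
    (SLP.run p a).getD u 0 = a.getD u 0 := by
  induction p generalizing a with
  | nil => rfl
  | cons c p ih =>
    obtain ⟨o, i, j⟩ := c
    rw [SLP.run, ih _ (by rw [List.length_append]; omega)]
    simp only [List.getD_eq_getElem?_getD, List.getElem?_append_left hu]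

theorem run_last {R : Type*} [Ring R] (o : Op) (i j : ℕ) (a : List R) :
    (SLP.run [(o, i, j)] a).getD a.length 0 = o.app (a.getD i 0) (a.getD j 0) := by
  rw [SLP.run, SLP.run]
  simp

/-- One more instruction. -/
theorem snoc_props (p : SLP) (o : Op) (i j : ℕ) (hp : p.Valid 1) (hi : i < 1 + p.length)
    (hj : j < 1 + p.length) :
    (p ++ [(o, i, j)]).Valid 1 ∧ (p ++ [(o, i, j)]).length = p.length + 1 ∧
    (∀ u < 1 + p.length, (SLP.run (p ++ [(o, i, j)]) ([1] : List ℤ)).getD u 0 =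
      (SLP.run p [1]).getD u 0) ∧
    (SLP.run (p ++ [(o, i, j)]) ([1] : List ℤ)).getD (1 + p.length) 0 =
      o.app ((SLP.run p [1]).getD i 0) ((SLP.run p [1]).getD j 0) := by
  have hlen : (SLP.run p ([1] : List ℤ)).length = 1 + p.length := by rw [run_length]; simp
  refine ⟨(valid_append _ _ _).2 ⟨hp, hi, hj, trivial⟩, by simp, ?_, ?_⟩
  · intro u hu
    rw [run_append]
    exact run_getD_lt _ _ (by rw [hlen]; exact hu)
  · rw [run_append, ← hlen]
    exact run_last o i j _

/-- Rational computations are quotients of entries of a program. -/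
theorem Rt.toSLP {l : List ℝ} (hl : Rt False l) : ∃ q : SLP, q.Valid 1 ∧
    q.length ≤ 4 * l.length ∧ ∀ a, (a = 1 ∨ a ∈ l) → ∃ u < 1 + q.length, ∃ v < 1 + q.length,
      (SLP.run q ([1] : List ℤ)).getD v 0 ≠ 0 ∧
      a = ((SLP.run q ([1] : List ℤ)).getD u 0 : ℝ) / ((SLP.run q ([1] : List ℤ)).getD v 0 : ℝ) := by
  induction hl with
  | nil =>
    refine ⟨[], trivial, by simp, fun a ha => ⟨0, by simp, 0, by simp, ?_, ?_⟩⟩
    · simp [SLP.run]
    · have : a = 1 := by simpa using ha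
      rw [this]; simp [SLP.run]
  | sqrt hq => exact hq.elim
  | @op l o a b hl ha hb ih =>
    obtain ⟨q, hv, hlen, ih⟩ := ih
    obtain ⟨u1, hu1, v1, hv1, hn1, he1⟩ := ih a ha
    obtain ⟨u2, hu2, v2, hv2, hn2, he2⟩ := ih b hb
    cases o with
    | mul =>
      obtain ⟨V1, L1, O1, N1⟩ := snoc_props q .mul u1 u2 hv hu1 hu2
      obtain ⟨V2, L2, O2, N2⟩ := snoc_props (q ++ [(Op.mul, u1, u2)]) .mul v1 v2 V1 (by omega)
        (by omega)
      refine ⟨_, V2, by rw [L2, L1, List.length_cons]; omega, ?_⟩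
      intro c hc
      rcases mem1_cons hc with hc | rfl
      · obtain ⟨u, hu, v, hv', h1, h2⟩ := ih c hc
        refine ⟨u, by omega, v, by omega, ?_, ?_⟩
        · rw [O2 v (by omega), O1 v (by omega)]; exact h1
        · rw [O2 v (by omega), O1 v (by omega), O2 u (by omega), O1 u (by omega)]; exact h2
      · refine ⟨1 + q.length, by omega, 1 + (q ++ [(Op.mul, u1, u2)]).length, by omega, ?_, ?_⟩
        · rw [N2, O1 v1 hv1, O1 v2 hv2]; exact mul_ne_zero hn1 hn2
        · rw [N2, O1 v1 hv1, O1 v2 hv2, O2 _ (by omega), N1, he1, he2]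
          simp only [Op.app]
          push_cast
          rw [div_mul_div_comm]
    | add =>
      obtain ⟨V1, L1, O1, N1⟩ := snoc_props q .mul u1 v2 hv hu1 hv2
      obtain ⟨V2, L2, O2, N2⟩ := snoc_props (q ++ [(Op.mul, u1, v2)]) .mul u2 v1 V1 (by omega)
        (by omega)
      obtain ⟨V3, L3, O3, N3⟩ := snoc_props (q ++ [(Op.mul, u1, v2)] ++ [(Op.mul, u2, v1)]) .add
        (1 + q.length) (1 + (q ++ [(Op.mul, u1, v2)]).length) V2 (by omega) (by omega)
      obtain ⟨V4, L4, O4, N4⟩ := snoc_props (q ++ [(Op.mul, u1, v2)] ++ [(Op.mul, u2, v1)] ++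
        [(Op.add, 1 + q.length, 1 + (q ++ [(Op.mul, u1, v2)]).length)]) .mul v1 v2 V3 (by omega)
        (by omega)
      refine ⟨_, V4, by rw [L4, L3, L2, L1, List.length_cons]; omega, ?_⟩
      intro c hc
      rcases mem1_cons hc with hc | rfl
      · obtain ⟨u, hu, v, hv', h1, h2⟩ := ih c hc
        refine ⟨u, by omega, v, by omega, ?_, ?_⟩
        · rw [O4 v (by omega), O3 v (by omega), O2 v (by omega), O1 v (by omega)]; exact h1
        · rw [O4 v (by omega), O3 v (by omega), O2 v (by omega), O1 v (by omega),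
            O4 u (by omega), O3 u (by omega), O2 u (by omega), O1 u (by omega)]; exact h2
      · refine ⟨1 + (q ++ [(Op.mul, u1, v2)] ++ [(Op.mul, u2, v1)]).length, by omega,
          1 + (q ++ [(Op.mul, u1, v2)] ++ [(Op.mul, u2, v1)] ++
            [(Op.add, 1 + q.length, 1 + (q ++ [(Op.mul, u1, v2)]).length)]).length, by omega,
          ?_, ?_⟩
        · rw [N4, O3 v1 (by omega), O2 v1 (by omega), O1 v1 hv1, O3 v2 (by omega),
            O2 v2 (by omega), O1 v2 hv2]
          exact mul_ne_zero hn1 hn2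
        · rw [N4, O3 v1 (by omega), O2 v1 (by omega), O1 v1 hv1, O3 v2 (by omega),
            O2 v2 (by omega), O1 v2 hv2, O4 _ (by omega), N3, N2, O1 u2 hu2, O1 v1 hv1,
            O2 _ (by omega), N1, he1, he2]
          simp only [Op.app]
          push_cast
          have : (((SLP.run q ([1] : List ℤ)).getD v1 0 : ℤ) : ℝ) ≠ 0 := Int.cast_ne_zero.2 hn1
          have : (((SLP.run q ([1] : List ℤ)).getD v2 0 : ℤ) : ℝ) ≠ 0 := Int.cast_ne_zero.2 hn2
          field_simp
          try ring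
    | sub =>
      obtain ⟨V1, L1, O1, N1⟩ := snoc_props q .mul u1 v2 hv hu1 hv2
      obtain ⟨V2, L2, O2, N2⟩ := snoc_props (q ++ [(Op.mul, u1, v2)]) .mul u2 v1 V1 (by omega)
        (by omega)
      obtain ⟨V3, L3, O3, N3⟩ := snoc_props (q ++ [(Op.mul, u1, v2)] ++ [(Op.mul, u2, v1)]) .sub
        (1 + q.length) (1 + (q ++ [(Op.mul, u1, v2)]).length) V2 (by omega) (by omega)
      obtain ⟨V4, L4, O4, N4⟩ := snoc_props (q ++ [(Op.mul, u1, v2)] ++ [(Op.mul, u2, v1)] ++
        [(Op.sub, 1 + q.length, 1 + (q ++ [(Op.mul, u1, v2)]).length)]) .mul v1 v2 V3 (by omega)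
        (by omega)
      refine ⟨_, V4, by rw [L4, L3, L2, L1, List.length_cons]; omega, ?_⟩
      intro c hc
      rcases mem1_cons hc with hc | rfl
      · obtain ⟨u, hu, v, hv', h1, h2⟩ := ih c hc
        refine ⟨u, by omega, v, by omega, ?_, ?_⟩
        · rw [O4 v (by omega), O3 v (by omega), O2 v (by omega), O1 v (by omega)]; exact h1
        · rw [O4 v (by omega), O3 v (by omega), O2 v (by omega), O1 v (by omega),
            O4 u (by omega), O3 u (by omega), O2 u (by omega), O1 u (by omega)]; exact h2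
      · refine ⟨1 + (q ++ [(Op.mul, u1, v2)] ++ [(Op.mul, u2, v1)]).length, by omega,
          1 + (q ++ [(Op.mul, u1, v2)] ++ [(Op.mul, u2, v1)] ++
            [(Op.sub, 1 + q.length, 1 + (q ++ [(Op.mul, u1, v2)]).length)]).length, by omega,
          ?_, ?_⟩
        · rw [N4, O3 v1 (by omega), O2 v1 (by omega), O1 v1 hv1, O3 v2 (by omega),
            O2 v2 (by omega), O1 v2 hv2]
          exact mul_ne_zero hn1 hn2
        · rw [N4, O3 v1 (by omega), O2 v1 (by omega), O1 v1 hv1, O3 v2 (by omega),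
            O2 v2 (by omega), O1 v2 hv2, O4 _ (by omega), N3, N2, O1 u2 hu2, O1 v1 hv1,
            O2 _ (by omega), N1, he1, he2]
          simp only [Op.app]
          push_cast
          have : (((SLP.run q ([1] : List ℤ)).getD v1 0 : ℤ) : ℝ) ≠ 0 := Int.cast_ne_zero.2 hn1
          have : (((SLP.run q ([1] : List ℤ)).getD v2 0 : ℤ) : ℝ) ≠ 0 := Int.cast_ne_zero.2 hn2
          field_simp
          try ring
  | @div l a b hl ha hb h0 ih =>
    obtain ⟨q, hv, hlen, ih⟩ := ih
    obtain ⟨u1, hu1, v1, hv1, hn1, he1⟩ := ih a ha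
    obtain ⟨u2, hu2, v2, hv2, hn2, he2⟩ := ih b hb
    have hn3 : (SLP.run q ([1] : List ℤ)).getD u2 0 ≠ 0 := by
      intro h
      rw [h, Int.cast_zero, zero_div] at he2
      exact h0 he2
    obtain ⟨V1, L1, O1, N1⟩ := snoc_props q .mul u1 v2 hv hu1 hv2
    obtain ⟨V2, L2, O2, N2⟩ := snoc_props (q ++ [(Op.mul, u1, v2)]) .mul v1 u2 V1 (by omega)
      (by omega)
    refine ⟨_, V2, by rw [L2, L1, List.length_cons]; omega, ?_⟩
    intro c hc
    rcases mem1_cons hc with hc | rfl
    · obtain ⟨u, hu, v, hv', h1, h2⟩ := ih c hc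
      refine ⟨u, by omega, v, by omega, ?_, ?_⟩
      · rw [O2 v (by omega), O1 v (by omega)]; exact h1
      · rw [O2 v (by omega), O1 v (by omega), O2 u (by omega), O1 u (by omega)]; exact h2
    · refine ⟨1 + q.length, by omega, 1 + (q ++ [(Op.mul, u1, v2)]).length, by omega, ?_, ?_⟩
      · rw [N2, O1 v1 hv1, O1 u2 hu2]; exact mul_ne_zero hn1 hn3
      · rw [N2, O1 v1 hv1, O1 u2 hu2, O2 _ (by omega), N1, he1, he2]
        simp only [Op.app]
        push_cast
        rw [div_div_div_eq]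

end Pool.Agent.SLPQ
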