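import Pool.Agent.Lib_helper53.SLPQ.RC

/-!
# Rational approximation of computations with square roots
-/

namespace Pool.Agent.SLPQ

theorem ra_pow {l : List ℝ} (hl : Rt False l) (j : ℕ) : ∀ n < 2 ^ j, ∃ l', Rt False l' ∧
    l'.length ≤ l.length + 2 * j ∧ (∀ a ∈ l, a ∈ l') ∧ ((2:ℝ) ^ n = 1 ∨ (2:ℝ) ^ n ∈ l') := by
  induction j with
  | zero =>
    intro n hn
    have : n = 0 := by simpa using hn
    subst this
    exact ⟨l, hl, by simp, fun a ha => ha, Or.inl (by norm_num)⟩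
  | succ j ih =>
    intro n hn
    rw [pow_succ] at hn
    obtain ⟨l', h1, h2, h3, h4⟩ := ih (n / 2) (by omega)
    have hsq : Rt False (Op.mul.app ((2:ℝ) ^ (n / 2)) (2 ^ (n / 2)) :: l') := .op .mul h1 h4 h4
    rcases Nat.mod_two_eq_zero_or_one n with h | h
    · refine ⟨_, hsq, by simp only [List.length_cons]; omega, fun a ha => ?_, Or.inr ?_⟩
      · exact List.mem_cons_of_mem _ (h3 a ha)
      · have : (2:ℝ) ^ n = Op.mul.app ((2:ℝ) ^ (n / 2)) (2 ^ (n / 2)) := by
          rw [Op.app, ← pow_add]; congr 1; omega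
        rw [this]; simp
    · refine ⟨_, .op .add hsq (Or.inr (List.mem_cons_self)) (Or.inr (List.mem_cons_self)),
        by simp only [List.length_cons]; omega, fun a ha => ?_, Or.inr ?_⟩
      · exact List.mem_cons_of_mem _ (List.mem_cons_of_mem _ (h3 a ha))
      · have : (2:ℝ) ^ n = Op.add.app (Op.mul.app ((2:ℝ) ^ (n / 2)) (2 ^ (n / 2)))
            (Op.mul.app ((2:ℝ) ^ (n / 2)) (2 ^ (n / 2))) := by
          have e : n = n / 2 + n / 2 + 1 := by omega
          simp only [Op.app]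
          conv_lhs => rw [e]
          rw [pow_succ, pow_add]; ring
        rw [this]; simp

theorem heron {l : List ℝ} (hl : Rt False l) {c y : ℝ} (hc : c = 1 ∨ c ∈ l) (hy : y = 1 ∨ y ∈ l)
    (hc0 : 0 < c) (h1 : √c ≤ y) (h2 : y ≤ 2 * √c) (k : ℕ) : ∃ l', Rt False l' ∧
    l'.length ≤ l.length + 4 * k ∧ (∀ a ∈ l, a ∈ l') ∧ ∃ z, (z = 1 ∨ z ∈ l') ∧ √c ≤ z ∧
      z - √c ≤ 2 * √c / 2 ^ 2 ^ k := by
  have hs : 0 < √c := Real.sqrt_pos.2 hc0
  have hsc : √c * √c = c := Real.mul_self_sqrt hc0.le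
  induction k with
  | zero => exact ⟨l, hl, by simp, fun a ha => ha, y, hy, h1, by norm_num; linarith⟩
  | succ k ih =>
    obtain ⟨l', g1, g2, g3, z, g4, g5, g6⟩ := ih
    have hz0 : 0 < z := lt_of_lt_of_le hs g5
    have r1 : Rt False (c / z :: l') := .div g1 (mem1_of hc g3) g4 hz0.ne'
    have r2 : Rt False (Op.add.app z (c / z) :: c / z :: l') :=
      .op .add r1 (mem1_of g4 (by intro a h; simp [h])) (Or.inr (by simp))
    have r3 : Rt False (Op.add.app 1 1 :: Op.add.app z (c / z) :: c / z :: l') :=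
      .op .add r2 (Or.inl rfl) (Or.inl rfl)
    have r4 : Rt False (Op.add.app z (c / z) / Op.add.app 1 1 :: Op.add.app 1 1 ::
        Op.add.app z (c / z) :: c / z :: l') :=
      .div r3 (Or.inr (by simp)) (Or.inr (by simp)) (by simp only [Op.app]; norm_num)
    have hval : Op.add.app z (c / z) / Op.add.app 1 1 - √c = (z - √c) ^ 2 / (2 * z) := by
      simp only [Op.app]
      field_simp
      nlinarith
    refine ⟨_, r4, by simp only [List.length_cons]; omega, fun a ha => by simp [g3 a ha],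
      _, Or.inr (List.mem_cons_self), ?_, ?_⟩
    · have : 0 ≤ (z - √c) ^ 2 / (2 * z) := by positivity
      linarith
    · rw [hval, dexp_succ]
      have hD : (0:ℝ) < 2 ^ 2 ^ k := by positivity
      have e1 : (z - √c) ^ 2 ≤ (2 * √c / 2 ^ 2 ^ k) ^ 2 :=
        pow_le_pow_left₀ (by linarith) g6 2
      calc (z - √c) ^ 2 / (2 * z) ≤ (2 * √c / 2 ^ 2 ^ k) ^ 2 / (2 * √c) := by
            gcongr
        _ = 2 * √c / (2 ^ 2 ^ k) ^ 2 := by field_simp

theorem sqrt_le_of {c B : ℝ} (hB : 1 ≤ B) (h : c ≤ B) : √c ≤ B := by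
  rw [Real.sqrt_le_left (by linarith)]
  nlinarith

theorem le_sqrt_of {c B : ℝ} (hB : 1 ≤ B) (h : B⁻¹ ≤ c) : B⁻¹ ≤ √c := by
  have hB0 : 0 < B := by linarith
  apply Real.le_sqrt_of_sq_le
  have : B⁻¹ ≤ 1 := inv_le_one_of_one_le₀ hB
  have : 0 < B⁻¹ := by positivity
  nlinarith

theorem ra_sqrt {l : List ℝ} (hl : Rt False l) {c : ℝ} (hc : c = 1 ∨ c ∈ l) {S : ℕ}
    (h1 : (2 * BD S)⁻¹ ≤ c) (h2 : c ≤ 2 * BD S) (k : ℕ) : ∃ l', Rt False l' ∧
    l'.length ≤ l.length + (40 * S + 11 + 4 * k) ∧ (∀ a ∈ l, a ∈ l') ∧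
      ∃ y, (y = 1 ∨ y ∈ l') ∧ |√c - y| ≤ 4 * BD S / 2 ^ 2 ^ k := by
  have hB := BD_ge S
  have hc0 : 0 < c := lt_of_lt_of_le (by positivity) h1
  have hs : 0 < √c := Real.sqrt_pos.2 hc0
  have hsU : √c ≤ 2 * BD S := sqrt_le_of (by linarith) h2
  have hsL : (2 * BD S)⁻¹ ≤ √c := le_sqrt_of (by linarith) h1
  obtain ⟨n, hn1, hn2⟩ := exists_mem_Ioc_zpow hs (one_lt_two : (1:ℝ) < 2)
  -- start value 2^(n+1)
  have hst : ∃ l', Rt False l' ∧ l'.length ≤ l.length + (40 * S + 11) ∧ (∀ a ∈ l, a ∈ l') ∧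
      ((2:ℝ) ^ (n + 1) = 1 ∨ (2:ℝ) ^ (n + 1) ∈ l') := by
    have hU : (2:ℝ) ^ (n + 1) ≤ 4 * BD S := by
      rw [zpow_add_one₀ (by norm_num)]
      linarith
    have hL : (2 * BD S)⁻¹ ≤ (2:ℝ) ^ (n + 1) := hsL.trans hn2
    have hBD2 : 4 * BD S ≤ 2 ^ (2 ^ (20 * S + 4) + 2) := by
      rw [BD, pow_add (2:ℝ)]; linarith
    have hBD3 : 2 * BD S ≤ 2 ^ (2 ^ (20 * S + 4) + 2) := by linarith
    have hj : 2 ^ (20 * S + 4) + 2 < 2 ^ (20 * S + 5) := by
      have : 2 ^ (20 * S + 5) = 2 ^ (20 * S + 4) * 2 := by rw [pow_succ]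
      have h4 : 2 ^ 4 ≤ 2 ^ (20 * S + 4) := Nat.pow_le_pow_right (by norm_num) (by omega)
      omega
    rcases le_total 0 (n + 1) with h | h
    · obtain ⟨m, hm⟩ := Int.eq_ofNat_of_zero_le h
      rw [hm, zpow_natCast] at hU ⊢
      have hm2 : m ≤ 2 ^ (20 * S + 4) + 2 := by
        have := hU.trans hBD2
        exact (pow_le_pow_iff_right₀ (by norm_num)).1 this
      obtain ⟨l', g1, g2, g3, g4⟩ := ra_pow hl (20 * S + 5) m (by omega)
      exact ⟨l', g1, by omega, g3, g4⟩
    · obtain ⟨m, hm⟩ := Int.eq_ofNat_of_zero_le (neg_nonneg.2 h)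
      have hm' : n + 1 = -(m:ℤ) := by omega
      rw [hm', zpow_neg, zpow_natCast] at hL ⊢
      have hm2 : m ≤ 2 ^ (20 * S + 4) + 2 := by
        have h5 : (2:ℝ) ^ m ≤ 2 * BD S := by
          exact (inv_le_inv₀ (by positivity) (by positivity)).1 hL
        exact (pow_le_pow_iff_right₀ (by norm_num)).1 (h5.trans hBD3)
      obtain ⟨l', g1, g2, g3, g4⟩ := ra_pow hl (20 * S + 5) m (by omega)
      refine ⟨(1:ℝ) / 2 ^ m :: l', .div g1 (Or.inl rfl) g4 (by positivity),
        by simp only [List.length_cons]; omega, fun a ha => List.mem_cons_of_mem _ (g3 a ha),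
        Or.inr (by rw [one_div]; simp)⟩
  obtain ⟨l', g1, g2, g3, g4⟩ := hst
  have hup : (2:ℝ) ^ (n + 1) ≤ 2 * √c := by
    rw [zpow_add_one₀ (by norm_num)]; linarith
  obtain ⟨l'', f1, f2, f3, z, f4, f5, f6⟩ := heron g1 (mem1_of hc g3) g4 hc0 hn2 hup k
  refine ⟨l'', f1, by omega, fun a ha => f3 a (g3 a ha), z, f4, ?_⟩
  rw [abs_sub_comm, abs_of_nonneg (by linarith)]
  refine f6.trans ?_
  exact div_le_div_of_nonneg_right (by linarith) (by positivity)

/-- Approximation, induction. -/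
theorem approx {S k : ℕ} {η : ℝ} (hη : η = 4 * BD S / 2 ^ 2 ^ k)
    (hsm : η * BD S ^ (6 * S) ≤ (2 * BD S)⁻¹) {l : List ℝ} (hl : Rt True l) (hS : l.length ≤ S) :
    ∃ l', Rt False l' ∧ l'.length ≤ l.length * (40 * S + 11 + 4 * k) ∧
      ∀ a, (a = 1 ∨ a ∈ l) → ∃ b, (b = 1 ∨ b ∈ l') ∧ |a - b| ≤ η * BD S ^ (6 * l.length) := by
  have hB := BD_ge S
  have hη0 : 0 ≤ η := by rw [hη]; positivity
  induction hl with
  | nil =>
    refine ⟨[], .nil, by simp, fun a ha => ⟨1, Or.inl rfl, ?_⟩⟩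
    have : a = 1 := by simpa using ha
    rw [this]; simpa using hη0
  | @op l o a b hl ha hb ih =>
    rw [List.length_cons] at hS
    obtain ⟨l', h1, h2, h3⟩ := ih (by omega)
    set δ := η * BD S ^ (6 * l.length) with hδ
    have hδ0 : 0 ≤ δ := by positivity
    have hδ1 : δ ≤ (2 * BD S)⁻¹ := by
      refine le_trans ?_ hsm
      rw [hδ]
      gcongr
      · linarith
      · omega
    have hBi : (2 * BD S)⁻¹ ≤ 1 := inv_le_one_of_one_le₀ (by linarith)
    have hδn : η * BD S ^ (6 * (l.length + 1)) = δ * BD S ^ 6 := by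
      rw [hδ, show 6 * (l.length + 1) = 6 * l.length + 6 by ring, pow_add]; ring
    have hB6 : 16 * BD S ^ 3 ≤ BD S ^ 6 := by
      have e1 : (16:ℝ) ≤ BD S ^ 3 := by
        calc (16:ℝ) ≤ BD S := hB
          _ ≤ BD S ^ 3 := le_self_pow₀ (by linarith) (by norm_num)
      calc 16 * BD S ^ 3 ≤ BD S ^ 3 * BD S ^ 3 := by gcongr
        _ = BD S ^ 6 := by ring
    have hB3 : BD S ≤ BD S ^ 3 := le_self_pow₀ (by linarith) (by norm_num)
    obtain ⟨a', ha', hda⟩ := h3 a ha
    obtain ⟨b', hb', hdb⟩ := h3 b hb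
    have hA := (hl.bds ha).1.trans (BD_mono (s := l.length) (t := S) (by omega))
    have hBb := (hl.bds hb).1.trans (BD_mono (s := l.length) (t := S) (by omega))
    have hb2 : |b'| ≤ 2 * BD S := by
      have : |b'| ≤ |b| + |b - b'| := by
        have := abs_sub_abs_le_abs_sub b' b
        rw [abs_sub_comm b' b] at this
        linarith
      linarith
    refine ⟨o.app a' b' :: l', .op o h1 ha' hb', ?_, ?_⟩
    · rw [List.length_cons, List.length_cons, add_mul l.length 1, one_mul]; omega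
    · intro c hc
      rw [List.length_cons, hδn]
      rcases mem1_cons hc with hc | rfl
      · obtain ⟨c', hc', hdc⟩ := h3 c hc
        refine ⟨c', mem1_of hc' (by intro a h; simp [h]), hdc.trans ?_⟩
        have : (1:ℝ) ≤ BD S ^ 6 := one_le_pow₀ (by linarith)
        nlinarith
      · refine ⟨_, Or.inr (List.mem_cons_self), ?_⟩
        have := op_lip o (M := 2 * BD S) (by linarith) (by linarith) hb2 hda hdb
        refine this.trans ?_
        nlinarith
  | @div l a b hl ha hb h0 ih =>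
    rw [List.length_cons] at hS
    obtain ⟨l', h1, h2, h3⟩ := ih (by omega)
    set δ := η * BD S ^ (6 * l.length) with hδ
    have hδ0 : 0 ≤ δ := by positivity
    have hδ1 : δ ≤ (2 * BD S)⁻¹ := by
      refine le_trans ?_ hsm
      rw [hδ]
      gcongr
      · linarith
      · omega
    have hδn : η * BD S ^ (6 * (l.length + 1)) = δ * BD S ^ 6 := by
      rw [hδ, show 6 * (l.length + 1) = 6 * l.length + 6 by ring, pow_add]; ring
    have hB6 : 16 * BD S ^ 3 ≤ BD S ^ 6 := by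
      have e1 : (16:ℝ) ≤ BD S ^ 3 := by
        calc (16:ℝ) ≤ BD S := hB
          _ ≤ BD S ^ 3 := le_self_pow₀ (by linarith) (by norm_num)
      calc 16 * BD S ^ 3 ≤ BD S ^ 3 * BD S ^ 3 := by gcongr
        _ = BD S ^ 6 := by ring
    obtain ⟨a', ha', hda⟩ := h3 a ha
    obtain ⟨b', hb', hdb⟩ := h3 b hb
    have hmono := BD_mono (s := l.length) (t := S) (by omega)
    have hA := (hl.bds ha).1.trans hmono
    have hBb := (hl.bds hb).1.trans hmono
    have hBL : (BD S)⁻¹ ≤ |b| :=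
      (inv_anti₀ (by linarith [BD_ge l.length]) hmono).trans ((hl.bds hb).2 h0)
    have hinv : (2 * BD S)⁻¹ = (BD S)⁻¹ / 2 := by rw [mul_inv]; ring
    have hb2 : (2 * BD S)⁻¹ ≤ |b'| := by
      have : |b| ≤ |b'| + |b - b'| := by
        have := abs_sub_abs_le_abs_sub b b'
        linarith
      rw [hinv] at hδ1 ⊢
      linarith
    have hbp : 0 < |b'| := lt_of_lt_of_le (by positivity) hb2
    have hb0 : b' ≠ 0 := abs_pos.1 hbp
    refine ⟨a' / b' :: l', .div h1 ha' hb' hb0, ?_, ?_⟩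
    · rw [List.length_cons, List.length_cons, add_mul l.length 1, one_mul]; omega
    · intro c hc
      rw [List.length_cons, hδn]
      rcases mem1_cons hc with hc | rfl
      · obtain ⟨c', hc', hdc⟩ := h3 c hc
        refine ⟨c', mem1_of hc' (by intro a h; simp [h]), hdc.trans ?_⟩
        have : (1:ℝ) ≤ BD S ^ 6 := one_le_pow₀ (by linarith)
        nlinarith
      · refine ⟨_, Or.inr (List.mem_cons_self), ?_⟩
        have hbb : 0 < |b| := abs_pos.2 h0
        rw [div_sub_div _ _ h0 hb0, abs_div, abs_mul, div_le_iff₀ (by positivity)]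
        have e1 : a * b' - b * a' = a * (b' - b) + b * (a - a') := by ring
        have e2 : |a * b' - b * a'| ≤ 2 * BD S * δ := by
          rw [e1]
          refine (abs_add_le _ _).trans ?_
          rw [abs_mul, abs_mul, abs_sub_comm b' b]
          have := mul_le_mul hA hdb (abs_nonneg _) (by linarith)
          have := mul_le_mul hBb hda (abs_nonneg _) (by linarith)
          linarith
        refine e2.trans ?_
        have e3 : (BD S)⁻¹ * (2 * BD S)⁻¹ ≤ |b| * |b'| :=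
          mul_le_mul hBL hb2 (by positivity) hbb.le
        have e4 : 2 * BD S * δ ≤ δ * BD S ^ 6 * ((BD S)⁻¹ * (2 * BD S)⁻¹) := by
          have hB0 : 0 < BD S := by linarith
          have e5 : δ * BD S ^ 6 * ((BD S)⁻¹ * (2 * BD S)⁻¹) = δ * BD S ^ 4 / 2 := by
            field_simp
          rw [e5]
          have e6 : 4 * BD S ≤ BD S ^ 4 := by
            have : (4:ℝ) ≤ BD S ^ 3 := by
              calc (4:ℝ) ≤ BD S := by linarith
                _ ≤ BD S ^ 3 := le_self_pow₀ (by linarith) (by norm_num)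
            calc 4 * BD S ≤ BD S ^ 3 * BD S := by gcongr
              _ = BD S ^ 4 := by ring
          nlinarith
        refine e4.trans ?_
        exact mul_le_mul_of_nonneg_left e3 (by positivity)
  | @sqrt l a hq hl ha h0 ih =>
    rw [List.length_cons] at hS
    obtain ⟨l', h1, h2, h3⟩ := ih (by omega)
    set δ := η * BD S ^ (6 * l.length) with hδ
    have hδ0 : 0 ≤ δ := by positivity
    have hδ1 : δ ≤ (2 * BD S)⁻¹ := by
      refine le_trans ?_ hsm
      rw [hδ]
      gcongr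
      · linarith
      · omega
    have hηδ : η ≤ δ := by
      have : (1:ℝ) ≤ BD S ^ (6 * l.length) := one_le_pow₀ (by linarith)
      rw [hδ]; nlinarith
    have hδn : η * BD S ^ (6 * (l.length + 1)) = δ * BD S ^ 6 := by
      rw [hδ, show 6 * (l.length + 1) = 6 * l.length + 6 by ring, pow_add]; ring
    have hone : (1:ℝ) ≤ BD S ^ 6 := one_le_pow₀ (by linarith)
    rcases h0.eq_or_lt with h00 | h00
    · -- radicand 0
      refine ⟨Op.sub.app 1 1 :: l', .op .sub h1 (Or.inl rfl) (Or.inl rfl), ?_, ?_⟩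
      · rw [List.length_cons, List.length_cons, add_mul l.length 1, one_mul]; omega
      · intro c hc
        rw [List.length_cons, hδn]
        rcases mem1_cons hc with hc | rfl
        · obtain ⟨c', hc', hdc⟩ := h3 c hc
          exact ⟨c', mem1_of hc' (by intro a h; simp [h]), hdc.trans (by nlinarith)⟩
        · refine ⟨_, Or.inr (List.mem_cons_self), ?_⟩
          rw [← h00]
          simp only [Op.app, Real.sqrt_zero, sub_self, abs_zero]
          positivity
    · obtain ⟨a', ha', hda⟩ := h3 a ha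
      have hmono := BD_mono (s := l.length) (t := S) (by omega)
      have hA := (hl.bds ha).1.trans hmono
      have hAL : (BD S)⁻¹ ≤ |a| :=
        (inv_anti₀ (by linarith [BD_ge l.length]) hmono).trans ((hl.bds ha).2 h00.ne')
      rw [abs_of_pos h00] at hA hAL
      have hinv : (2 * BD S)⁻¹ = (BD S)⁻¹ / 2 := by rw [mul_inv]; ring
      have hBi : (2 * BD S)⁻¹ ≤ 1 := inv_le_one_of_one_le₀ (by linarith)
      rw [abs_le] at hda
      have ha1 : (2 * BD S)⁻¹ ≤ a' := by
        rw [hinv] at hδ1 ⊢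
        linarith [hda.2]
      have ha2 : a' ≤ 2 * BD S := by linarith [hda.1]
      have ha'0 : 0 < a' := lt_of_lt_of_le (by positivity) ha1
      obtain ⟨l'', f1, f2, f3, y, f4, f5⟩ := ra_sqrt h1 ha' ha1 ha2 k
      rw [← hη] at f5
      refine ⟨l'', f1, ?_, ?_⟩
      · rw [List.length_cons, add_mul l.length 1, one_mul]; omega
      · intro c hc
        rw [List.length_cons, hδn]
        rcases mem1_cons hc with hc | rfl
        · obtain ⟨c', hc', hdc⟩ := h3 c hc
          exact ⟨c', mem1_of hc' f3, hdc.trans (by nlinarith)⟩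
        · refine ⟨y, f4, ?_⟩
          have hsa : (BD S)⁻¹ ≤ √a := le_sqrt_of (by linarith) hAL
          have hsp : 0 < √a := Real.sqrt_pos.2 h00
          have e1 : |√a - √a'| ≤ δ * BD S := by
            have e2 : (√a - √a') * (√a + √a') = a - a' := by
              have := Real.mul_self_sqrt h00.le
              have := Real.mul_self_sqrt ha'0.le
              nlinarith
            have e3 : |√a - √a'| * (√a + √a') ≤ δ := by
              rw [← abs_of_nonneg (show 0 ≤ √a + √a' by positivity), ← abs_mul, e2, abs_le]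
              exact hda
            have e4 : |√a - √a'| * (BD S)⁻¹ ≤ δ := by
              refine le_trans (mul_le_mul_of_nonneg_left ?_ (abs_nonneg _)) e3
              have := Real.sqrt_nonneg a'
              linarith
            rwa [← div_eq_mul_inv, div_le_iff₀ (by linarith)] at e4
          have e5 : |√a - y| ≤ |√a - √a'| + |√a' - y| := abs_sub_le _ _ _
          refine e5.trans ?_
          have e6 : δ * BD S + δ ≤ δ * BD S ^ 6 := by
            have : BD S + 1 ≤ BD S ^ 6 := by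
              calc BD S + 1 ≤ BD S ^ 2 := by nlinarith
                _ ≤ BD S ^ 6 := pow_le_pow_right₀ (by linarith) (by norm_num)
            nlinarith
          linarith

theorem eta_bound (S m : ℕ) : 4 * BD S / 2 ^ 2 ^ (21 * S + 9 + m) * BD S ^ (6 * S) ≤
    ((2:ℝ) ^ 2 ^ (21 * S + 8 + m))⁻¹ := by
  have h0 : 4 * BD S * BD S ^ (6 * S) ≤ 2 ^ 2 ^ (21 * S + 8) := by
    rw [BD, ← pow_mul]
    have e1 : (4:ℝ) = 2 ^ 2 := by norm_num
    rw [e1, ← pow_add, ← pow_add]
    refine pow_le_pow_right₀ (by norm_num) ?_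
    have f1 : S < 2 ^ S := Nat.lt_two_pow_self
    have f2 : 2 ^ (21 * S + 8) = 2 ^ (20 * S + 4) * (16 * 2 ^ S) := by
      rw [show 21 * S + 8 = (20 * S + 4) + (4 + S) by ring, pow_add 2 (20 * S + 4),
        pow_add 2 4]; norm_num
    have f3 : 2 ^ 4 ≤ 2 ^ (20 * S + 4) := Nat.pow_le_pow_right (by norm_num) (by omega)
    rw [f2]
    generalize 2 ^ (20 * S + 4) = t at *
    have : t * (16 * 2 ^ S) ≥ t * (6 * S + 2) := Nat.mul_le_mul_left _ (by omega)
    nlinarith
  have hk : (2:ℝ) ^ 2 ^ (21 * S + 9 + m) = 2 ^ 2 ^ (21 * S + 8 + m) * 2 ^ 2 ^ (21 * S + 8 + m) := by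
    rw [← pow_add]
    congr 1
    rw [show 21 * S + 9 + m = (21 * S + 8 + m) + 1 by ring, pow_succ]
    ring
  have h1 : (2:ℝ) ^ 2 ^ (21 * S + 8) ≤ 2 ^ 2 ^ (21 * S + 8 + m) :=
    pow_le_pow_right₀ (by norm_num) (Nat.pow_le_pow_right (by norm_num) (by omega))
  rw [hk]
  set X : ℝ := 2 ^ 2 ^ (21 * S + 8 + m) with hX
  have hX0 : 0 < X := by positivity
  rw [div_mul_eq_mul_div, div_le_iff₀ (by positivity)]
  calc 4 * BD S * BD S ^ (6 * S) ≤ X := h0.trans h1
    _ = X⁻¹ * (X * X) := by field_simp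

/-- **Approximation.** -/
theorem approx' {l : List ℝ} (hl : Rt True l) {S : ℕ} (hS : l.length ≤ S) (m : ℕ) :
    ∃ l', Rt False l' ∧ l'.length ≤ S * (124 * S + 47 + 4 * m) ∧
      ∀ a, (a = 1 ∨ a ∈ l) → ∃ b, (b = 1 ∨ b ∈ l') ∧ |a - b| ≤ ((2:ℝ) ^ 2 ^ (21 * S + 8 + m))⁻¹ := by
  have hB := BD_ge S
  have hb := eta_bound S m
  have hb0 : ((2:ℝ) ^ 2 ^ (21 * S + 8 + m))⁻¹ ≤ (2 * BD S)⁻¹ := by
    refine inv_anti₀ (by positivity) ?_
    have h0 : 4 * BD S * BD S ^ (6 * S) ≤ 2 ^ 2 ^ (21 * S + 8 + m) := by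
      have := eta_bound S 0
      have h1 : 2 * BD S ≤ 2 ^ 2 ^ (21 * S + 8 + m) := by
        calc 2 * BD S ≤ BD S * BD S := by nlinarith
          _ = 2 ^ 2 ^ (20 * S + 5) := by
              rw [BD, ← pow_add]; congr 1
              rw [show 20 * S + 5 = (20 * S + 4) + 1 by ring, pow_succ]; ring
          _ ≤ _ := pow_le_pow_right₀ (by norm_num) (Nat.pow_le_pow_right (by norm_num) (by omega))
      have h2 : 4 * BD S * BD S ^ (6 * S) ≤ 2 ^ 2 ^ (21 * S + 8) := by
        rw [BD, ← pow_mul]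
        have e1 : (4:ℝ) = 2 ^ 2 := by norm_num
        rw [e1, ← pow_add, ← pow_add]
        refine pow_le_pow_right₀ (by norm_num) ?_
        have f1 : S < 2 ^ S := Nat.lt_two_pow_self
        have f2 : 2 ^ (21 * S + 8) = 2 ^ (20 * S + 4) * (16 * 2 ^ S) := by
          rw [show 21 * S + 8 = (20 * S + 4) + (4 + S) by ring, pow_add 2 (20 * S + 4),
        pow_add 2 4]; norm_num
        have f3 : 2 ^ 4 ≤ 2 ^ (20 * S + 4) := Nat.pow_le_pow_right (by norm_num) (by omega)
        rw [f2]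
        generalize 2 ^ (20 * S + 4) = t at *
        have : t * (16 * 2 ^ S) ≥ t * (6 * S + 2) := Nat.mul_le_mul_left _ (by omega)
        nlinarith
      exact h2.trans (pow_le_pow_right₀ (by norm_num)
        (Nat.pow_le_pow_right (by norm_num) (by omega)))
    have : (1:ℝ) ≤ BD S ^ (6 * S) := one_le_pow₀ (by linarith)
    nlinarith
  obtain ⟨l', h1, h2, h3⟩ := approx (S := S) (k := 21 * S + 9 + m) rfl (hb.trans hb0) hl hS
  refine ⟨l', h1, h2.trans ?_, fun a ha => ?_⟩
  · calc l.length * (40 * S + 11 + 4 * (21 * S + 9 + m))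
        ≤ S * (40 * S + 11 + 4 * (21 * S + 9 + m)) := Nat.mul_le_mul_right _ hS
      _ = S * (124 * S + 47 + 4 * m) := by ring
  · obtain ⟨b, hb', hd⟩ := h3 a ha
    refine ⟨b, hb', hd.trans (le_trans ?_ hb)⟩
    have : 0 ≤ 4 * BD S / 2 ^ 2 ^ (21 * S + 9 + m) := by positivity
    refine mul_le_mul_of_nonneg_left ?_ this
    exact pow_le_pow_right₀ (by linarith) (by omega)

end Pool.Agent.SLPQ
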