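import Mathlib

/-! Approximation of the sign function by weighted Halley steps. -/

namespace Pool.Agent.SLPQ

/-- The weighted Halley step. -/
noncomputable def hst (a t : ℝ) : ℝ :=
  t * (4 * a + (a - 1) ^ 2 * t ^ 2) / (4 + (a - 1) * (a + 3) * t ^ 2)

theorem hst_den {a : ℝ} (ha : 1 ≤ a) (t : ℝ) : 0 < 4 + (a - 1) * (a + 3) * t ^ 2 := by
  have h : 0 ≤ (a - 1) * (a + 3) * t ^ 2 :=
    mul_nonneg (mul_nonneg (by linarith) (by linarith)) (sq_nonneg t)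
  linarith

theorem hst_den' {a : ℝ} (ha : 1 ≤ a) (t : ℝ) : 1 ≤ 4 + (a - 1) * (a + 3) * t ^ 2 := by
  have h : 0 ≤ (a - 1) * (a + 3) * t ^ 2 :=
    mul_nonneg (mul_nonneg (by linarith) (by linarith)) (sq_nonneg t)
  linarith

theorem hst_one_sub {a : ℝ} (ha : 1 ≤ a) (t : ℝ) :
    1 - hst a t = (1 - t) * (2 - (a - 1) * t) ^ 2 / (4 + (a - 1) * (a + 3) * t ^ 2) := by
  have h := hst_den ha t
  rw [hst, eq_div_iff h.ne', sub_mul, div_mul_cancel₀ _ h.ne']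
  ring

theorem hst_neg (a t : ℝ) : hst a (-t) = - hst a t := by
  rw [hst, hst]
  rw [neg_sq, ← neg_div]
  congr 1
  ring

theorem hst_nonneg {a t : ℝ} (ha : 1 ≤ a) (ht : 0 ≤ t) : 0 ≤ hst a t := by
  rw [hst]
  have h := hst_den ha t
  positivity

theorem hst_le_one {a t : ℝ} (ha : 1 ≤ a) (ht : t ≤ 1) : hst a t ≤ 1 := by
  have h := hst_one_sub ha t
  have h1 := hst_den ha t
  have h2 : 0 ≤ (1 - t) * (2 - (a - 1) * t) ^ 2 / (4 + (a - 1) * (a + 3) * t ^ 2) :=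
    div_nonneg (mul_nonneg (by linarith) (sq_nonneg _)) h1.le
  linarith

/-- The growth step: with `a = 2/p^2` the step maps `[p^3,1]` into `[p,1]`. -/
theorem hst_grow {c t : ℝ} (hc : 2 ≤ c) (ht : (c ^ 3)⁻¹ ≤ t) (ht1 : t ≤ 1) :
    c⁻¹ ≤ hst (2 * c ^ 2) t := by
  have hc0 : 0 < c := by linarith
  have ha : 1 ≤ 2 * c ^ 2 := by nlinarith
  have hd := hst_den ha t
  have ht0 : 0 < t := lt_of_lt_of_le (by positivity) ht
  set p := c⁻¹ with hp
  have hp0 : 0 < p := by positivity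
  have hp2 : p ≤ 1 / 2 := by
    rw [hp, inv_eq_one_div]
    exact one_div_le_one_div_of_le (by norm_num) hc
  have hcp : c * p = 1 := mul_inv_cancel₀ hc0.ne'
  have hp3 : p ^ 3 ≤ t := by rw [hp, inv_pow]; exact ht
  set a := 2 * c ^ 2 with hadef
  have hap : a * p ^ 2 = 2 := by
    rw [hadef]
    calc 2 * c ^ 2 * p ^ 2 = 2 * (c * p) ^ 2 := by ring
      _ = 2 := by rw [hcp]; norm_num
  rw [hst, le_div_iff₀ hd]
  rcases le_total p t with h | h
  · have h1 : 0 ≤ (a - 1) ^ 2 * t ^ 2 * (t - p) :=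
      mul_nonneg (mul_nonneg (sq_nonneg _) (sq_nonneg _)) (by linarith)
    have h2 : 4 * p * (a - 1) * t ^ 2 ≤ 2 * (a - 1) * t := by
      have h3 : p * t ≤ 1 / 2 := by nlinarith
      have h4 : 0 ≤ (a - 1) * t := mul_nonneg (by linarith) ht0.le
      nlinarith
    have h5 : (2 * a + 2) * t ≤ 4 * a * t := by nlinarith
    nlinarith
  · have h1 : 2 * p ≤ a * t := by
      have h2 : a * p ^ 3 ≤ a * t := mul_le_mul_of_nonneg_left hp3 (by linarith)
      have h3 : a * p ^ 3 = 2 * p := by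
        calc a * p ^ 3 = (a * p ^ 2) * p := by ring
          _ = 2 * p := by rw [hap]
      linarith
    -- (a-1)^2 t^2 + 2a >= p (a-1)(a+3) t
    have h6 : p * (a - 1) * (a + 3) * t ≤ (a - 1) ^ 2 * t ^ 2 + 2 * a := by
      -- p (a+3) <= 4/p = 4 c
      have h7 : p * (a + 3) ≤ 4 * c := by
        have h8 : p * a = 2 * c := by
          calc p * a = (c * p) * (2 * c) := by rw [hadef]; ring
            _ = 2 * c := by rw [hcp]; ring
        nlinarith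
      have h9 : 0 ≤ (a - 1) * t := mul_nonneg (by linarith) ht0.le
      have h10 : p * (a - 1) * (a + 3) * t ≤ 4 * c * ((a - 1) * t) := by
        have := mul_le_mul_of_nonneg_right h7 h9
        nlinarith
      have h11 : 0 ≤ ((a - 1) * t - 2 * c) ^ 2 := sq_nonneg _
      have h12 : 2 * a = (2 * c) ^ 2 := by rw [hadef]; ring
      nlinarith
    have h13 := mul_le_mul_of_nonneg_left h6 ht0.le
    nlinarith

/-- The final step (`a = 3`): cubic convergence to 1. -/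
theorem hst_three {t : ℝ} (ht : 0 ≤ t) (ht1 : t ≤ 1) : 1 - hst 3 t ≤ (1 - t) ^ 3 := by
  rw [hst_one_sub (by norm_num) t]
  have h1 : (0:ℝ) < 4 + (3 - 1) * (3 + 3) * t ^ 2 := by positivity
  rw [div_le_iff₀ h1]
  have h2 : 0 ≤ (1 - t) ^ 3 * t ^ 2 := mul_nonneg (pow_nonneg (by linarith) 3) (sq_nonneg t)
  nlinarith

/-- Growth steps with `c = 2^(3^(k-1)), ..., 2^(3^0)`. -/
noncomputable def grw : ℕ → ℝ → ℝ
  | 0, t => t
  | k + 1, t => grw k (hst (2 * (2 ^ 3 ^ k) ^ 2) t)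

noncomputable def fin3 : ℕ → ℝ → ℝ
  | 0, t => t
  | k + 1, t => hst 3 (fin3 k t)

theorem grw_neg (k : ℕ) (t : ℝ) : grw k (-t) = - grw k t := by
  induction k generalizing t with
  | zero => rfl
  | succ k ih => rw [grw, grw, hst_neg, ih]

theorem fin3_neg (k : ℕ) (t : ℝ) : fin3 k (-t) = - fin3 k t := by
  induction k with
  | zero => rfl
  | succ k ih => rw [fin3, fin3, ih, hst_neg]

theorem two_le_pow (k : ℕ) : (2:ℝ) ≤ 2 ^ 3 ^ k := by
  calc (2:ℝ) = 2 ^ 1 := by norm_num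
    _ ≤ 2 ^ 3 ^ k := pow_le_pow_right₀ (by norm_num) (Nat.one_le_pow _ _ (by norm_num))

theorem wt_one_le (k : ℕ) : (1:ℝ) ≤ 2 * (2 ^ 3 ^ k) ^ 2 := by
  have := two_le_pow k
  nlinarith

theorem grw_mem (k : ℕ) {t : ℝ} (h0 : 0 ≤ t) (h1 : t ≤ 1) : 0 ≤ grw k t ∧ grw k t ≤ 1 := by
  induction k generalizing t with
  | zero => exact ⟨h0, h1⟩
  | succ k ih =>
    rw [grw]
    exact ih (hst_nonneg (wt_one_le k) h0) (hst_le_one (wt_one_le k) h1)

theorem fin3_mem (k : ℕ) {t : ℝ} (h0 : 0 ≤ t) (h1 : t ≤ 1) : 0 ≤ fin3 k t ∧ fin3 k t ≤ 1 := by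
  induction k with
  | zero => exact ⟨h0, h1⟩
  | succ k ih => rw [fin3]; exact ⟨hst_nonneg (by norm_num) ih.1, hst_le_one (by norm_num) ih.2⟩

theorem grw_grow (k : ℕ) {t : ℝ} (h0 : ((2:ℝ) ^ 3 ^ k)⁻¹ ≤ t) (h1 : t ≤ 1) : 1 / 2 ≤ grw k t := by
  induction k generalizing t with
  | zero => rw [grw]; norm_num at h0; linarith
  | succ k ih =>
    rw [grw]
    refine ih ?_ (hst_le_one (wt_one_le k) h1)
    refine hst_grow (two_le_pow k) ?_ h1
    refine le_trans (le_of_eq ?_) h0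
    rw [← pow_mul, pow_succ]

theorem fin3_conv (k : ℕ) {t : ℝ} (h0 : 1 / 2 ≤ t) (h1 : t ≤ 1) :
    1 - fin3 k t ≤ ((2:ℝ) ^ 3 ^ k)⁻¹ := by
  induction k with
  | zero => rw [fin3]; norm_num; linarith
  | succ k ih =>
    rw [fin3]
    have h2 := fin3_mem k (t := t) (by linarith) h1
    refine (hst_three h2.1 h2.2).trans ?_
    calc (1 - fin3 k t) ^ 3 ≤ (((2:ℝ) ^ 3 ^ k)⁻¹) ^ 3 :=
          pow_le_pow_left₀ (by linarith [h2.2]) ih 3
      _ = ((2:ℝ) ^ 3 ^ (k + 1))⁻¹ := by rw [inv_pow, ← pow_mul, pow_succ]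

/-- The approximate sign of a real number: error at most `2^(-3^K)` on
`2^(-3^K) <= |2u/(1+u^2)|`, values in `[-1,1]` everywhere. -/
noncomputable def sg (K : ℕ) (u : ℝ) : ℝ := fin3 K (grw K (2 * u / (1 + u ^ 2)))

theorem sg_neg (K : ℕ) (u : ℝ) : sg K (-u) = - sg K u := by
  rw [sg, sg, ← fin3_neg, ← grw_neg]
  congr 2
  rw [neg_sq, mul_neg, neg_div]

theorem sq_arg_le (u : ℝ) : 2 * u / (1 + u ^ 2) ≤ 1 := by
  rw [div_le_one (by positivity)]
  nlinarith [sq_nonneg (u - 1)]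

theorem sg_mem_nonneg (K : ℕ) {u : ℝ} (hu : 0 ≤ u) : 0 ≤ sg K u ∧ sg K u ≤ 1 := by
  have h0 : 0 ≤ 2 * u / (1 + u ^ 2) := by positivity
  have h := grw_mem K h0 (sq_arg_le u)
  exact fin3_mem K h.1 h.2

theorem sg_mem (K : ℕ) (u : ℝ) : -1 ≤ sg K u ∧ sg K u ≤ 1 := by
  rcases le_total 0 u with h | h
  · have := sg_mem_nonneg K h
    exact ⟨by linarith, this.2⟩
  · have := sg_mem_nonneg K (u := -u) (by linarith)
    rw [sg_neg] at this
    exact ⟨by linarith, by linarith⟩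

theorem sg_pos (K : ℕ) {u : ℝ} (h1 : 1 / 2 ≤ u) (h2 : u ≤ 2 ^ 3 ^ K / 2) :
    1 - sg K u ≤ ((2:ℝ) ^ 3 ^ K)⁻¹ := by
  have hB := two_le_pow K
  set B : ℝ := 2 ^ 3 ^ K with hBdef
  have hB0 : 0 < B := by linarith
  refine fin3_conv K (grw_grow K ?_ (sq_arg_le u)) ?_
  · rw [inv_eq_one_div, div_le_div_iff₀ (by positivity) (by positivity)]
    rcases le_total u 1 with h | h
    · nlinarith
    · nlinarith
  · exact (grw_mem K (by positivity) (sq_arg_le u)).2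

theorem sg_npos (K : ℕ) {u : ℝ} (h1 : u ≤ -(1 / 2)) (h2 : -(2 ^ 3 ^ K / 2) ≤ u) :
    1 + sg K u ≤ ((2:ℝ) ^ 3 ^ K)⁻¹ := by
  have := sg_pos K (u := -u) (by linarith) (by linarith)
  rw [sg_neg] at this
  linarith

end Pool.Agent.SLPQ
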