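import Pool.Agent.Lib_helper53.SLPQ.Chain
import Pool.Agent.Lib_helper53.SLPQ.Sign

/-!
# Size and Lipschitz bounds for computations without division; cost of the sign function
-/

namespace Pool.Agent.SLPQ

variable {X : Type*}

theorem two_le_dexp (n : ℕ) : (2:ℝ) ≤ 2 ^ 2 ^ n := by
  calc (2:ℝ) = 2 ^ 1 := by norm_num
    _ ≤ 2 ^ 2 ^ n := pow_le_pow_right₀ (by norm_num) (Nat.one_le_pow _ _ (by norm_num))

theorem dexp_succ (n : ℕ) : (2:ℝ) ^ 2 ^ (n + 1) = (2 ^ 2 ^ n) ^ 2 := by
  rw [← pow_mul, pow_succ]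

theorem op_bound (o : Op) {a b M : ℝ} (hM : 2 ≤ M) (ha : |a| ≤ M) (hb : |b| ≤ M) :
    |o.app a b| ≤ M ^ 2 := by
  have h0 := abs_nonneg a
  have h1 := abs_nonneg b
  cases o with
  | add =>
    rw [Op.app]
    have := abs_add_le a b
    nlinarith
  | sub =>
    rw [Op.app]
    have := abs_sub a b
    nlinarith
  | mul =>
    rw [Op.app, abs_mul]
    nlinarith

theorem op_lip (o : Op) {a b a' b' M D : ℝ} (hM : 2 ≤ M) (ha : |a| ≤ M) (hb : |b'| ≤ M)
    (h1 : |a - a'| ≤ D) (h2 : |b - b'| ≤ D) : |o.app a b - o.app a' b'| ≤ 2 * M * D := by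
  have hD : 0 ≤ D := (abs_nonneg _).trans h1
  cases o with
  | add =>
    simp only [Op.app]
    have : a + b - (a' + b') = (a - a') + (b - b') := by ring
    rw [this]
    have := abs_add_le (a - a') (b - b')
    nlinarith
  | sub =>
    simp only [Op.app]
    have : a - b - (a' - b') = (a - a') - (b - b') := by ring
    rw [this]
    have := abs_sub (a - a') (b - b')
    nlinarith
  | mul =>
    simp only [Op.app]
    have : a * b - a' * b' = a * (b - b') + (a - a') * b' := by ring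
    rw [this]
    refine (abs_add_le _ _).trans ?_
    rw [abs_mul, abs_mul]
    have e1 := mul_le_mul ha h2 (abs_nonneg _) (by linarith)
    have e2 := mul_le_mul h1 hb (abs_nonneg _) hD
    nlinarith

theorem Cp.bound {B : Set (X → ℝ)} {l : List (X → ℝ)} (hl : Cp False B l) (x : X)
    (hB : ∀ f ∈ B, |f x| ≤ 2) : ∀ f ∈ l, |f x| ≤ 2 ^ 2 ^ l.length := by
  induction hl with
  | nil => intro f hf; simp at hf
  | div hd => exact hd.elim
  | @op l o g h hl hg hh ih =>
    have key : ∀ f, (f ∈ B ∨ f ∈ l) → |f x| ≤ 2 ^ 2 ^ l.length := by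
      rintro f (hf | hf)
      · exact (hB f hf).trans (two_le_dexp _)
      · exact ih f hf
    intro f hf
    rw [List.length_cons, dexp_succ]
    rcases List.mem_cons.1 hf with rfl | hf
    · exact op_bound o (two_le_dexp _) (key g hg) (key h hh)
    · have h1 := ih f hf
      have h2 := two_le_dexp l.length
      nlinarith

theorem Cp.lip {B : Set (X → ℝ)} {l : List (X → ℝ)} (hl : Cp False B l) (x y : X) {ε : ℝ}
    (hx : ∀ f ∈ B, |f x| ≤ 2) (hy : ∀ f ∈ B, |f y| ≤ 2) (h : ∀ f ∈ B, |f x - f y| ≤ ε) :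
    ∀ f ∈ l, |f x - f y| ≤ ε * 2 ^ 2 ^ (l.length + 1) := by
  induction hl with
  | nil => intro f hf; simp at hf
  | div hd => exact hd.elim
  | @op l o g k hl hg hk ih =>
    have hbx := hl.bound x hx
    have hby := hl.bound y hy
    have hM := two_le_dexp l.length
    have kx : ∀ f, (f ∈ B ∨ f ∈ l) → |f x| ≤ 2 ^ 2 ^ l.length := by
      rintro f (hf | hf)
      · exact (hx f hf).trans (two_le_dexp _)
      · exact hbx f hf
    have ky : ∀ f, (f ∈ B ∨ f ∈ l) → |f y| ≤ 2 ^ 2 ^ l.length := by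
      rintro f (hf | hf)
      · exact (hy f hf).trans (two_le_dexp _)
      · exact hby f hf
    have kd : ∀ f, (f ∈ B ∨ f ∈ l) → |f x - f y| ≤ ε * 2 ^ 2 ^ (l.length + 1) := by
      rintro f (hf | hf)
      · have h1 := h f hf
        have h2 : 0 ≤ ε := (abs_nonneg _).trans h1
        refine h1.trans ?_
        have h3 := two_le_dexp (l.length + 1)
        nlinarith
      · exact ih f hf
    have hε : 0 ≤ ε * 2 ^ 2 ^ (l.length + 1) := (abs_nonneg _).trans (kd g hg)
    intro f hf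
    rw [List.length_cons]
    have e1 : ε * (2:ℝ) ^ 2 ^ (l.length + 1 + 1) = ε * 2 ^ 2 ^ (l.length + 1) *
        (2 ^ 2 ^ l.length) ^ 2 := by
      rw [dexp_succ (l.length + 1)]
      rw [dexp_succ l.length]
      ring
    rw [e1]
    rcases List.mem_cons.1 hf with rfl | hf
    · have h1 := op_lip o hM (kx g hg) (ky k hk) (kd g hg) (kd k hk)
      refine h1.trans ?_
      have : 2 * (2:ℝ) ^ 2 ^ l.length ≤ (2 ^ 2 ^ l.length) ^ 2 := by nlinarith
      nlinarith
    · refine (ih f hf).trans ?_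
      have : (1:ℝ) ≤ (2 ^ 2 ^ l.length) ^ 2 := by nlinarith
      nlinarith

/-! ### cost of expressions -/

/-- Expressions with division. -/
inductive Ex
  | v (i : ℕ)
  | one
  | op (o : Op) (e f : Ex)
  | div (e f : Ex)

noncomputable def Ex.ev (g : ℕ → ℝ) : Ex → ℝ
  | .v i => g i
  | .one => 1
  | .op o e f => o.app (e.ev g) (f.ev g)
  | .div e f => e.ev g / f.ev g

def Ex.size : Ex → ℕ
  | .v _ => 0
  | .one => 0
  | .op _ e f => e.size + f.size + 1
  | .div e f => e.size + f.size + 1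

def Ex.Good (g : ℕ → ℝ) : Ex → Prop
  | .v _ => True
  | .one => True
  | .op _ e f => e.Good g ∧ f.Good g
  | .div e f => e.Good g ∧ f.Good g ∧ 1 ≤ f.ev g

theorem Ex.cost {B : Set (X → ℝ)} (h1 : (fun _ => (1:ℝ)) ∈ B) (g : ℕ → X → ℝ)
    (hg : ∀ i, g i ∈ B) (e : Ex) (he : ∀ x, e.Good fun i => g i x) :
    CS True B e.size {fun x => e.ev fun i => g i x} := by
  induction e with
  | v i => exact CS.mem (hg i)
  | one => exact CS.mem h1
  | op o e f ihe ihf =>
    exact CS.op2 o (ihe fun x => (he x).1) (ihf fun x => (he x).2)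
  | div e f ihe ihf =>
    exact CS.div2 (ihe fun x => (he x).1) (ihf fun x => (he x).2.1) fun x => (he x).2.2

/-- The weighted Halley step as an expression: variable 0 is `t`, variable 1 is `c`, `a = 2c²`. -/
def exStep : Ex :=
  let t := Ex.v 0
  let two := Ex.op .add .one .one
  let three := Ex.op .add two .one
  let four := Ex.op .mul two two
  let a := Ex.op .mul two (Ex.op .mul (.v 1) (.v 1))
  let am := Ex.op .sub a .one
  let ap := Ex.op .add a three
  let tt := Ex.op .mul t t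
  Ex.div (Ex.op .mul t (Ex.op .add (Ex.op .mul four a) (Ex.op .mul (Ex.op .mul am am) tt)))
    (Ex.op .add four (Ex.op .mul (Ex.op .mul am ap) tt))

def exThree : Ex :=
  let t := Ex.v 0
  let two := Ex.op .add .one .one
  let three := Ex.op .add two .one
  let four := Ex.op .mul two two
  let am := Ex.op .sub three .one
  let ap := Ex.op .add three three
  let tt := Ex.op .mul t t
  Ex.div (Ex.op .mul t (Ex.op .add (Ex.op .mul four three) (Ex.op .mul (Ex.op .mul am am) tt)))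
    (Ex.op .add four (Ex.op .mul (Ex.op .mul am ap) tt))

/-- `2u/(1+u²)` -/
def exSq : Ex :=
  let u := Ex.v 0
  Ex.div (Ex.op .mul (Ex.op .add .one .one) u) (Ex.op .add .one (Ex.op .mul u u))

theorem exStep_ev (g : ℕ → ℝ) : exStep.ev g = hst (2 * g 1 ^ 2) (g 0) := by
  simp only [exStep, Ex.ev, Op.app, hst]
  congr 1 <;> ring

theorem exThree_ev (g : ℕ → ℝ) : exThree.ev g = hst 3 (g 0) := by
  simp only [exThree, Ex.ev, Op.app, hst]
  congr 1 <;> ring

theorem exSq_ev (g : ℕ → ℝ) : exSq.ev g = 2 * g 0 / (1 + g 0 ^ 2) := by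
  simp only [exSq, Ex.ev, Op.app]
  congr 1 <;> ring

theorem hst_cost {B : Set (X → ℝ)} (h1 : (fun _ => (1:ℝ)) ∈ B) {t : X → ℝ} {c : ℝ} (hc : 1 ≤ c)
    (ht : t ∈ B) (hcB : (fun _ => c) ∈ B) :
    CS True B 50 {fun x => hst (2 * c ^ 2) (t x)} := by
  have h := Ex.cost h1 (fun i => if i = 0 then t else fun _ => c)
    (by intro i; split_ifs; exacts [ht, hcB]) exStep ?_
  · refine (h.le (by decide)).sub ?_
    intro f hf
    rw [Set.mem_singleton_iff] at hf ⊢
    rw [hf]
    funext x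
    rw [exStep_ev]
    simp
  · intro x
    simp only [exStep, Ex.Good, Ex.ev, Op.app, true_and, and_true]
    have := hst_den' (a := 2 * c ^ 2) (by nlinarith) (t x)
    simp only [if_true, one_ne_zero, if_false]
    nlinarith

theorem hst3_cost {B : Set (X → ℝ)} (h1 : (fun _ => (1:ℝ)) ∈ B) {t : X → ℝ}
    (ht : t ∈ B) : CS True B 50 {fun x => hst 3 (t x)} := by
  have h := Ex.cost h1 (fun _ => t) (by intro i; exact ht) exThree ?_
  · refine (h.le (by decide)).sub ?_
    intro f hf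
    rw [Set.mem_singleton_iff] at hf ⊢
    rw [hf]
    funext x
    rw [exThree_ev]
  · intro x
    simp only [exThree, Ex.Good, Ex.ev, Op.app, true_and, and_true]
    have := hst_den' (a := 3) (by norm_num) (t x)
    nlinarith

theorem sq_cost {B : Set (X → ℝ)} (h1 : (fun _ => (1:ℝ)) ∈ B) {u : X → ℝ}
    (hu : u ∈ B) : CS True B 5 {fun x => 2 * u x / (1 + u x ^ 2)} := by
  have h := Ex.cost h1 (fun _ => u) (by intro i; exact hu) exSq ?_
  · refine (h.le (by decide)).sub ?_
    intro f hf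
    rw [Set.mem_singleton_iff] at hf ⊢
    rw [hf]
    funext x
    rw [exSq_ev]
  · intro x
    simp only [exSq, Ex.Good, Ex.ev, Op.app, true_and, and_true]
    nlinarith [sq_nonneg (u x)]

/-- The constants `2^(3^j)`, `j < K`. -/
def pws (X : Type*) (K : ℕ) : Set (X → ℝ) := {f | ∃ j < K, f = fun _ => (2:ℝ) ^ 3 ^ j}

theorem pws_cost {d : Prop} {B : Set (X → ℝ)} (h1 : (fun _ => (1:ℝ)) ∈ B) (K : ℕ) :
    CS d B (2 * K) (pws X K) := by
  induction K with
  | zero =>
    refine CS.zero ?_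
    rintro f ⟨j, hj, -⟩
    omega
  | succ K ih =>
    rcases K with _ | K
    · refine ((CS.op1 (d := d) .add h1 h1).le (by norm_num)).sub ?_
      rintro f ⟨j, hj, rfl⟩
      have : j = 0 := by omega
      subst this
      rw [Set.mem_singleton_iff]
      funext x
      simp [Op.app]; norm_num
    · have hp : (fun _ : X => (2:ℝ) ^ 3 ^ K) ∈ B ∪ pws X (K + 1) := Or.inr ⟨K, by omega, rfl⟩
      have h2 := CS.mul (CS.mul (d := d) (CS.mem hp) (CS.mem hp)) (CS.mem hp)
      have h3 := (ih.trans h2).le (m := 2 * (K + 1 + 1)) (by omega)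
      refine h3.sub ?_
      rintro f ⟨j, hj, rfl⟩
      rcases Nat.lt_or_ge j (K + 1) with h | h
      · exact Or.inl ⟨j, h, rfl⟩
      · right
        have : j = K + 1 := by omega
        subst this
        rw [Set.mem_singleton_iff]
        funext x
        simp only [Pi.mul_apply]
        rw [pow_succ, pow_mul]
        ring

theorem grw_cost {B : Set (X → ℝ)} (h1 : (fun _ => (1:ℝ)) ∈ B) (K : ℕ) (hp : pws X K ⊆ B)
    {t : X → ℝ} (ht : t ∈ B) : CS True B (50 * K) {fun x => grw K (t x)} := by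
  induction K generalizing t B with
  | zero => exact CS.mem ht
  | succ K ih =>
    have hc := hst_cost h1 (t := t) (c := 2 ^ 3 ^ K) (by linarith [two_le_pow K]) ht
      (hp ⟨K, by omega, rfl⟩)
    have h2 := ih (B := B ∪ {fun x => hst (2 * (2 ^ 3 ^ K) ^ 2) (t x)}) (Or.inl h1) ?_
      (t := fun x => hst (2 * (2 ^ 3 ^ K) ^ 2) (t x)) (Or.inr rfl)
    · exact ((hc.trans h2).le (by omega)).sub (by
        intro f hf
        right
        rw [Set.mem_singleton_iff] at hf ⊢
        rw [hf]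
        rfl)
    · rintro f ⟨j, hj, rfl⟩
      exact Or.inl (hp ⟨j, by omega, rfl⟩)

theorem fin3_cost {B : Set (X → ℝ)} (h1 : (fun _ => (1:ℝ)) ∈ B) (K : ℕ)
    {t : X → ℝ} (ht : t ∈ B) : CS True B (50 * K) {fun x => fin3 K (t x)} := by
  induction K with
  | zero => exact CS.mem ht
  | succ K ih =>
    have h2 := hst3_cost (B := B ∪ {fun x => fin3 K (t x)}) (Or.inl h1)
      (t := fun x => fin3 K (t x)) (Or.inr rfl)
    exact ((ih.trans h2).le (by omega)).sub (by
        intro f hf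
        right
        rw [Set.mem_singleton_iff] at hf ⊢
        rw [hf]
        rfl)

/-- The approximate bit of a number: close to `1` for positive, to `0` for negative numbers. -/
noncomputable def sb (K : ℕ) (u : ℝ) : ℝ := (1 + sg K u) / (1 + 1)

theorem sg_cost {B : Set (X → ℝ)} (h1 : (fun _ => (1:ℝ)) ∈ B) (K : ℕ)
    {u : X → ℝ} (hu : u ∈ B) : CS True B (102 * K + 5) {fun x => sg K (u x)} := by
  have a1 := pws_cost (X := X) (d := True) h1 K
  have a2 := sq_cost (B := B ∪ pws X K) (Or.inl h1) (Or.inl hu)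
  have a3 := a1.trans a2
  have a4 := grw_cost (B := B ∪ (pws X K ∪ {fun x => 2 * u x / (1 + u x ^ 2)})) (Or.inl h1) K
    (fun f hf => Or.inr (Or.inl hf)) (t := fun x => 2 * u x / (1 + u x ^ 2)) (Or.inr (Or.inr rfl))
  have a5 := a3.trans a4
  have a6 := fin3_cost (B := B ∪ (pws X K ∪ {fun x => 2 * u x / (1 + u x ^ 2)} ∪
    {fun x => grw K (2 * u x / (1 + u x ^ 2))})) (Or.inl h1) K
    (t := fun x => grw K (2 * u x / (1 + u x ^ 2))) (Or.inr (Or.inr rfl))
  have a7 := a5.trans a6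
  refine (a7.le (by omega)).sub ?_
  intro f hf
  right
  rw [Set.mem_singleton_iff] at hf ⊢
  rw [hf]
  rfl

theorem sb_cost {B : Set (X → ℝ)} (h1 : (fun _ => (1:ℝ)) ∈ B) (K : ℕ)
    {u : X → ℝ} (hu : u ∈ B) : CS True B (102 * K + 8) {fun x => sb K (u x)} := by
  have a1 := sg_cost h1 K hu
  have b1 : CS True B 0 {fun _ => (1:ℝ)} := CS.mem h1
  have a2 := CS.op2 .add b1 a1
  have a3 := CS.op2 .add b1 b1
  have a4 := CS.div2 a2 a3 (fun x => by simp only [Op.app]; norm_num)
  exact a4.le (by omega)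

theorem sb_mem (K : ℕ) (u : ℝ) : 0 ≤ sb K u ∧ sb K u ≤ 1 := by
  have := sg_mem K u
  rw [sb]
  constructor
  · linarith
  · linarith

theorem sb_pos (K : ℕ) {u : ℝ} (h1 : 1 / 2 ≤ u) (h2 : u ≤ 2 ^ 3 ^ K / 2) :
    |sb K u - 1| ≤ ((2:ℝ) ^ 3 ^ K)⁻¹ := by
  have h := sg_pos K h1 h2
  have h3 := sg_mem K u
  rw [abs_le, sb]
  have : 0 ≤ ((2:ℝ) ^ 3 ^ K)⁻¹ := by positivity
  constructor <;> linarith

theorem sb_npos (K : ℕ) {u : ℝ} (h1 : u ≤ -(1 / 2)) (h2 : -(2 ^ 3 ^ K / 2) ≤ u) :
    |sb K u| ≤ ((2:ℝ) ^ 3 ^ K)⁻¹ := by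
  have h := sg_npos K h1 h2
  have h3 := sg_mem K u
  rw [abs_le, sb]
  have : 0 ≤ ((2:ℝ) ^ 3 ^ K)⁻¹ := by positivity
  constructor <;> linarith

end Pool.Agent.SLPQ
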