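import Pool.Agent.Lib_helper53.SLPQ.Defs

/-!
# Chains of functions (computations), elimination of divisions, conversion to programs
-/

namespace Pool.Agent.SLPQ

variable {X : Type*}

/-- Computations (last function first); division by functions which are `≥ 1` everywhere is
allowed if `d` holds. -/
inductive Cp (d : Prop) (B : Set (X → ℝ)) : List (X → ℝ) → Prop
  | nil : Cp d B []
  | op {l : List (X → ℝ)} (o : Op) {g h : X → ℝ} (hl : Cp d B l) (hg : g ∈ B ∨ g ∈ l)
      (hh : h ∈ B ∨ h ∈ l) : Cp d B ((fun x => o.app (g x) (h x)) :: l)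
  | div {l : List (X → ℝ)} {g h : X → ℝ} (hd : d) (hl : Cp d B l) (hg : g ∈ B ∨ g ∈ l)
      (hh : h ∈ B ∨ h ∈ l) (hp : ∀ x, 1 ≤ h x) : Cp d B ((fun x => g x / h x) :: l)

theorem Cp.flag {d d' : Prop} (hdd : d → d') {B : Set (X → ℝ)} {l : List (X → ℝ)}
    (hl : Cp d B l) : Cp d' B l := by
  induction hl with
  | nil => exact .nil
  | op o _ hg hh ih => exact .op o ih hg hh
  | div hd _ hg hh hp ih => exact .div (hdd hd) ih hg hh hp

theorem Cp.comp {d : Prop} {B B' : Set (X → ℝ)} {l l' : List (X → ℝ)} (hl : Cp d B l)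
    (hB : ∀ f ∈ B', f ∈ B ∨ f ∈ l) (hl' : Cp d B' l') : Cp d B (l' ++ l) := by
  have key : ∀ {l' : List (X → ℝ)} (f : X → ℝ), (f ∈ B' ∨ f ∈ l') → (f ∈ B ∨ f ∈ l' ++ l) := by
    intro l' f hf
    rw [List.mem_append]
    rcases hf with hf | hf
    · rcases hB f hf with h | h
      · exact Or.inl h
      · exact Or.inr (Or.inr h)
    · exact Or.inr (Or.inl hf)
  induction hl' with
  | nil => exact hl
  | op o _ hg hh ih => exact .op o ih (key _ hg) (key _ hh)
  | div hd _ hg hh hp ih => exact .div hd ih (key _ hg) (key _ hh) hp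

/-- The functions of `S` are computed together from `B` in `n` steps. -/
def CS (d : Prop) (B : Set (X → ℝ)) (n : ℕ) (S : Set (X → ℝ)) : Prop :=
  ∃ l : List (X → ℝ), Cp d B l ∧ l.length ≤ n ∧ ∀ f ∈ S, f ∈ B ∨ f ∈ l

theorem CS.flag {d d' : Prop} (hdd : d → d') {B : Set (X → ℝ)} {n : ℕ} {S : Set (X → ℝ)}
    (h : CS d B n S) : CS d' B n S := by
  obtain ⟨l, h1, h2, h3⟩ := h
  exact ⟨l, h1.flag hdd, h2, h3⟩

theorem CS.zero {d : Prop} {B S : Set (X → ℝ)} (h : S ⊆ B) : CS d B 0 S :=
  ⟨[], .nil, le_rfl, fun f hf => Or.inl (h hf)⟩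

theorem CS.le {d : Prop} {B S : Set (X → ℝ)} {n m : ℕ} (h : CS d B n S) (hnm : n ≤ m) :
    CS d B m S := by
  obtain ⟨l, h1, h2, h3⟩ := h
  exact ⟨l, h1, h2.trans hnm, h3⟩

theorem CS.sub {d : Prop} {B S T : Set (X → ℝ)} {n : ℕ} (h : CS d B n S) (hT : T ⊆ S) :
    CS d B n T := by
  obtain ⟨l, h1, h2, h3⟩ := h
  exact ⟨l, h1, h2, fun f hf => h3 f (hT hf)⟩

theorem CS.trans {d : Prop} {B S T : Set (X → ℝ)} {n m : ℕ} (h : CS d B n S)
    (h' : CS d (B ∪ S) m T) : CS d B (n + m) (S ∪ T) := by
  obtain ⟨l, h1, h2, h3⟩ := h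
  obtain ⟨l', h1', h2', h3'⟩ := h'
  refine ⟨l' ++ l, h1.comp ?_ h1', by rw [List.length_append]; omega, ?_⟩
  · rintro f (hf | hf)
    · exact Or.inl hf
    · exact h3 f hf
  · rintro f (hf | hf)
    · rcases h3 f hf with h | h
      · exact Or.inl h
      · exact Or.inr (List.mem_append_right _ h)
    · rcases h3' f hf with (h | h) | h
      · exact Or.inl h
      · rcases h3 f h with h | h
        · exact Or.inl h
        · exact Or.inr (List.mem_append_right _ h)
      · exact Or.inr (List.mem_append_left _ h)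

/-- Enlarging the base. -/
theorem CS.mono {d : Prop} {B B' S : Set (X → ℝ)} {n : ℕ} (h : CS d B n S) (hB : B ⊆ B') :
    CS d B' n S := by
  obtain ⟨l, h1, h2, h3⟩ := h
  refine ⟨l ++ [], Cp.comp .nil (fun f hf => Or.inl (hB hf)) h1, by simpa using h2, ?_⟩
  intro f hf
  rcases h3 f hf with h | h
  · exact Or.inl (hB h)
  · exact Or.inr (by simpa using h)

theorem CS.union {d : Prop} {B S T : Set (X → ℝ)} {n m : ℕ} (h : CS d B n S)
    (h' : CS d B m T) : CS d B (n + m) (S ∪ T) :=
  h.trans (h'.mono Set.subset_union_left)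

/-- One operation. -/
theorem CS.op1 {d : Prop} {B : Set (X → ℝ)} (o : Op) {g h : X → ℝ} (hg : g ∈ B) (hh : h ∈ B) :
    CS d B 1 {fun x => o.app (g x) (h x)} :=
  ⟨[fun x => o.app (g x) (h x)], .op o .nil (Or.inl hg) (Or.inl hh), by simp,
    fun f hf => Or.inr (by simpa using hf)⟩

theorem CS.div1 {B : Set (X → ℝ)} {g h : X → ℝ} (hg : g ∈ B) (hh : h ∈ B) (hp : ∀ x, 1 ≤ h x) :
    CS True B 1 {fun x => g x / h x} :=
  ⟨[fun x => g x / h x], .div trivial .nil (Or.inl hg) (Or.inl hh) hp, by simp,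
    fun f hf => Or.inr (by simpa using hf)⟩

/-- Two computed functions are combined by an operation. -/
theorem CS.op2 {d : Prop} {B : Set (X → ℝ)} {n m : ℕ} (o : Op) {g h : X → ℝ}
    (hg : CS d B n {g}) (hh : CS d B m {h}) :
    CS d B (n + m + 1) {fun x => o.app (g x) (h x)} := by
  refine ((hg.union hh).trans (CS.op1 o (g := g) (h := h) ?_ ?_)).sub ?_
  · exact Or.inr (Or.inl rfl)
  · exact Or.inr (Or.inr rfl)
  · exact Set.subset_union_right

theorem CS.div2 {B : Set (X → ℝ)} {n m : ℕ} {g h : X → ℝ}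
    (hg : CS True B n {g}) (hh : CS True B m {h}) (hp : ∀ x, 1 ≤ h x) :
    CS True B (n + m + 1) {fun x => g x / h x} := by
  refine ((hg.union hh).trans (CS.div1 (g := g) (h := h) ?_ ?_ hp)).sub ?_
  · exact Or.inr (Or.inl rfl)
  · exact Or.inr (Or.inr rfl)
  · exact Set.subset_union_right

theorem CS.add {d : Prop} {B : Set (X → ℝ)} {n m : ℕ} {g h : X → ℝ}
    (hg : CS d B n {g}) (hh : CS d B m {h}) : CS d B (n + m + 1) {g + h} := CS.op2 .add hg hh

theorem CS.sb {d : Prop} {B : Set (X → ℝ)} {n m : ℕ} {g h : X → ℝ}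
    (hg : CS d B n {g}) (hh : CS d B m {h}) : CS d B (n + m + 1) {g - h} := CS.op2 .sub hg hh

theorem CS.mul {d : Prop} {B : Set (X → ℝ)} {n m : ℕ} {g h : X → ℝ}
    (hg : CS d B n {g}) (hh : CS d B m {h}) : CS d B (n + m + 1) {g * h} := CS.op2 .mul hg hh

theorem CS.mem {d : Prop} {B : Set (X → ℝ)} {g : X → ℝ} (hg : g ∈ B) : CS d B 0 {g} :=
  CS.zero (by simpa using hg)

/-- Elimination of divisions. -/
theorem Cp.elim {B : Set (X → ℝ)} (h1 : (fun _ => (1:ℝ)) ∈ B) {l : List (X → ℝ)}
    (hl : Cp True B l) : ∃ l' : List (X → ℝ), Cp False B l' ∧ l'.length ≤ 4 * l.length ∧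
      ∀ f, (f ∈ B ∨ f ∈ l) → ∃ N D : X → ℝ, (N ∈ B ∨ N ∈ l') ∧ (D ∈ B ∨ D ∈ l') ∧
        (∀ x, 1 ≤ D x) ∧ ∀ x, f x = N x / D x := by
  induction hl with
  | nil =>
    refine ⟨[], .nil, le_rfl, fun f hf => ?_⟩
    rcases hf with hf | hf
    · exact ⟨f, fun _ => 1, Or.inl hf, Or.inl h1, fun _ => le_rfl, fun x => (div_one _).symm⟩
    · simp at hf
  | @op l o g h hl hg hh ih =>
    obtain ⟨l', hc, hlen, ih⟩ := ih
    obtain ⟨N1, D1, hN1, hD1, hp1, he1⟩ := ih g hg
    obtain ⟨N2, D2, hN2, hD2, hp2, he2⟩ := ih h hh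
    cases o with
    | mul =>
      refine ⟨(fun x => Op.mul.app (D1 x) (D2 x)) :: (fun x => Op.mul.app (N1 x) (N2 x)) :: l',
        .op .mul (.op .mul hc hN1 hN2) ?_ ?_, ?_, ?_⟩
      · exact hD1.imp id (List.mem_cons_of_mem _)
      · exact hD2.imp id (List.mem_cons_of_mem _)
      · simp only [List.length_cons]; omega
      · intro f hf
        have key : (f ∈ B ∨ f ∈ l) ∨ f = (fun x => Op.mul.app (g x) (h x)) := by
          rcases hf with hf | hf
          · exact Or.inl (Or.inl hf)
          · rcases List.mem_cons.1 hf with hf | hf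
            · exact Or.inr hf
            · exact Or.inl (Or.inr hf)
        rcases key with hf | rfl
        · obtain ⟨N, D, hN, hD, hp, he⟩ := ih f hf
          exact ⟨N, D, hN.imp id (by intro h; simp [h]), hD.imp id (by intro h; simp [h]), hp, he⟩
        · refine ⟨fun x => Op.mul.app (N1 x) (N2 x), fun x => Op.mul.app (D1 x) (D2 x),
            Or.inr (by simp), Or.inr (by simp), fun x => one_le_mul_of_one_le_of_one_le (hp1 x) (hp2 x), fun x => ?_⟩
          simp only [Op.app, he1, he2]
          rw [div_mul_div_comm]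
    | add =>
      refine ⟨(fun x => Op.add.app ((fun x => Op.mul.app (N1 x) (D2 x)) x)
          ((fun x => Op.mul.app (N2 x) (D1 x)) x)) :: (fun x => Op.mul.app (N2 x) (D1 x)) ::
          (fun x => Op.mul.app (N1 x) (D2 x)) :: (fun x => Op.mul.app (D1 x) (D2 x)) :: l',
        .op .add (.op .mul (.op .mul (.op .mul hc hD1 hD2) ?_ ?_) ?_ ?_) ?_ ?_, ?_, ?_⟩
      · exact hN1.imp id (by intro h; simp [h])
      · exact hD2.imp id (by intro h; simp [h])
      · exact hN2.imp id (by intro h; simp [h])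
      · exact hD1.imp id (by intro h; simp [h])
      · exact Or.inr (by simp)
      · exact Or.inr (by simp)
      · simp only [List.length_cons]; omega
      · intro f hf
        have key : (f ∈ B ∨ f ∈ l) ∨ f = (fun x => Op.add.app (g x) (h x)) := by
          rcases hf with hf | hf
          · exact Or.inl (Or.inl hf)
          · rcases List.mem_cons.1 hf with hf | hf
            · exact Or.inr hf
            · exact Or.inl (Or.inr hf)
        rcases key with hf | rfl
        · obtain ⟨N, D, hN, hD, hp, he⟩ := ih f hf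
          exact ⟨N, D, hN.imp id (by intro h; simp [h]), hD.imp id (by intro h; simp [h]), hp, he⟩
        · refine ⟨_, fun x => Op.mul.app (D1 x) (D2 x),
            Or.inr (List.mem_cons_self), Or.inr (by simp), fun x => one_le_mul_of_one_le_of_one_le (hp1 x) (hp2 x), fun x => ?_⟩
          simp only [Op.app, he1, he2]
          have := (lt_of_lt_of_le one_pos (hp1 x)).ne'
          have := (lt_of_lt_of_le one_pos (hp2 x)).ne'
          field_simp
          try ring
    | sub =>
      refine ⟨(fun x => Op.sub.app ((fun x => Op.mul.app (N1 x) (D2 x)) x)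
          ((fun x => Op.mul.app (N2 x) (D1 x)) x)) :: (fun x => Op.mul.app (N2 x) (D1 x)) ::
          (fun x => Op.mul.app (N1 x) (D2 x)) :: (fun x => Op.mul.app (D1 x) (D2 x)) :: l',
        .op .sub (.op .mul (.op .mul (.op .mul hc hD1 hD2) ?_ ?_) ?_ ?_) ?_ ?_, ?_, ?_⟩
      · exact hN1.imp id (by intro h; simp [h])
      · exact hD2.imp id (by intro h; simp [h])
      · exact hN2.imp id (by intro h; simp [h])
      · exact hD1.imp id (by intro h; simp [h])
      · exact Or.inr (by simp)
      · exact Or.inr (by simp)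
      · simp only [List.length_cons]; omega
      · intro f hf
        have key : (f ∈ B ∨ f ∈ l) ∨ f = (fun x => Op.sub.app (g x) (h x)) := by
          rcases hf with hf | hf
          · exact Or.inl (Or.inl hf)
          · rcases List.mem_cons.1 hf with hf | hf
            · exact Or.inr hf
            · exact Or.inl (Or.inr hf)
        rcases key with hf | rfl
        · obtain ⟨N, D, hN, hD, hp, he⟩ := ih f hf
          exact ⟨N, D, hN.imp id (by intro h; simp [h]), hD.imp id (by intro h; simp [h]), hp, he⟩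
        · refine ⟨_, fun x => Op.mul.app (D1 x) (D2 x),
            Or.inr (List.mem_cons_self), Or.inr (by simp), fun x => one_le_mul_of_one_le_of_one_le (hp1 x) (hp2 x), fun x => ?_⟩
          simp only [Op.app, he1, he2]
          have := (lt_of_lt_of_le one_pos (hp1 x)).ne'
          have := (lt_of_lt_of_le one_pos (hp2 x)).ne'
          field_simp
          try ring
  | @div l g h _ hl hg hh hp ih =>
    obtain ⟨l', hc, hlen, ih⟩ := ih
    obtain ⟨N1, D1, hN1, hD1, hp1, he1⟩ := ih g hg
    obtain ⟨N2, D2, hN2, hD2, hp2, he2⟩ := ih h hh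
    have hN2p : ∀ x, 1 ≤ N2 x := by
      intro x
      have := hp x
      rw [he2, le_div_iff₀ (lt_of_lt_of_le one_pos (hp2 x)), one_mul] at this
      exact (hp2 x).trans this
    refine ⟨(fun x => Op.mul.app (D1 x) (N2 x)) :: (fun x => Op.mul.app (N1 x) (D2 x)) :: l',
      .op .mul (.op .mul hc hN1 hD2) ?_ ?_, ?_, ?_⟩
    · exact hD1.imp id (List.mem_cons_of_mem _)
    · exact hN2.imp id (List.mem_cons_of_mem _)
    · simp only [List.length_cons]; omega
    · intro f hf
      have key : (f ∈ B ∨ f ∈ l) ∨ f = (fun x => g x / h x) := by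
        rcases hf with hf | hf
        · exact Or.inl (Or.inl hf)
        · rcases List.mem_cons.1 hf with hf | hf
          · exact Or.inr hf
          · exact Or.inl (Or.inr hf)
      rcases key with hf | rfl
      · obtain ⟨N, D, hN, hD, hp, he⟩ := ih f hf
        exact ⟨N, D, hN.imp id (by intro h; simp [h]), hD.imp id (by intro h; simp [h]), hp, he⟩
      · refine ⟨fun x => Op.mul.app (N1 x) (D2 x), fun x => Op.mul.app (D1 x) (N2 x),
          Or.inr (by simp), Or.inr (by simp), fun x => one_le_mul_of_one_le_of_one_le (hp1 x) (hN2p x), fun x => ?_⟩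
        simp only [Op.app, he1, he2]
        rw [div_div_div_eq]

/-! ### conversion to programs -/

theorem run_append {R : Type*} [Ring R] (p q : SLP) (a : List R) :
    SLP.run (p ++ q) a = SLP.run q (SLP.run p a) := by
  induction p generalizing a with
  | nil => rfl
  | cons c p ih =>
    obtain ⟨o, i, j⟩ := c
    rw [List.cons_append, SLP.run, SLP.run, ih]

theorem run_length {R : Type*} [Ring R] (p : SLP) (a : List R) :
    (SLP.run p a).length = a.length + p.length := by
  induction p generalizing a with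
  | nil => simp [SLP.run]
  | cons c p ih =>
    obtain ⟨o, i, j⟩ := c
    rw [SLP.run, ih]
    simp
    omega

theorem valid_append (p q : SLP) (l : ℕ) :
    SLP.Valid (p ++ q) l ↔ SLP.Valid p l ∧ SLP.Valid q (l + p.length) := by
  induction p generalizing l with
  | nil => simp [SLP.Valid]
  | cons c p ih =>
    obtain ⟨o, i, j⟩ := c
    rw [List.cons_append, SLP.Valid, SLP.Valid, ih]
    rw [List.length_cons]
    constructor
    · rintro ⟨h1, h2, h3, h4⟩
      exact ⟨⟨h1, h2, h3⟩, by convert h4 using 1; omega⟩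
    · rintro ⟨⟨h1, h2, h3⟩, h4⟩
      exact ⟨h1, h2, h3, by convert h4 using 1; omega⟩

/-- A computation over the functions of a list `b` gives a program. -/
theorem Cp.prog {b : List (X → ℝ)} {l : List (X → ℝ)} (hl : Cp False {f | f ∈ b} l) :
    ∃ p : SLP, p.length = l.length ∧ p.Valid b.length ∧
      ∀ x, SLP.run p (b.map fun f => f x) = (b ++ l.reverse).map fun f => f x := by
  induction hl with
  | nil => exact ⟨[], rfl, trivial, fun x => by simp [SLP.run]⟩
  | div hd => exact hd.elim
  | @op l o g h hl hg hh ih =>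
    obtain ⟨p, hlen, hval, hrun⟩ := ih
    have hfind : ∀ f : X → ℝ, (f ∈ {f | f ∈ b} ∨ f ∈ l) →
        ∃ i, i < b.length + l.length ∧ (b ++ l.reverse)[i]? = some f := by
      intro f hf
      have : f ∈ b ++ l.reverse := by
        rw [List.mem_append, List.mem_reverse]; exact hf
      obtain ⟨i, hi, he⟩ := List.getElem_of_mem this
      refine ⟨i, by simpa using hi, ?_⟩
      rw [List.getElem?_eq_getElem hi, he]
    obtain ⟨i, hi, hgi⟩ := hfind g hg
    obtain ⟨j, hj, hhj⟩ := hfind h hh
    refine ⟨p ++ [(o, i, j)], by simp [hlen], ?_, ?_⟩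
    · rw [valid_append]
      refine ⟨hval, ?_⟩
      rw [hlen]
      exact ⟨hi, hj, trivial⟩
    · intro x
      rw [run_append, hrun]
      simp only [SLP.run]
      have e1 : ((b ++ l.reverse).map fun f => f x).getD i 0 = g x := by
        rw [List.getD_eq_getElem?_getD, List.getElem?_map, hgi]; rfl
      have e2 : ((b ++ l.reverse).map fun f => f x).getD j 0 = h x := by
        rw [List.getD_eq_getElem?_getD, List.getElem?_map, hhj]; rfl
      rw [e1, e2]
      simp

end Pool.Agent.SLPQ
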