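import Mathlib

/-!
# Straight line programs, PosSLP, Boolean circuits with PosSLP oracle gates
-/

namespace Pool.Agent.SLPQ

/-- The operations `+`, `-`, `·`. -/
inductive Op
  | add
  | sub
  | mul

/-- The value of an operation. -/
def Op.app {R : Type*} [Ring R] : Op → R → R → R
  | .add, a, b => a + b
  | .sub, a, b => a - b
  | .mul, a, b => a * b

/-- A straight line program: the list of its instructions `a_k = a_i ⊕ a_j`, written `(⊕, i, j)`. -/
abbrev SLP := List (Op × ℕ × ℕ)

/-- The sequence computed by a straight line program from the initial sequence `a`. -/
def SLP.run {R : Type*} [Ring R] : SLP → List R → List R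
  | [], a => a
  | (o, i, j) :: p, a => SLP.run p (a ++ [o.app (a.getD i 0) (a.getD j 0)])

/-- The last number computed. -/
def SLP.val {R : Type*} [Ring R] (p : SLP) (a : List R) : R := (p.run a).getLastD 0

/-- Every instruction refers to earlier entries only (`l` = number of initial entries). -/
def SLP.Valid : SLP → ℕ → Prop
  | [], _ => True
  | (_, i, j) :: p, l => i < l ∧ j < l ∧ SLP.Valid p (l + 1)

/-- `PosSLP`: the program is valid (`a_0 = 1`, `a_k = a_i ⊕ a_j` with `i, j < k`) and computes a
positive integer. -/
def PosSLP (p : SLP) : Prop := p.Valid 1 ∧ 0 < p.val ([1] : List ℤ)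

/-- The number with binary digits `l` (least significant digit first). -/
def num : List Bool → ℕ
  | [] => 0
  | b :: l => b.toNat + 2 * num l

/-- The operation coded by two bits. -/
def opOf : Bool → Bool → Op
  | false, false => .add
  | false, true => .sub
  | true, _ => .mul

/-- The wires of a Boolean circuit that carry the code of one instruction: two wires for the
operation, two lists of wires for the binary digits of the two indices. -/
structure Enc where
  (o₁ o₂ : ℕ)
  (i j : List ℕ)

/-- The instruction coded by the bits on the wires (`w` = values of the wires). -/
def Enc.dec (e : Enc) (w : List Bool) : Op × ℕ × ℕ :=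
  (opOf (w.getD e.o₁ false) (w.getD e.o₂ false),
    num (e.i.map fun k => w.getD k false), num (e.j.map fun k => w.getD k false))

/-- A gate: a NAND of two earlier wires, or a PosSLP oracle gate which reads the binary code of a
straight line program on earlier wires. The layout of the code (number of instructions, number of
binary digits of each address) is fixed by the gate; the operations and the addresses are read from
the wires, so one gate can ask for all programs of its layout. A wire that does not exist reads
`false`. -/
inductive Gate
  | nand (i j : ℕ)
  | pos (p : List Enc)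

open Classical in
/-- The value of a gate. An oracle gate answers `true` iff the coded program is valid and computes
a positive integer. -/
noncomputable def Gate.val (w : List Bool) : Gate → Bool
  | .nand i j => ! (w.getD i false && w.getD j false)
  | .pos p => decide (PosSLP (p.map fun e => e.dec w))

/-- The size of a gate (number of wires it reads, plus one). -/
def Gate.size : Gate → ℕ
  | .nand _ _ => 3
  | .pos p => 1 + (p.map fun e => 2 + e.i.length + e.j.length).sum

/-- A Boolean circuit with PosSLP oracle gates. -/
abbrev Circ := List Gate

/-- All wires of the circuit on the input `w`. -/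
noncomputable def Circ.run : Circ → List Bool → List Bool
  | [], w => w
  | g :: C, w => Circ.run C (w ++ [g.val w])

/-- The output: the last wire. -/
noncomputable def Circ.out (C : Circ) (w : List Bool) : Bool := (C.run w).getLastD false

/-- The size of a circuit. -/
def Circ.size (C : Circ) : ℕ := (C.map Gate.size).sum

/-- A bit as a number. -/
def bit {R : Type*} [Ring R] (b : Bool) : R := if b then 1 else 0

/-! ### computations with real numbers -/

/-- Computations with real numbers, from the number `1`, the last number first: `+`, `-`, `·` of
earlier numbers, division by a nonzero earlier number and, if `q` holds, the square root of a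
nonnegative earlier number (ruler and compass). -/
inductive Rt (q : Prop) : List ℝ → Prop
  | nil : Rt q []
  | op {l : List ℝ} (o : Op) {a b : ℝ} (hl : Rt q l) (ha : a = 1 ∨ a ∈ l) (hb : b = 1 ∨ b ∈ l) :
      Rt q (o.app a b :: l)
  | div {l : List ℝ} {a b : ℝ} (hl : Rt q l) (ha : a = 1 ∨ a ∈ l) (hb : b = 1 ∨ b ∈ l)
      (h0 : b ≠ 0) : Rt q (a / b :: l)
  | sqrt {l : List ℝ} {a : ℝ} (hq : q) (hl : Rt q l) (ha : a = 1 ∨ a ∈ l) (h0 : 0 ≤ a) :
      Rt q (√a :: l)

/-- The coordinates of `z` are computed together, from `1`, in at most `s` steps with `+`, `-`,
`·`, division by nonzero numbers and, if `q` holds, square roots of nonnegative numbers. -/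
def Cmpd (q : Prop) (s : ℕ) (z : List ℝ) : Prop :=
  ∃ l : List ℝ, Rt q l ∧ l.length ≤ s ∧ ∀ a ∈ z, a = 1 ∨ a ∈ l

end Pool.Agent.SLPQ
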