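import Pool.Agent.Lib_helper53.SLPQ.Sep

/-!
# Computations with division and (if `q`) square roots
-/

namespace Pool.Agent.SLPQ

theorem mem1_cons {l : List ℝ} {c b : ℝ} (hc : c = 1 ∨ c ∈ b :: l) : (c = 1 ∨ c ∈ l) ∨ c = b := by
  rcases hc with h | h
  · exact Or.inl (Or.inl h)
  · rcases List.mem_cons.1 h with h | h
    · exact Or.inr h
    · exact Or.inl (Or.inr h)

theorem mem1_of {l l' : List ℝ} {c : ℝ} (hc : c = 1 ∨ c ∈ l) (h : ∀ a ∈ l, a ∈ l') :
    c = 1 ∨ c ∈ l' := hc.imp id (h c)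

/-- Numerators and denominators of a computation with divisions. -/
theorem Rt.toSq {q : Prop} {l : List ℝ} (hl : Rt q l) : ∃ l', Sq l' ∧ l'.length ≤ 4 * l.length ∧
    ∀ a, (a = 1 ∨ a ∈ l) → ∃ P Q, (P = 1 ∨ P ∈ l') ∧ (Q = 1 ∨ Q ∈ l') ∧ 0 < Q ∧ a = P / Q := by
  induction hl with
  | nil =>
    refine ⟨[], .nil, by simp, fun a ha => ⟨1, 1, Or.inl rfl, Or.inl rfl, one_pos, ?_⟩⟩
    have : a = 1 := by simpa using ha
    rw [this]; norm_num
  | @op l o a b hl ha hb ih =>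
    obtain ⟨l', hl', hlen, ih⟩ := ih
    obtain ⟨P1, Q1, hP1, hQ1, hq1, he1⟩ := ih a ha
    obtain ⟨P2, Q2, hP2, hQ2, hq2, he2⟩ := ih b hb
    cases o with
    | mul =>
      refine ⟨Op.mul.app Q1 Q2 :: Op.mul.app P1 P2 :: l',
        .op .mul (.op .mul hl' hP1 hP2) (mem1_of hQ1 (by intro a h; simp [h]))
          (mem1_of hQ2 (by intro a h; simp [h])), by simp only [List.length_cons]; omega, ?_⟩
      intro c hc
      rcases mem1_cons hc with hc | rfl
      · obtain ⟨P, Q, hP, hQ, h1, h2⟩ := ih c hc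
        exact ⟨P, Q, mem1_of hP (by intro a h; simp [h]), mem1_of hQ (by intro a h; simp [h]),
          h1, h2⟩
      · refine ⟨Op.mul.app P1 P2, Op.mul.app Q1 Q2, Or.inr (by simp), Or.inr (by simp),
          mul_pos hq1 hq2, ?_⟩
        simp only [Op.app, he1, he2]
        rw [div_mul_div_comm]
    | add =>
      refine ⟨Op.add.app (Op.mul.app P1 Q2) (Op.mul.app P2 Q1) :: Op.mul.app P2 Q1 ::
        Op.mul.app P1 Q2 :: Op.mul.app Q1 Q2 :: l',
        .op .add (.op .mul (.op .mul (.op .mul hl' hQ1 hQ2) (mem1_of hP1 (by intro a h; simp [h]))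
          (mem1_of hQ2 (by intro a h; simp [h]))) (mem1_of hP2 (by intro a h; simp [h]))
          (mem1_of hQ1 (by intro a h; simp [h]))) (Or.inr (by simp)) (Or.inr (by simp)),
          by simp only [List.length_cons]; omega, ?_⟩
      intro c hc
      rcases mem1_cons hc with hc | rfl
      · obtain ⟨P, Q, hP, hQ, h1, h2⟩ := ih c hc
        exact ⟨P, Q, mem1_of hP (by intro a h; simp [h]), mem1_of hQ (by intro a h; simp [h]),
          h1, h2⟩
      · refine ⟨_, Op.mul.app Q1 Q2, Or.inr (List.mem_cons_self), Or.inr (by simp),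
          mul_pos hq1 hq2, ?_⟩
        simp only [Op.app, he1, he2]
        have := hq1.ne'
        have := hq2.ne'
        field_simp
        try ring
    | sub =>
      refine ⟨Op.sub.app (Op.mul.app P1 Q2) (Op.mul.app P2 Q1) :: Op.mul.app P2 Q1 ::
        Op.mul.app P1 Q2 :: Op.mul.app Q1 Q2 :: l',
        .op .sub (.op .mul (.op .mul (.op .mul hl' hQ1 hQ2) (mem1_of hP1 (by intro a h; simp [h]))
          (mem1_of hQ2 (by intro a h; simp [h]))) (mem1_of hP2 (by intro a h; simp [h]))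
          (mem1_of hQ1 (by intro a h; simp [h]))) (Or.inr (by simp)) (Or.inr (by simp)),
          by simp only [List.length_cons]; omega, ?_⟩
      intro c hc
      rcases mem1_cons hc with hc | rfl
      · obtain ⟨P, Q, hP, hQ, h1, h2⟩ := ih c hc
        exact ⟨P, Q, mem1_of hP (by intro a h; simp [h]), mem1_of hQ (by intro a h; simp [h]),
          h1, h2⟩
      · refine ⟨_, Op.mul.app Q1 Q2, Or.inr (List.mem_cons_self), Or.inr (by simp),
          mul_pos hq1 hq2, ?_⟩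
        simp only [Op.app, he1, he2]
        have := hq1.ne'
        have := hq2.ne'
        field_simp
        try ring
  | @div l a b hl ha hb h0 ih =>
    obtain ⟨l', hl', hlen, ih⟩ := ih
    obtain ⟨P1, Q1, hP1, hQ1, hq1, he1⟩ := ih a ha
    obtain ⟨P2, Q2, hP2, hQ2, hq2, he2⟩ := ih b hb
    have hP20 : P2 ≠ 0 := by rintro rfl; rw [zero_div] at he2; exact h0 he2
    refine ⟨Op.mul.app (Op.mul.app P1 Q2) P2 :: Op.mul.app P1 Q2 ::
      Op.mul.app Q1 (Op.mul.app P2 P2) :: Op.mul.app P2 P2 :: l',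
      .op .mul (.op .mul (.op .mul (.op .mul hl' hP2 hP2) (mem1_of hQ1 (by intro a h; simp [h]))
        (Or.inr (by simp))) (mem1_of hP1 (by intro a h; simp [h]))
        (mem1_of hQ2 (by intro a h; simp [h]))) (Or.inr (by simp))
        (mem1_of hP2 (by intro a h; simp [h])),
        by simp only [List.length_cons]; omega, ?_⟩
    intro c hc
    rcases mem1_cons hc with hc | rfl
    · obtain ⟨P, Q, hP, hQ, h1, h2⟩ := ih c hc
      exact ⟨P, Q, mem1_of hP (by intro a h; simp [h]), mem1_of hQ (by intro a h; simp [h]),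
        h1, h2⟩
    · refine ⟨_, Op.mul.app Q1 (Op.mul.app P2 P2), Or.inr (List.mem_cons_self), Or.inr (by simp),
        mul_pos hq1 (mul_self_pos.2 hP20), ?_⟩
      simp only [Op.app, he1, he2]
      have := hq1.ne'
      have := hq2.ne'
      field_simp
  | @sqrt l a hq hl ha h0 ih =>
    obtain ⟨l', hl', hlen, ih⟩ := ih
    obtain ⟨P1, Q1, hP1, hQ1, hq1, he1⟩ := ih a ha
    have hPQ : 0 ≤ Op.mul.app P1 Q1 := by
      have : P1 = a * Q1 := by rw [he1, div_mul_cancel₀ _ hq1.ne']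
      simp only [Op.app]
      rw [this]
      positivity
    refine ⟨√(Op.mul.app P1 Q1) :: Op.mul.app P1 Q1 :: l',
      .sqrt (.op .mul hl' hP1 hQ1) (Or.inr (by simp)) hPQ, by simp only [List.length_cons]; omega,
      ?_⟩
    intro c hc
    rcases mem1_cons hc with hc | rfl
    · obtain ⟨P, Q, hP, hQ, h1, h2⟩ := ih c hc
      exact ⟨P, Q, mem1_of hP (by intro a h; simp [h]), mem1_of hQ (by intro a h; simp [h]),
        h1, h2⟩
    · refine ⟨_, Q1, Or.inr (List.mem_cons_self), mem1_of hQ1 (by intro a h; simp [h]), hq1, ?_⟩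
      have hP1' : P1 = a * Q1 := by rw [he1, div_mul_cancel₀ _ hq1.ne']
      rw [eq_div_iff hq1.ne']
      simp only [Op.app]
      rw [hP1', show a * Q1 * Q1 = a * Q1 ^ 2 by ring, Real.sqrt_mul h0, Real.sqrt_sq hq1.le]

theorem Sq.bound {l : List ℝ} (hl : Sq l) : ∀ a, (a = 1 ∨ a ∈ l) → |a| ≤ 2 ^ 2 ^ l.length := by
  induction hl with
  | nil =>
    intro a ha
    have : a = 1 := by simpa using ha
    rw [this]; norm_num
  | @op l o a b hl ha hb ih =>
    intro c hc
    rw [List.length_cons, dexp_succ]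
    have hM := two_le_dexp l.length
    rcases mem1_cons hc with hc | rfl
    · have := ih c hc
      nlinarith
    · exact op_bound o hM (ih a ha) (ih b hb)
  | @sqrt l a hl ha h0 ih =>
    intro c hc
    rw [List.length_cons, dexp_succ]
    have hM := two_le_dexp l.length
    rcases mem1_cons hc with hc | rfl
    · have := ih c hc
      nlinarith
    · have h1 := ih a ha
      rw [abs_of_nonneg h0] at h1
      rw [abs_of_nonneg (Real.sqrt_nonneg a)]
      rw [Real.sqrt_le_left (by positivity)]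
      have hM2 : (2:ℝ) ^ 2 ^ l.length ≤ (2 ^ 2 ^ l.length) ^ 2 := by nlinarith
      have hM3 : ((2:ℝ) ^ 2 ^ l.length) ^ 2 ≤ ((2 ^ 2 ^ l.length) ^ 2) ^ 2 := by nlinarith
      linarith

/-- The bound for computations of length `s`. -/
noncomputable def BD (s : ℕ) : ℝ := 2 ^ 2 ^ (20 * s + 4)

theorem BD_mono {s t : ℕ} (h : s ≤ t) : BD s ≤ BD t :=
  pow_le_pow_right₀ (by norm_num) (Nat.pow_le_pow_right (by norm_num) (by omega))

theorem BD_ge (s : ℕ) : 16 ≤ BD s := by
  have : (16:ℝ) = 2 ^ 2 ^ 2 := by norm_num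
  rw [this]
  exact pow_le_pow_right₀ (by norm_num) (Nat.pow_le_pow_right (by norm_num) (by omega))

theorem BD_aux (s : ℕ) : (2:ℝ) ^ 2 ^ (4 * s) * 2 ^ 2 ^ (5 * (4 * s) + 3) ≤ BD s := by
  rw [← pow_add, BD]
  refine pow_le_pow_right₀ (by norm_num) ?_
  have h1 : 2 ^ (4 * s) ≤ 2 ^ (20 * s + 3) := Nat.pow_le_pow_right (by norm_num) (by omega)
  have h2 : 5 * (4 * s) + 3 = 20 * s + 3 := by ring
  have h3 : 2 ^ (20 * s + 4) = 2 ^ (20 * s + 3) * 2 := by
    rw [show 20 * s + 4 = (20 * s + 3) + 1 by ring, pow_succ]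
  rw [h2]
  omega

theorem Rt.bds {q : Prop} {l : List ℝ} (hl : Rt q l) {a : ℝ} (ha : a = 1 ∨ a ∈ l) :
    |a| ≤ BD l.length ∧ (a ≠ 0 → (BD l.length)⁻¹ ≤ |a|) := by
  obtain ⟨l', hl', hlen, h⟩ := hl.toSq
  obtain ⟨P, Q, hP, hQ, hQ0, he⟩ := h a ha
  have m1 : (2:ℝ) ^ 2 ^ l'.length ≤ 2 ^ 2 ^ (4 * l.length) :=
    pow_le_pow_right₀ (by norm_num) (Nat.pow_le_pow_right (by norm_num) hlen)
  have m2 : (2:ℝ) ^ 2 ^ (5 * l'.length + 3) ≤ 2 ^ 2 ^ (5 * (4 * l.length) + 3) :=
    pow_le_pow_right₀ (by norm_num) (Nat.pow_le_pow_right (by norm_num) (by omega))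
  have hbP := (hl'.bound P hP).trans m1
  have hbQ := (hl'.bound Q hQ).trans m1
  rw [abs_of_pos hQ0] at hbQ
  have hsQ := hl'.sep hQ hQ0.ne'
  rw [abs_of_pos hQ0] at hsQ
  have hsQ' : ((2:ℝ) ^ 2 ^ (5 * (4 * l.length) + 3))⁻¹ ≤ Q :=
    (inv_anti₀ (by positivity) m2).trans hsQ
  have haux := BD_aux l.length
  set A : ℝ := 2 ^ 2 ^ (4 * l.length)
  set C : ℝ := 2 ^ 2 ^ (5 * (4 * l.length) + 3)
  have hA : 0 < A := by positivity
  have hC : 0 < C := by positivity
  refine ⟨?_, fun ha0 => ?_⟩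
  · rw [he, abs_div, abs_of_pos hQ0]
    calc |P| / Q ≤ A / C⁻¹ := div_le_div₀ hA.le hbP (by positivity) hsQ'
      _ = A * C := by rw [div_inv_eq_mul]
      _ ≤ _ := haux
  · have hP0 : P ≠ 0 := by rintro rfl; rw [zero_div] at he; exact ha0 he
    have hsP := hl'.sep hP hP0
    have hsP' : C⁻¹ ≤ |P| := (inv_anti₀ (by positivity) m2).trans hsP
    rw [he, abs_div, abs_of_pos hQ0]
    calc (BD l.length)⁻¹ ≤ (A * C)⁻¹ := inv_anti₀ (by positivity) haux
      _ = C⁻¹ / A := by rw [mul_inv, div_eq_mul_inv, mul_comm]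
      _ ≤ |P| / Q := div_le_div₀ (abs_nonneg _) hsP' hQ0 hbQ

end Pool.Agent.SLPQ
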