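import Pool.Agent.Lib_helper53.SLPQ.Bnd

/-!
# Root separation for computations with square roots
-/

namespace Pool.Agent.SLPQ

open Matrix Polynomial

theorem root_bound {ι : Type} [Fintype ι] (A : Matrix ι ι ℂ) {H : ℝ}
    (hA : ∀ i j, ‖A i j‖ ≤ H) (z : ℂ) (w : ι → ℂ) (hw : w ≠ 0) (hz : A *ᵥ w = z • w) :
    ‖z‖ ≤ Fintype.card ι * H := by
  obtain ⟨k, hk⟩ : ∃ k, w k ≠ 0 := by
    by_contra h
    push Not at h
    exact hw (funext h)
  haveI : Nonempty ι := ⟨k⟩
  obtain ⟨i, hi⟩ := Finite.exists_max fun i => ‖w i‖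
  have hpos : 0 < ‖w i‖ := lt_of_lt_of_le (norm_pos_iff.2 hk) (hi k)
  have h1 : z * w i = ∑ j, A i j * w j := by
    have := congrFun hz i
    rw [Matrix.mulVec, dotProduct] at this
    rw [this]; rfl
  have h2 : ‖z‖ * ‖w i‖ ≤ (Fintype.card ι * H) * ‖w i‖ := by
    rw [← norm_mul, h1]
    refine (norm_sum_le _ _).trans ?_
    calc ∑ j, ‖A i j * w j‖ ≤ ∑ _j : ι, H * ‖w i‖ := by
          refine Finset.sum_le_sum fun j _ => ?_
          rw [norm_mul]
          exact mul_le_mul (hA i j) (hi j) (norm_nonneg _) ((norm_nonneg _).trans (hA i j))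
      _ = (Fintype.card ι * H) * ‖w i‖ := by simp [mul_assoc]
  exact le_of_mul_le_mul_right h2 hpos

theorem det_eq_zero {K : Type} [Field K] {ι : Type} [Fintype ι] [DecidableEq ι]
    (A : Matrix ι ι K) (v : K) : A.charpoly.eval v = 0 ↔ ∃ w : ι → K, w ≠ 0 ∧ A *ᵥ w = v • w := by
  rw [Matrix.eval_charpoly, ← Matrix.exists_mulVec_eq_zero_iff]
  refine exists_congr fun w => and_congr_right fun _ => ?_
  rw [Matrix.sub_mulVec, sub_eq_zero]
  have : (Matrix.scalar ι v : Matrix ι ι K) *ᵥ w = v • w := by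
    ext i
    simp [Matrix.scalar_apply, Matrix.mulVec_diagonal]
  rw [this, eq_comm]

theorem sep_mat {ι : Type} [Fintype ι] [DecidableEq ι] (M : Matrix ι ι ℤ) {H : ℝ}
    (hM : ∀ i j, |(M i j : ℝ)| ≤ H) (hH0 : 0 ≤ H) (w : ι → ℝ) (hw : w ≠ 0) (v : ℝ)
    (hv : (M.map (Int.cast : ℤ → ℝ)) *ᵥ w = v • w) (hv0 : v ≠ 0) :
    1 ≤ |v| * (1 + Fintype.card ι * H) ^ Fintype.card ι := by
  set d := Fintype.card ι with hd
  have hB : 0 ≤ (d:ℝ) * H := by positivity
  have hB1 : 1 ≤ (1 + (d:ℝ) * H) ^ d := one_le_pow₀ (by linarith)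
  rcases le_total 1 |v| with h1 | h1
  · nlinarith
  have hv1 : 0 < |v| := abs_pos.2 hv0
  set χ : ℤ[X] := M.charpoly with hχ
  have hmon : χ.Monic := Matrix.charpoly_monic M
  have hdeg : χ.natDegree = d := Matrix.charpoly_natDegree_eq_dim M
  -- root
  have hroot : (χ.map (Int.castRingHom ℝ)).eval v = 0 := by
    rw [hχ, ← Matrix.charpoly_map]
    exact (det_eq_zero _ v).2 ⟨w, hw, hv⟩
  have hsum : ∑ i ∈ Finset.range (d + 1), (χ.coeff i : ℝ) * v ^ i = 0 := by
    rw [Polynomial.eval_eq_sum_range, Polynomial.natDegree_map_eq_of_injective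
      Int.cast_injective, hdeg] at hroot
    simpa using hroot
  -- coefficients
  have hcoef : ∀ i, |(χ.coeff i : ℝ)| ≤ (d * H) ^ (d - i) * d.choose i := by
    intro i
    have h := Polynomial.coeff_le_of_roots_le (p := χ) (f := Int.castRingHom ℂ) (B := d * H) i
      hmon (IsAlgClosed.splits _) ?_
    · rw [hdeg] at h
      refine le_trans (le_of_eq ?_) h
      rw [Polynomial.coeff_map]
      simp
    · intro z hz
      rw [Polynomial.mem_roots', Polynomial.IsRoot.def] at hz
      have h2 := hz.2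
      rw [hχ, ← Matrix.charpoly_map] at h2
      obtain ⟨u, hu, hu2⟩ := (det_eq_zero _ z).1 h2
      refine root_bound _ ?_ z u hu hu2
      intro i j
      rw [Matrix.map_apply]
      have := hM i j
      simpa using this
  have hS : ∑ i ∈ Finset.range (d + 1), |(χ.coeff i : ℝ)| ≤ (1 + d * H) ^ d := by
    rw [add_pow]
    refine Finset.sum_le_sum fun i _ => ?_
    rw [one_pow, one_mul]
    exact hcoef i
  -- trailing coefficient
  set j := χ.natTrailingDegree with hj
  have hcj : χ.coeff j ≠ 0 := by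
    have := Polynomial.trailingCoeff_nonzero_iff_nonzero.2 hmon.ne_zero
    exact this
  have hcj1 : (1:ℝ) ≤ |(χ.coeff j : ℝ)| := by
    have := Int.one_le_abs hcj
    exact_mod_cast this
  have hjd : j ∈ Finset.range (d + 1) := by
    rw [Finset.mem_range, ← hdeg]
    exact Nat.lt_succ_of_le (Polynomial.natTrailingDegree_le_natDegree χ)
  rw [← Finset.add_sum_erase _ _ hjd] at hsum
  have h3 : |(χ.coeff j : ℝ)| * |v| ^ j ≤ |v| ^ (j + 1) *
      ∑ i ∈ (Finset.range (d + 1)).erase j, |(χ.coeff i : ℝ)| := by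
    have h4 : (χ.coeff j : ℝ) * v ^ j = - ∑ i ∈ (Finset.range (d + 1)).erase j,
        (χ.coeff i : ℝ) * v ^ i := by linarith
    rw [← abs_pow, ← abs_mul, h4, abs_neg, Finset.mul_sum]
    refine (Finset.abs_sum_le_sum_abs _ _).trans (Finset.sum_le_sum fun i hi => ?_)
    rw [abs_mul, abs_pow, mul_comm]
    rcases Nat.lt_or_ge i j with hij | hij
    · have : χ.coeff i = 0 := Polynomial.coeff_eq_zero_of_lt_natTrailingDegree hij
      rw [this]; simp
    · have hne : i ≠ j := Finset.ne_of_mem_erase hi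
      refine mul_le_mul_of_nonneg_right ?_ (abs_nonneg _)
      exact pow_le_pow_of_le_one (abs_nonneg _) h1 (by omega)
  have h5 : ∑ i ∈ (Finset.range (d + 1)).erase j, |(χ.coeff i : ℝ)| ≤ (1 + d * H) ^ d :=
    (Finset.sum_le_sum_of_subset_of_nonneg (Finset.erase_subset _ _)
      fun _ _ _ => abs_nonneg _).trans hS
  have h6 : |v| ^ j * 1 ≤ |v| ^ j * (|v| * (1 + d * H) ^ d) := by
    calc |v| ^ j * 1 ≤ |v| ^ j * |(χ.coeff j : ℝ)| := by gcongr
      _ = |(χ.coeff j : ℝ)| * |v| ^ j := mul_comm _ _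
      _ ≤ _ := h3
      _ ≤ |v| ^ (j + 1) * (1 + d * H) ^ d := by gcongr
      _ = |v| ^ j * (|v| * (1 + d * H) ^ d) := by ring
  exact le_of_mul_le_mul_left h6 (by positivity)

/-- Division-free computations with square roots, last number first. -/
inductive Sq : List ℝ → Prop
  | nil : Sq []
  | op {l : List ℝ} (o : Op) {a b : ℝ} (hl : Sq l) (ha : a = 1 ∨ a ∈ l) (hb : b = 1 ∨ b ∈ l) :
      Sq (o.app a b :: l)
  | sqrt {l : List ℝ} {a : ℝ} (hl : Sq l) (ha : a = 1 ∨ a ∈ l) (h0 : 0 ≤ a) : Sq (√a :: l)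

/-- All numbers of such a computation are eigenvalues of integer matrices with one common
eigenvector. -/
theorem Sq.mat {l : List ℝ} (hl : Sq l) : ∃ (ι : Type) (_ : Fintype ι) (_ : DecidableEq ι)
    (w : ι → ℝ), Fintype.card ι ≤ 2 ^ l.length ∧ w ≠ 0 ∧ ∀ a, (a = 1 ∨ a ∈ l) →
      ∃ M : Matrix ι ι ℤ, (M.map (Int.cast : ℤ → ℝ)) *ᵥ w = a • w ∧
        ∀ i j, |(M i j : ℝ)| ≤ 2 ^ 4 ^ l.length := by
  induction hl with
  | nil =>
    refine ⟨Unit, inferInstance, inferInstance, fun _ => 1, by simp, ?_, ?_⟩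
    · intro h
      have := congrFun h ()
      simp at this
    · intro a ha
      have ha : a = 1 := by simpa using ha
      subst ha
      refine ⟨1, ?_, ?_⟩
      · ext i
        simp [Matrix.mulVec, dotProduct]
      · intro i j
        simp
  | @op l o a b hl ha hb ih =>
    obtain ⟨ι, _, _, w, hcard, hw, hM⟩ := ih
    refine ⟨ι, inferInstance, inferInstance, w, ?_, hw, ?_⟩
    · rw [List.length_cons, pow_succ]; omega
    · obtain ⟨Ma, hMa, hMa2⟩ := hM a ha
      obtain ⟨Mb, hMb, hMb2⟩ := hM b hb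
      have hpow : (2:ℝ) ^ 4 ^ (l.length + 1) = ((2 ^ 4 ^ l.length) ^ 2) ^ 2 := by
        rw [← pow_mul, ← pow_mul, pow_succ]
      have hH2 : (2:ℝ) ≤ 2 ^ 4 ^ l.length := by
        calc (2:ℝ) = 2 ^ 1 := by norm_num
          _ ≤ _ := pow_le_pow_right₀ (by norm_num) (Nat.one_le_pow _ _ (by norm_num))
      have hHd : (2:ℝ) ^ l.length ≤ 2 ^ 4 ^ l.length :=
        pow_le_pow_right₀ (by norm_num) (by
          have : l.length < 4 ^ l.length := Nat.lt_pow_self (by norm_num)
          omega)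
      have hH3 : 2 * (2:ℝ) ^ 4 ^ l.length ≤ (2 ^ 4 ^ l.length) ^ 2 := by nlinarith
      have hH4 : ((2:ℝ) ^ 4 ^ l.length) ^ 2 ≤ ((2 ^ 4 ^ l.length) ^ 2) ^ 2 := by
        have : 1 ≤ ((2:ℝ) ^ 4 ^ l.length) ^ 2 := by nlinarith
        nlinarith
      have hcardR : (Fintype.card ι : ℝ) ≤ 2 ^ l.length := by exact_mod_cast hcard
      have hold : ∀ c, (c = 1 ∨ c ∈ l) → ∃ M : Matrix ι ι ℤ,
          (M.map (Int.cast : ℤ → ℝ)) *ᵥ w = c • w ∧
          ∀ i j, |(M i j : ℝ)| ≤ 2 ^ 4 ^ (o.app a b :: l).length := by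
        intro c hc
        obtain ⟨M, h1, h2⟩ := hM c hc
        refine ⟨M, h1, fun i j => (h2 i j).trans ?_⟩
        rw [List.length_cons, hpow]
        linarith
      intro c hc
      have hc' : (c = 1 ∨ c ∈ l) ∨ c = o.app a b := by
        rcases hc with h | h
        · exact Or.inl (Or.inl h)
        · rcases List.mem_cons.1 h with h | h
          · exact Or.inr h
          · exact Or.inl (Or.inr h)
      rcases hc' with hc' | rfl
      · exact hold c hc'
      · rw [List.length_cons, hpow]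
        cases o with
        | add =>
          refine ⟨Ma + Mb, ?_, fun i j => ?_⟩
          · rw [Matrix.map_add _ (by intro x y; push_cast; ring), Matrix.add_mulVec, hMa, hMb,
              Op.app, add_smul]
          · rw [Matrix.add_apply]
            push_cast
            have := abs_add_le (Ma i j : ℝ) (Mb i j)
            have := hMa2 i j
            have := hMb2 i j
            linarith
        | sub =>
          refine ⟨Ma - Mb, ?_, fun i j => ?_⟩
          · rw [Matrix.map_sub _ (by intro x y; push_cast; ring), Matrix.sub_mulVec, hMa, hMb,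
              Op.app, sub_smul]
          · rw [Matrix.sub_apply]
            push_cast
            have := abs_sub (Ma i j : ℝ) (Mb i j)
            have := hMa2 i j
            have := hMb2 i j
            linarith
        | mul =>
          refine ⟨Ma * Mb, ?_, fun i j => ?_⟩
          · have e1 : (Ma * Mb).map (Int.cast : ℤ → ℝ) =
              (Ma.map (Int.cast : ℤ → ℝ)) * (Mb.map (Int.cast : ℤ → ℝ)) :=
              Matrix.map_mul (f := Int.castRingHom ℝ)
            rw [e1, ← Matrix.mulVec_mulVec, hMb, Matrix.mulVec_smul, hMa, smul_smul, Op.app,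
              mul_comm]
          · rw [Matrix.mul_apply]
            push_cast
            refine (Finset.abs_sum_le_sum_abs _ _).trans ?_
            calc ∑ k, |(Ma i k : ℝ) * (Mb k j : ℝ)|
                ≤ ∑ _k : ι, (2 ^ 4 ^ l.length : ℝ) * 2 ^ 4 ^ l.length := by
                  refine Finset.sum_le_sum fun k _ => ?_
                  rw [abs_mul]
                  exact mul_le_mul (hMa2 i k) (hMb2 k j) (abs_nonneg _) (by positivity)
              _ = Fintype.card ι * (2 ^ 4 ^ l.length : ℝ) ^ 2 := by simp [pow_two]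
              _ ≤ (2 ^ 4 ^ l.length : ℝ) * (2 ^ 4 ^ l.length : ℝ) ^ 2 := by
                  gcongr; linarith
              _ ≤ ((2 ^ 4 ^ l.length : ℝ) ^ 2) ^ 2 := by
                  have : (2:ℝ) ^ 4 ^ l.length ≤ (2 ^ 4 ^ l.length) ^ 2 := by nlinarith
                  nlinarith [sq_nonneg ((2:ℝ) ^ 4 ^ l.length)]
  | @sqrt l a hl ha h0 ih =>
    obtain ⟨ι, _, _, w, hcard, hw, hM⟩ := ih
    refine ⟨ι ⊕ ι, inferInstance, inferInstance, Sum.elim w (√a • w), ?_, ?_, ?_⟩
    · rw [List.length_cons, pow_succ, Fintype.card_sum]; omega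
    · intro h
      apply hw
      ext i
      have := congrFun h (Sum.inl i)
      simpa using this
    · obtain ⟨Ma, hMa, hMa2⟩ := hM a ha
      have hle : (2:ℝ) ^ 4 ^ l.length ≤ 2 ^ 4 ^ (l.length + 1) :=
        pow_le_pow_right₀ (by norm_num) (Nat.pow_le_pow_right (by norm_num) (by omega))
      have hone : (1:ℝ) ≤ 2 ^ 4 ^ (l.length + 1) := one_le_pow₀ (by norm_num)
      intro c hc
      have hc' : (c = 1 ∨ c ∈ l) ∨ c = √a := by
        rcases hc with h | h
        · exact Or.inl (Or.inl h)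
        · rcases List.mem_cons.1 h with h | h
          · exact Or.inr h
          · exact Or.inl (Or.inr h)
      rw [List.length_cons]
      rcases hc' with hc' | rfl
      · obtain ⟨M, h1, h2⟩ := hM c hc'
        refine ⟨Matrix.fromBlocks M 0 0 M, ?_, ?_⟩
        · rw [Matrix.fromBlocks_map, Matrix.fromBlocks_mulVec]
          simp only [Sum.elim_comp_inl, Sum.elim_comp_inr, Matrix.map_zero _ Int.cast_zero,
            Matrix.zero_mulVec, add_zero, zero_add, Matrix.mulVec_smul, h1]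
          ext i
          cases i <;> simp <;> ring
        · rintro (i | i) (j | j)
          · exact (h2 i j).trans hle
          · simp
          · simp
          · exact (h2 i j).trans hle
      · refine ⟨Matrix.fromBlocks 0 1 Ma 0, ?_, ?_⟩
        · have e1 : (1 : Matrix ι ι ℤ).map (Int.cast : ℤ → ℝ) = 1 :=
            Matrix.map_one _ Int.cast_zero Int.cast_one
          rw [Matrix.fromBlocks_map, Matrix.fromBlocks_mulVec, e1]
          simp only [Sum.elim_comp_inl, Sum.elim_comp_inr, Matrix.map_zero _ Int.cast_zero,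
            Matrix.zero_mulVec, add_zero, zero_add, Matrix.one_mulVec, hMa]
          ext i
          cases i
          · simp
          · simp only [Sum.elim_inr, Pi.smul_apply, smul_eq_mul]
            rw [← mul_assoc, Real.mul_self_sqrt h0]
        · rintro (i | i) (j | j)
          · simp
          · show |((1 : Matrix ι ι ℤ) i j : ℝ)| ≤ _
            rw [Matrix.one_apply]
            split_ifs
            · simpa using hone
            · simp
          · exact (hMa2 i j).trans hle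
          · simp

/-- **Separation.** A nonzero number of such a computation is not doubly exponentially small. -/
theorem Sq.sep {l : List ℝ} (hl : Sq l) {a : ℝ} (ha : a = 1 ∨ a ∈ l) (ha0 : a ≠ 0) :
    ((2:ℝ) ^ 2 ^ (5 * l.length + 3))⁻¹ ≤ |a| := by
  obtain ⟨ι, _, _, w, hcard, hw, hM⟩ := hl.mat
  obtain ⟨M, h1, h2⟩ := hM a ha
  have h := sep_mat M h2 (by positivity) w hw a h1 ha0
  set s := l.length
  set d := Fintype.card ι
  have hbound : (1 + (d:ℝ) * 2 ^ 4 ^ s) ^ d ≤ 2 ^ 2 ^ (5 * s + 3) := by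
    have hdR : (d:ℝ) ≤ 2 ^ s := by exact_mod_cast hcard
    have e1 : 1 + (d:ℝ) * 2 ^ 4 ^ s ≤ 2 ^ (s + 4 ^ s + 1) := by
      have : (d:ℝ) * 2 ^ 4 ^ s ≤ 2 ^ (s + 4 ^ s) := by
        rw [pow_add]; gcongr
      have h1 : (1:ℝ) ≤ 2 ^ (s + 4 ^ s) := one_le_pow₀ (by norm_num)
      rw [pow_succ]
      linarith
    calc (1 + (d:ℝ) * 2 ^ 4 ^ s) ^ d ≤ (2 ^ (s + 4 ^ s + 1)) ^ d := by gcongr
      _ ≤ (2 ^ (s + 4 ^ s + 1)) ^ 2 ^ s :=
          pow_le_pow_right₀ (one_le_pow₀ (by norm_num)) hcard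
      _ = 2 ^ ((s + 4 ^ s + 1) * 2 ^ s) := by rw [← pow_mul]
      _ ≤ 2 ^ 2 ^ (5 * s + 3) := by
          refine pow_le_pow_right₀ (by norm_num) ?_
          have f1 : s < 2 ^ s := Nat.lt_two_pow_self
          have f2 : 4 ^ s = 2 ^ s * 2 ^ s := by
            rw [show (4:ℕ) = 2 * 2 by norm_num, mul_pow]
          have f3 : 2 ^ (5 * s + 3) = 8 * ((2 ^ s) ^ 5) := by
            rw [pow_add, mul_comm 5 s, pow_mul]; ring
          have f4 : 1 ≤ 2 ^ s := Nat.one_le_two_pow
          rw [f2, f3]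
          generalize 2 ^ s = t at *
          have g1 : s + t * t + 1 ≤ 3 * (t * t) := by nlinarith
          calc (s + t * t + 1) * t ≤ (3 * (t * t)) * t := Nat.mul_le_mul_right _ g1
            _ = 3 * t ^ 3 := by ring
            _ ≤ 8 * t ^ 5 := by
                have : t ^ 3 ≤ t ^ 5 := Nat.pow_le_pow_right f4 (by norm_num)
                omega
  rw [inv_le_iff_one_le_mul₀ (by positivity)]
  calc (1:ℝ) ≤ |a| * (1 + (d:ℝ) * 2 ^ 4 ^ s) ^ d := h
    _ ≤ |a| * 2 ^ 2 ^ (5 * s + 3) := by gcongr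

end Pool.Agent.SLPQ
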