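import Pool.Agent.Lib_helper53.SLPQ.Chain

/-!
# The universal straight line program
-/

namespace Pool.Agent.SLPQ

section poly

variable {R S : Type*} [CommRing R] [CommRing S]

/-- `[num bits = r]` as a polynomial in the bits. -/
def sel : ℕ → List R → R
  | r, [] => if r = 0 then 1 else 0
  | r, b :: l => (if r % 2 = 1 then b else 1 - b) * sel (r / 2) l

/-- The entry with number `num bits` of the list `a` (numbered from `r`). -/
def pick (bits : List R) : ℕ → List R → R
  | _, [] => 0
  | r, a :: as => sel r bits * a + pick bits (r + 1) as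

/-- `[r ≤ num bits < r + k]`. -/
def okb (bits : List R) : ℕ → ℕ → R
  | _, 0 => 0
  | r, k + 1 => sel r bits + okb bits (r + 1) k

/-- The next entry computed by the coded instruction. -/
def Enc.nxt (e : Enc) (w a : List R) : R :=
  w.getD e.o₁ 0 * (pick (e.i.map fun k => w.getD k 0) 0 a * pick (e.j.map fun k => w.getD k 0) 0 a) +
    (1 - w.getD e.o₁ 0) * (pick (e.i.map fun k => w.getD k 0) 0 a +
      pick (e.j.map fun k => w.getD k 0) 0 a -
      (w.getD e.o₂ 0 * pick (e.j.map fun k => w.getD k 0) 0 a +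
        w.getD e.o₂ 0 * pick (e.j.map fun k => w.getD k 0) 0 a))

/-- Validity of the coded instruction. -/
def Enc.okk (e : Enc) (w : List R) (k : ℕ) : R :=
  okb (e.i.map fun k => w.getD k 0) 0 k * okb (e.j.map fun k => w.getD k 0) 0 k

/-- The universal program. -/
def urun (w : List R) : List Enc → List R → R → R
  | [], a, v => v * a.getLastD 0
  | e :: p, a, v => urun w p (a ++ [e.nxt w a]) (v * e.okk w a.length)

def uval (p : List Enc) (w : List R) : R := urun w p [1] 1

/-- The number whose positivity is tested by a gate. -/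
def Gate.phi (w : List R) : Gate → R
  | .nand i j => 1 + 1 - w.getD i 0 - w.getD j 0
  | .pos p => uval p w

/-! ### naturality -/

theorem getD_map (φ : R →+* S) (w : List R) (k : ℕ) : (w.map φ).getD k 0 = φ (w.getD k 0) := by
  conv_lhs => rw [← map_zero φ]
  rw [List.getD_map]

theorem sel_map (φ : R →+* S) (r : ℕ) (l : List R) : sel r (l.map φ) = φ (sel r l) := by
  induction l generalizing r with
  | nil => rw [List.map_nil, sel, sel]; split_ifs <;> simp
  | cons b l ih =>
    rw [List.map_cons, sel, sel, ih, map_mul]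
    split_ifs <;> simp

theorem pick_map (φ : R →+* S) (bits : List R) (r : ℕ) (a : List R) :
    pick (bits.map φ) r (a.map φ) = φ (pick bits r a) := by
  induction a generalizing r with
  | nil => rw [List.map_nil, pick, pick, map_zero]
  | cons b l ih => rw [List.map_cons, pick, pick, ih, map_add, map_mul, sel_map]

theorem okb_map (φ : R →+* S) (bits : List R) (r k : ℕ) :
    okb (bits.map φ) r k = φ (okb bits r k) := by
  induction k generalizing r with
  | zero => rw [okb, okb, map_zero]
  | succ k ih => rw [okb, okb, ih, map_add, sel_map]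

theorem bits_map (φ : R →+* S) (w : List R) (l : List ℕ) :
    (l.map fun k => (w.map φ).getD k 0) = (l.map fun k => w.getD k 0).map φ := by
  rw [List.map_map]
  refine List.map_congr_left fun k _ => ?_
  rw [getD_map]; rfl

theorem nxt_map (φ : R →+* S) (e : Enc) (w a : List R) :
    e.nxt (w.map φ) (a.map φ) = φ (e.nxt w a) := by
  rw [Enc.nxt, Enc.nxt, bits_map, bits_map, pick_map, pick_map, getD_map, getD_map]
  simp only [map_add, map_sub, map_mul, map_one]

theorem okk_map (φ : R →+* S) (e : Enc) (w : List R) (k : ℕ) :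
    e.okk (w.map φ) k = φ (e.okk w k) := by
  rw [Enc.okk, Enc.okk, bits_map, bits_map, okb_map, okb_map, map_mul]

theorem getLastD_map' (φ : R →+* S) (a : List R) : (a.map φ).getLastD 0 = φ (a.getLastD 0) := by
  conv_lhs => rw [← map_zero φ]
  rw [List.getLastD_map]

theorem urun_map (φ : R →+* S) (w : List R) (p : List Enc) (a : List R) (v : R) :
    urun (w.map φ) p (a.map φ) (φ v) = φ (urun w p a v) := by
  induction p generalizing a v with
  | nil => rw [urun, urun, getLastD_map', map_mul]
  | cons e p ih =>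
    rw [urun, urun, nxt_map, okk_map, List.length_map, ← ih, map_mul]
    simp

theorem uval_map (φ : R →+* S) (w : List R) (p : List Enc) :
    uval p (w.map φ) = φ (uval p w) := by
  rw [uval, uval, ← urun_map]
  simp

theorem phi_map (φ : R →+* S) (w : List R) (g : Gate) :
    g.phi (w.map φ) = φ (g.phi w) := by
  cases g with
  | nand i j => rw [Gate.phi, Gate.phi, getD_map, getD_map]; simp
  | pos p => rw [Gate.phi, Gate.phi, uval_map]

/-! ### Boolean inputs -/

theorem bit_getD (w : List Bool) (k : ℕ) :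
    (w.map (bit (R := R))).getD k 0 = bit (w.getD k false) := by
  have h : (0:R) = bit false := rfl
  rw [h, List.getD_map]

theorem sel_bit (r : ℕ) (l : List Bool) :
    sel r (l.map (bit (R := R))) = if num l = r then 1 else 0 := by
  induction l generalizing r with
  | nil =>
    rw [List.map_nil, sel, num]
    by_cases h : r = 0
    · simp [h]
    · rw [if_neg h, if_neg (fun h' => h h'.symm)]
  | cons b l ih =>
    rw [List.map_cons, sel, ih, num]
    by_cases h : num l = r / 2
    · rw [if_pos h, mul_one]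
      rcases Nat.mod_two_eq_zero_or_one r with h2 | h2
      · rw [if_neg (by omega)]
        cases b
        · rw [if_pos (by simp; omega)]; simp [bit]
        · rw [if_neg (by simp; omega)]; simp [bit]
      · rw [if_pos h2]
        cases b
        · rw [if_neg (by simp; omega)]; simp [bit]
        · rw [if_pos (by simp; omega)]; simp [bit]
    · rw [if_neg h, mul_zero, if_neg]
      cases b <;> simp <;> omega

theorem pick_bit (bits : List Bool) (r : ℕ) (a : List R) :
    pick (bits.map bit) r a = if r ≤ num bits then a.getD (num bits - r) 0 else 0 := by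
  induction a generalizing r with
  | nil => rw [pick]; simp
  | cons b l ih =>
    rw [pick, ih, sel_bit]
    by_cases h : num bits = r
    · rw [if_pos h, if_neg (by omega), if_pos (by omega)]
      have : num bits - r = 0 := by omega
      rw [this]; simp
    · rw [if_neg h, zero_mul, zero_add]
      by_cases h2 : r ≤ num bits
      · rw [if_pos (by omega), if_pos h2]
        have : num bits - r = (num bits - (r + 1)) + 1 := by omega
        rw [this, List.getD_cons_succ]
      · rw [if_neg (by omega), if_neg h2]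

theorem okb_bit (bits : List Bool) (r k : ℕ) :
    okb (bits.map (bit (R := R))) r k = if r ≤ num bits ∧ num bits < r + k then 1 else 0 := by
  induction k generalizing r with
  | zero => rw [okb, if_neg (by omega)]
  | succ k ih =>
    rw [okb, ih, sel_bit]
    by_cases h : num bits = r
    · rw [if_pos h, if_neg (by omega), if_pos (by omega), add_zero]
    · rw [if_neg h, zero_add]
      by_cases h2 : r + 1 ≤ num bits ∧ num bits < r + 1 + k
      · rw [if_pos h2, if_pos (by omega)]
      · rw [if_neg h2, if_neg (by omega)]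

theorem bits_bit (w : List Bool) (l : List ℕ) :
    (l.map fun k => (w.map (bit (R := R))).getD k 0) = (l.map fun k => w.getD k false).map bit := by
  rw [List.map_map]
  refine List.map_congr_left fun k _ => ?_
  rw [bit_getD]; rfl

theorem nxt_bit (e : Enc) (w : List Bool) (a : List R) :
    e.nxt (w.map bit) a =
      (e.dec w).1.app (a.getD (e.dec w).2.1 0) (a.getD (e.dec w).2.2 0) := by
  rw [Enc.nxt, bits_bit, bits_bit, pick_bit, pick_bit, bit_getD, bit_getD]
  simp only [Nat.zero_le, if_true, Nat.sub_zero, Enc.dec]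
  cases w.getD e.o₁ false <;> cases w.getD e.o₂ false <;> simp [opOf, Op.app, bit] <;> ring

theorem okk_bit (e : Enc) (w : List Bool) (k : ℕ) :
    e.okk (w.map (bit (R := R))) k =
      if (e.dec w).2.1 < k ∧ (e.dec w).2.2 < k then 1 else 0 := by
  rw [Enc.okk, bits_bit, bits_bit, okb_bit, okb_bit]
  simp only [Nat.zero_le, true_and, zero_add, Enc.dec]
  by_cases h1 : num (e.i.map fun k => w.getD k false) < k
  · by_cases h2 : num (e.j.map fun k => w.getD k false) < k
    · rw [if_pos h1, if_pos h2, if_pos ⟨h1, h2⟩, mul_one]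
    · rw [if_neg h2, mul_zero, if_neg fun h => h2 h.2]
  · rw [if_neg h1, zero_mul, if_neg fun h => h1 h.1]

open Classical in
theorem urun_bit (w : List Bool) (p : List Enc) (a : List R) (v : R) :
    urun (w.map bit) p a v = if SLP.Valid (p.map fun e => e.dec w) a.length
      then v * (SLP.run (p.map fun e => e.dec w) a).getLastD 0 else 0 := by
  induction p generalizing a v with
  | nil => rw [urun]; simp [SLP.Valid, SLP.run]
  | cons e p ih =>
    rw [urun, ih, nxt_bit, okk_bit, List.map_cons]
    rcases e.dec w with ⟨o, i, j⟩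
    simp only [SLP.Valid, SLP.run, List.length_append, List.length_singleton]
    by_cases h1 : i < a.length ∧ j < a.length
    · rw [if_pos h1, mul_one]
      by_cases h2 : SLP.Valid (p.map fun e => e.dec w) (a.length + 1)
      · rw [if_pos h2, if_pos ⟨h1.1, h1.2, h2⟩]
      · rw [if_neg h2, if_neg fun h => h2 h.2.2]
    · rw [if_neg h1, mul_zero, zero_mul, ite_self, if_neg fun h => h1 ⟨h.1, h.2.1⟩]

theorem phi_bit (w : List Bool) (g : Gate) :
    0 < (g.phi (w.map bit) : ℤ) ↔ g.val w = true := by
  cases g with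
  | nand i j =>
    rw [Gate.phi, Gate.val, bit_getD, bit_getD]
    cases w.getD i false <;> cases w.getD j false <;> simp [bit]
  | pos p =>
    rw [Gate.phi, Gate.val, uval, urun_bit]
    simp only [List.length_singleton, one_mul, decide_eq_true_eq]
    rw [PosSLP, SLP.val]
    split_ifs with h
    · simp [h]
    · simp [h]

end poly

/-! ### cost -/

section cost

variable {X : Type*} {d : Prop} {B : Set (X → ℝ)}

theorem sel_cost (h1 : (1 : X → ℝ) ∈ B) (h0 : (0 : X → ℝ) ∈ B) (r : ℕ) (l : List (X → ℝ))
    (hl : ∀ f ∈ l, f ∈ B) : CS d B (2 * l.length) {sel r l} := by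
  induction l generalizing r with
  | nil =>
    rw [sel]
    split_ifs
    · exact CS.mem h1
    · exact CS.mem h0
  | cons b l ih =>
    rw [sel]
    have hb := hl b (by simp)
    have hi := ih (r / 2) (fun f hf => hl f (by simp [hf]))
    split_ifs
    · exact (CS.mul (CS.mem hb) hi).le (by rw [List.length_cons]; omega)
    · exact (CS.mul (CS.sb (CS.mem h1) (CS.mem hb)) hi).le (by rw [List.length_cons]; omega)

theorem pick_cost (h1 : (1 : X → ℝ) ∈ B) (h0 : (0 : X → ℝ) ∈ B) (bits : List (X → ℝ))
    (hb : ∀ f ∈ bits, f ∈ B) (r : ℕ) (a : List (X → ℝ)) (ha : ∀ f ∈ a, f ∈ B) :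
    CS d B (a.length * (2 * bits.length + 2)) {pick bits r a} := by
  induction a generalizing r with
  | nil => exact (CS.mem h0).le (Nat.zero_le _)
  | cons b l ih =>
    rw [pick]
    have h2 := CS.mul (sel_cost (d := d) h1 h0 r bits hb) (CS.mem (ha b (by simp)))
    refine (CS.add h2 (ih (r + 1) (fun f hf => ha f (by simp [hf])))).le ?_
    rw [List.length_cons, add_mul l.length 1, one_mul]
    omega

theorem okb_cost (h1 : (1 : X → ℝ) ∈ B) (h0 : (0 : X → ℝ) ∈ B) (bits : List (X → ℝ))
    (hb : ∀ f ∈ bits, f ∈ B) (r k : ℕ) :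
    CS d B (k * (2 * bits.length + 1)) {okb bits r k} := by
  induction k generalizing r with
  | zero => exact (CS.mem h0).le (by omega)
  | succ k ih =>
    rw [okb]
    refine (CS.add (sel_cost (d := d) h1 h0 r bits hb) (ih (r + 1))).le ?_
    rw [add_mul k 1, one_mul]
    omega

theorem wire_mem (h0 : (0 : X → ℝ) ∈ B) (w : List (X → ℝ)) (hw : ∀ f ∈ w, f ∈ B) (k : ℕ) :
    w.getD k 0 ∈ B := by
  rw [List.getD_eq_getElem?_getD]
  rcases h : w[k]? with _ | f
  · exact h0
  · exact hw f (List.mem_of_getElem? h)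

theorem wires_mem (h0 : (0 : X → ℝ) ∈ B) (w : List (X → ℝ)) (hw : ∀ f ∈ w, f ∈ B) (l : List ℕ) :
    ∀ f ∈ l.map fun k => w.getD k 0, f ∈ B := by
  intro f hf
  obtain ⟨k, -, rfl⟩ := List.mem_map.1 hf
  exact wire_mem h0 w hw k

theorem nxt_cost (h1 : (1 : X → ℝ) ∈ B) (h0 : (0 : X → ℝ) ∈ B) (e : Enc) (w a : List (X → ℝ))
    (hw : ∀ f ∈ w, f ∈ B) (ha : ∀ f ∈ a, f ∈ B) {s : ℕ} (hi : e.i.length ≤ s)
    (hj : e.j.length ≤ s) : CS d B (6 * (a.length * (2 * s + 2)) + 10) {e.nxt w a} := by
  have hp := (pick_cost (d := d) h1 h0 _ (wires_mem h0 w hw e.i) 0 a ha).le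
    (m := a.length * (2 * s + 2)) (Nat.mul_le_mul_left _ (by rw [List.length_map]; omega))
  have hq := (pick_cost (d := d) h1 h0 _ (wires_mem h0 w hw e.j) 0 a ha).le
    (m := a.length * (2 * s + 2)) (Nat.mul_le_mul_left _ (by rw [List.length_map]; omega))
  have ho1 : CS d B 0 {w.getD e.o₁ 0} := CS.mem (wire_mem h0 w hw _)
  have ho2 : CS d B 0 {w.getD e.o₂ 0} := CS.mem (wire_mem h0 w hw _)
  have hone : CS d B 0 {(1 : X → ℝ)} := CS.mem h1
  rw [Enc.nxt]
  exact (CS.add (CS.mul ho1 (CS.mul hp hq)) (CS.mul (CS.sb hone ho1)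
    (CS.sb (CS.add hp hq) (CS.add (CS.mul ho2 hq) (CS.mul ho2 hq))))).le (by omega)

theorem okk_cost (h1 : (1 : X → ℝ) ∈ B) (h0 : (0 : X → ℝ) ∈ B) (e : Enc) (w : List (X → ℝ))
    (hw : ∀ f ∈ w, f ∈ B) {s : ℕ} (hi : e.i.length ≤ s)
    (hj : e.j.length ≤ s) (k : ℕ) : CS d B (2 * (k * (2 * s + 2)) + 1) {e.okk w k} := by
  have hp := (okb_cost (d := d) h1 h0 _ (wires_mem h0 w hw e.i) 0 k).le
    (m := k * (2 * s + 2)) (Nat.mul_le_mul_left _ (by rw [List.length_map]; omega))
  have hq := (okb_cost (d := d) h1 h0 _ (wires_mem h0 w hw e.j) 0 k).le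
    (m := k * (2 * s + 2)) (Nat.mul_le_mul_left _ (by rw [List.length_map]; omega))
  rw [Enc.okk]
  exact (CS.mul hp hq).le (by omega)

theorem last_mem (h0 : (0 : X → ℝ) ∈ B) (a : List (X → ℝ)) (ha : ∀ f ∈ a, f ∈ B) :
    a.getLastD 0 ∈ B := by
  rcases List.eq_nil_or_concat a with rfl | ⟨l, f, rfl⟩
  · exact h0
  · rw [List.concat_eq_append]
    have : (l ++ [f]).getLastD 0 = f := by simp
    rw [this]
    exact ha f (by simp)

theorem urun_cost (h1 : (1 : X → ℝ) ∈ B) (h0 : (0 : X → ℝ) ∈ B) (w : List (X → ℝ))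
    (hw : ∀ f ∈ w, f ∈ B) {s N : ℕ} (p : List Enc) (hp : ∀ e ∈ p, e.i.length ≤ s ∧ e.j.length ≤ s)
    (a : List (X → ℝ)) (ha : ∀ f ∈ a, f ∈ B) (v : X → ℝ) (hv : v ∈ B)
    (hN : a.length + p.length ≤ N) :
    CS d B (p.length * (8 * (N * (2 * s + 2)) + 12) + 1) {urun w p a v} := by
  induction p generalizing B a v with
  | nil =>
    rw [urun]
    exact (CS.mul (CS.mem hv) (CS.mem (last_mem h0 a ha))).le (by omega)
  | cons e p ih =>
    rw [urun]
    have he := hp e (by simp)
    have c1 := nxt_cost (d := d) h1 h0 e w a hw ha he.1 he.2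
    have c2 := CS.mul (CS.mem hv) (okk_cost (d := d) h1 h0 e w hw he.1 he.2 a.length)
    have c3 := c1.union c2
    have c4 := ih (B := B ∪ ({e.nxt w a} ∪ {v * e.okk w a.length})) (Or.inl h1) (Or.inl h0)
      (fun f hf => Or.inl (hw f hf)) (fun e he => hp e (by simp [he])) (a ++ [e.nxt w a]) ?_
      (v * e.okk w a.length) (Or.inr (Or.inr rfl)) ?_
    · refine ((c3.trans c4).le ?_).sub Set.subset_union_right
      have hlen : a.length * (2 * s + 2) ≤ N * (2 * s + 2) := Nat.mul_le_mul_right _ (by omega)
      rw [List.length_cons, add_mul p.length 1, one_mul]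
      omega
    · intro f hf
      rcases List.mem_append.1 hf with h | h
      · exact Or.inl (ha f h)
      · rw [List.mem_singleton] at h
        subst h
        exact Or.inr (Or.inl rfl)
    · rw [List.length_append, List.length_singleton]
      rw [List.length_cons] at hN
      omega

theorem sum_bound (p : List Enc) :
    p.length ≤ (p.map fun e => 2 + e.i.length + e.j.length).sum ∧
    ∀ e ∈ p, e.i.length ≤ (p.map fun e => 2 + e.i.length + e.j.length).sum ∧
      e.j.length ≤ (p.map fun e => 2 + e.i.length + e.j.length).sum := by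
  induction p with
  | nil => simp
  | cons e p ih =>
    rw [List.map_cons, List.sum_cons, List.length_cons]
    refine ⟨by omega, ?_⟩
    intro f hf
    rcases List.mem_cons.1 hf with rfl | hf
    · constructor <;> omega
    · have := ih.2 f hf
      constructor <;> omega

/-- Cost of the number tested by a gate. -/
def gcost (s : ℕ) : ℕ := 30 * (s + 1) ^ 3

theorem phi_cost (h1 : (1 : X → ℝ) ∈ B) (h0 : (0 : X → ℝ) ∈ B) (w : List (X → ℝ))
    (hw : ∀ f ∈ w, f ∈ B) (g : Gate) : CS d B (gcost g.size) {g.phi w} := by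
  cases g with
  | nand i j =>
    rw [Gate.phi]
    have hone : CS d B 0 {(1 : X → ℝ)} := CS.mem h1
    exact (CS.sb (CS.sb (CS.add hone hone) (CS.mem (wire_mem h0 w hw i)))
      (CS.mem (wire_mem h0 w hw j))).le (by rw [gcost, Gate.size]; norm_num)
  | pos p =>
    rw [Gate.phi, uval]
    obtain ⟨h2, h3⟩ := sum_bound p
    refine (urun_cost (d := d) h1 h0 w hw (N := 1 + p.length) p h3 [1] ?_ 1 h1
      (by simp)).le ?_
    · intro f hf
      rw [List.mem_singleton] at hf
      rw [hf]; exact h1
    · rw [gcost, Gate.size]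
      generalize (p.map fun e => 2 + e.i.length + e.j.length).sum = s at h2 h3
      generalize p.length = k at h2
      have : k * (8 * ((1 + k) * (2 * s + 2)) + 12) ≤ s * (8 * ((1 + s) * (2 * s + 2)) + 12) := by
        gcongr
      nlinarith [Nat.zero_le s, Nat.zero_le (s ^ 2), Nat.zero_le (s ^ 3)]

end cost

end Pool.Agent.SLPQ
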