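import Pool.Agent.Lib_helper53.SLPQ.Bnd
import Pool.Agent.Lib_helper53.SLPQ.Univ

/-!
# Simulation of a circuit with PosSLP gates by approximate bits
-/

namespace Pool.Agent.SLPQ

section

variable {R S : Type*} [CommRing R] [CommRing S]

/-- Run of the circuit with approximate bits. -/
def runG (σ : R → R) : Circ → List R → List R
  | [], w => w
  | g :: C, w => runG σ C (w ++ [σ (g.phi w + g.phi w - 1)])

theorem runG_map (φ : R →+* S) {σ : R → R} {τ : S → S} (h : ∀ u, φ (σ u) = τ (φ u)) (C : Circ)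
    (w : List R) : runG τ C (w.map φ) = (runG σ C w).map φ := by
  induction C generalizing w with
  | nil => rfl
  | cons g C ih =>
    rw [runG, runG, ← ih, phi_map]
    congr 1
    simp [h]

end

/-- Evaluation at a point. -/
def ev {X : Type*} (x : X) : (X → ℝ) →+* ℝ := Pi.evalRingHom (fun _ => ℝ) x

theorem ev_apply {X : Type*} (x : X) (f : X → ℝ) : ev x f = f x := rfl

/-- The approximate bit, for functions. -/
noncomputable def sbF {X : Type*} (K : ℕ) (u : X → ℝ) : X → ℝ := fun x => sb K (u x)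

theorem runG_ev {X : Type*} (K : ℕ) (C : Circ) (w : List (X → ℝ)) (x : X) :
    runG (sb K) C (w.map (ev x)) = (runG (sbF K) C w).map (ev x) :=
  runG_map (ev x) (fun _ => rfl) C w

theorem runG_cost {X : Type*} {B : Set (X → ℝ)} (h1 : (1 : X → ℝ) ∈ B) (h0 : (0 : X → ℝ) ∈ B)
    (K s : ℕ) (C : Circ) (hC : ∀ g ∈ C, g.size ≤ s) (w : List (X → ℝ)) (hw : ∀ f ∈ w, f ∈ B) :
    CS True B (C.length * (gcost s + 102 * K + 10)) {f | f ∈ runG (sbF K) C w} := by
  induction C generalizing B w with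
  | nil =>
    refine (CS.zero ?_).le (Nat.zero_le _)
    intro f hf
    exact hw f hf
  | cons g C ih =>
    rw [runG]
    have c1 := phi_cost (d := True) h1 h0 w hw g
    have hone : CS True B 0 {(1 : X → ℝ)} := CS.mem h1
    have c2 := CS.sb (CS.add c1 c1) hone
    -- cheaper: compute phi once
    have c3 := c1.trans (CS.sb (CS.add (CS.mem (d := True) (B := B ∪ {g.phi w}) (g := g.phi w)
      (Or.inr rfl)) (CS.mem (Or.inr rfl))) (CS.mem (g := (1 : X → ℝ)) (Or.inl h1)))
    have c4 := c3.trans (sb_cost (B := B ∪ ({g.phi w} ∪ {g.phi w + g.phi w - 1})) (Or.inl h1) K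
      (u := g.phi w + g.phi w - 1) (Or.inr (Or.inr rfl)))
    have c5 := c4.trans (ih (B := B ∪ ({g.phi w} ∪ {g.phi w + g.phi w - 1} ∪
      {fun x => sb K ((g.phi w + g.phi w - 1) x)})) (Or.inl h1) (Or.inl h0)
      (fun g hg => hC g (by simp [hg])) (w ++ [sbF K (g.phi w + g.phi w - 1)]) ?_)
    · refine (c5.le ?_).sub Set.subset_union_right
      have hg := hC g (by simp)
      have : gcost g.size ≤ gcost s := by
        rw [gcost, gcost]
        gcongr
      rw [List.length_cons, add_mul C.length 1, one_mul]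
      omega
    · intro f hf
      rcases List.mem_append.1 hf with h | h
      · exact Or.inl (hw f h)
      · rw [List.mem_singleton] at h
        subst h
        exact Or.inr (Or.inr rfl)

/-- Closeness of approximate bits to bits. -/
def Near (ε : ℝ) (w : List ℝ) (b : List Bool) : Prop :=
  List.Forall₂ (fun a c => |a - bit c| ≤ ε) w b

theorem bit_mem (b : Bool) : (bit b : ℝ) = 0 ∨ (bit b : ℝ) = 1 := by
  cases b
  · exact Or.inl rfl
  · exact Or.inr rfl

theorem near_lift {ε : ℝ} (hε : ε ≤ 1) {w : List ℝ} {b : List Bool} (h : Near ε w b) :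
    ∃ ws : List (Bool → ℝ), ws.map (ev true) = w ∧ ws.map (ev false) = b.map bit ∧
      ∀ f ∈ ws, |f true| ≤ 2 ∧ |f false| ≤ 2 ∧ |f true - f false| ≤ ε := by
  induction h with
  | nil => exact ⟨[], rfl, rfl, by simp⟩
  | @cons a c w b hac _ ih =>
    obtain ⟨ws, h1, h2, h3⟩ := ih
    refine ⟨(fun t => if t then a else bit c) :: ws, ?_, ?_, ?_⟩
    · rw [List.map_cons, h1, ev_apply]; rfl
    · rw [List.map_cons, h2, ev_apply]; rfl
    · intro f hf
      rcases List.mem_cons.1 hf with rfl | hf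
      · have hb : |(bit c : ℝ)| ≤ 1 := by rcases bit_mem c with h | h <;> rw [h] <;> norm_num
        have e1 : |a| ≤ |a - bit c| + |(bit c : ℝ)| := by
          have := abs_add_le (a - bit c) (bit c)
          simpa using this
        have e2 : |a - bit c| ≤ ε := hac
        refine ⟨?_, ?_, ?_⟩
        · show |a| ≤ 2
          linarith
        · show |(bit c : ℝ)| ≤ 2
          linarith
        · exact hac
      · exact h3 f hf

theorem phi_lip {ε : ℝ} (hε1 : ε ≤ 1) {w : List ℝ} {b : List Bool}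
    (h : Near ε w b) (g : Gate) {L : ℕ} (hL : gcost g.size ≤ L) (hε0 : 0 ≤ ε) :
    |g.phi w - g.phi (b.map bit)| ≤ ε * 2 ^ 2 ^ (L + 1) ∧
      |(g.phi (b.map bit) : ℝ)| ≤ 2 ^ 2 ^ L := by
  obtain ⟨ws, h1, h2, h3⟩ := near_lift hε1 h
  obtain ⟨l, hl, hlen, hmem⟩ := phi_cost (d := False) (B := {f | f ∈ (1 : Bool → ℝ) :: 0 :: ws})
    (by simp) (by simp) ws (by intro f hf; simp [hf]) g
  have hB : ∀ f ∈ {f | f ∈ (1 : Bool → ℝ) :: 0 :: ws},
      |f true| ≤ 2 ∧ |f false| ≤ 2 ∧ |f true - f false| ≤ ε := by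
    intro f hf
    rcases List.mem_cons.1 hf with rfl | hf
    · simp [hε0]
    · rcases List.mem_cons.1 hf with rfl | hf
      · simp [hε0]
      · exact h3 f hf
  have hlip := hl.lip true false (fun f hf => (hB f hf).1) (fun f hf => (hB f hf).2.1)
    (fun f hf => (hB f hf).2.2)
  have hbd := hl.bound false (fun f hf => (hB f hf).2.1)
  have e1 : g.phi w = g.phi ws true := by rw [← h1, phi_map, ev_apply]
  have e2 : g.phi (b.map bit) = g.phi ws false := by rw [← h2, phi_map, ev_apply]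
  rw [e1, e2]
  have hlL : l.length ≤ L := hlen.trans hL
  have m1 : (2:ℝ) ^ 2 ^ (l.length + 1) ≤ 2 ^ 2 ^ (L + 1) :=
    pow_le_pow_right₀ (by norm_num) (Nat.pow_le_pow_right (by norm_num) (by omega))
  have m2 : (2:ℝ) ^ 2 ^ l.length ≤ 2 ^ 2 ^ L :=
    pow_le_pow_right₀ (by norm_num) (Nat.pow_le_pow_right (by norm_num) (by omega))
  rcases hmem _ rfl with hm | hm
  · have := hB _ hm
    refine ⟨?_, this.2.1.trans (two_le_dexp L)⟩
    have m3 := two_le_dexp (L + 1)
    have := this.2.2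
    nlinarith
  · refine ⟨(hlip _ hm).trans (by gcongr), (hbd _ hm).trans m2⟩

theorem phi_int (g : Gate) (b : List Bool) :
    (g.phi (b.map bit) : ℝ) = ((g.phi (b.map bit) : ℤ) : ℝ) := by
  have h : (b.map bit : List ℝ) = (b.map bit : List ℤ).map (Int.castRingHom ℝ) := by
    rw [List.map_map]
    refine List.map_congr_left fun c _ => ?_
    cases c <;> simp [bit]
  rw [h, phi_map]
  rfl

theorem gate_near {ε : ℝ} {w : List ℝ} {b : List Bool} (h : Near ε w b) (g : Gate) {L K : ℕ}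
    (hL : gcost g.size ≤ L) (hε0 : 0 ≤ ε) (hε : ε ≤ ((2:ℝ) ^ 2 ^ (L + 2))⁻¹)
    (hK : 2 ^ (L + 2) ≤ 3 ^ K) :
    |sb K (g.phi w + g.phi w - 1) - bit (g.val b)| ≤ ((2:ℝ) ^ 3 ^ K)⁻¹ := by
  have hM := two_le_dexp L
  have hM1 : (2:ℝ) ^ 2 ^ (L + 1) = (2 ^ 2 ^ L) ^ 2 := dexp_succ L
  have hM2 : (2:ℝ) ^ 2 ^ (L + 2) = ((2 ^ 2 ^ L) ^ 2) ^ 2 := by rw [dexp_succ (L + 1), dexp_succ L]
  have hKK : (2:ℝ) ^ 2 ^ (L + 2) ≤ 2 ^ 3 ^ K := pow_le_pow_right₀ (by norm_num) hK
  set M : ℝ := 2 ^ 2 ^ L with hMdef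
  have hMsq : 4 ≤ M ^ 2 := by nlinarith
  have hε1 : ε ≤ 1 := hε.trans (inv_le_one_of_one_le₀ (by rw [hM2]; nlinarith))
  obtain ⟨h1, h2⟩ := phi_lip hε1 h g hL hε0
  have h3 : ε * 2 ^ 2 ^ (L + 1) ≤ 1 / 4 := by
    rw [hM1]
    rw [hM2] at hε
    have hp : (0:ℝ) < (M ^ 2) ^ 2 := by positivity
    have : ε * (M ^ 2) ^ 2 ≤ 1 := by
      have := mul_le_mul_of_nonneg_right hε hp.le
      rwa [inv_mul_cancel₀ hp.ne'] at this
    have h4 : ε * M ^ 2 * 4 ≤ ε * M ^ 2 * M ^ 2 :=
      mul_le_mul_of_nonneg_left hMsq (by positivity)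
    nlinarith
  have h4 := h1.trans h3
  rw [phi_int] at h4 h2
  have hbound : 4 * M ≤ 2 ^ 3 ^ K / 2 := by
    have : 8 * M ≤ (M ^ 2) ^ 2 := by nlinarith [sq_nonneg (M ^ 2 - 4)]
    linarith [hM2 ▸ hKK]
  rw [abs_le] at h4 h2
  by_cases hv : g.val b = true
  · have hz := (phi_bit b g).2 hv
    have hz1 : (1:ℝ) ≤ ((g.phi (b.map bit) : ℤ) : ℝ) := by exact_mod_cast hz
    rw [hv]
    exact sb_pos K (by linarith [h4.1]) (by linarith [h4.2, h2.2])
  · have hz : ¬ (0 < (g.phi (b.map bit) : ℤ)) := fun h => hv ((phi_bit b g).1 h)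
    have hz1 : ((g.phi (b.map bit) : ℤ) : ℝ) ≤ 0 := by
      have : (g.phi (b.map bit) : ℤ) ≤ 0 := not_lt.1 hz
      exact_mod_cast this
    rw [Bool.not_eq_true] at hv
    rw [hv]
    have : (bit false : ℝ) = 0 := rfl
    rw [this, sub_zero]
    exact sb_npos K (by linarith [h4.2]) (by linarith [h4.1, h2.1])

theorem near_append {ε : ℝ} {w w' : List ℝ} {b b' : List Bool} (h : Near ε w b)
    (h' : Near ε w' b') : Near ε (w ++ w') (b ++ b') :=
  List.rel_append h h'

theorem circ_near {ε : ℝ} {L K : ℕ} (hε0 : 0 ≤ ε) (hε : ε ≤ ((2:ℝ) ^ 2 ^ (L + 2))⁻¹)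
    (hK : 2 ^ (L + 2) ≤ 3 ^ K) (hKε : ((2:ℝ) ^ 3 ^ K)⁻¹ ≤ ε) (C : Circ)
    (hC : ∀ g ∈ C, gcost g.size ≤ L) {w : List ℝ} {b : List Bool} (h : Near ε w b) :
    Near ε (runG (sb K) C w) (C.run b) := by
  induction C generalizing w b with
  | nil => exact h
  | cons g C ih =>
    rw [runG, Circ.run]
    refine ih (fun g hg => hC g (by simp [hg])) (near_append h ?_)
    exact List.Forall₂.cons ((gate_near h g (hC g (by simp)) hε0 hε hK).trans hKε) .nil

theorem near_last {ε : ℝ} (hε0 : 0 ≤ ε) {w : List ℝ} {b : List Bool} (h : Near ε w b) :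
    |w.getLastD 0 - bit (b.getLastD false)| ≤ ε := by
  have h0 : |(0:ℝ) - bit false| ≤ ε := by simpa [bit] using hε0
  generalize (0:ℝ) = z at h0 ⊢
  generalize false = f at h0 ⊢
  induction h generalizing z f with
  | nil => exact h0
  | @cons a c w b hac _ ih =>
    rw [List.getLastD_cons, List.getLastD_cons]
    exact ih a c hac

/-- All approximate bits are in `[0,1]`. -/
theorem runG_mem (K : ℕ) (C : Circ) (w : List ℝ) (hw : ∀ a ∈ w, 0 ≤ a ∧ a ≤ 1) :
    ∀ a ∈ runG (sb K) C w, 0 ≤ a ∧ a ≤ 1 := by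
  induction C generalizing w with
  | nil => exact hw
  | cons g C ih =>
    rw [runG]
    refine ih _ ?_
    intro a ha
    rcases List.mem_append.1 ha with h | h
    · exact hw a h
    · rw [List.mem_singleton] at h
      rw [h]
      exact sb_mem K _

theorem last_mem01 (w : List ℝ) (hw : ∀ a ∈ w, 0 ≤ a ∧ a ≤ 1) :
    0 ≤ w.getLastD 0 ∧ w.getLastD 0 ≤ 1 := by
  rcases List.eq_nil_or_concat w with rfl | ⟨l, f, rfl⟩
  · simp
  · rw [List.concat_eq_append]
    have : (l ++ [f]).getLastD 0 = f := by simp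
    rw [this]
    exact hw f (by simp)

theorem circ_length_le (C : Circ) : C.length ≤ C.size ∧ ∀ g ∈ C, g.size ≤ C.size := by
  rw [Circ.size]
  induction C with
  | nil => simp
  | cons g C ih =>
    have hg : 1 ≤ g.size := by
      cases g with
      | nand i j => rw [Gate.size]; norm_num
      | pos p => rw [Gate.size]; omega
    rw [List.map_cons, List.sum_cons, List.length_cons]
    refine ⟨by omega, ?_⟩
    intro f hf
    rcases List.mem_cons.1 hf with rfl | hf
    · omega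
    · have := ih.2 f hf
      omega

end Pool.Agent.SLPQ
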